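import Mathlib

/-!
# The maps `s ↦ (s ^ q + c s) / q`, `c ≡ -1` modulo `q`, and residues modulo powers of `q`
-/

set_option autoImplicit false

namespace Pool.Agent.H378.RS

/-- the difference of the values of the polynomial `x ^ q + c x` is `(u' - u) w` with
`w ≡ c` modulo `q` if `u' ≡ u` modulo `q` -/
lemma diff {q : ℕ} (c : ℤ) {u u' : ℤ} (h : (q : ℤ) ∣ u' - u) :
    ∃ w : ℤ, (q : ℤ) ∣ w - c ∧ (u' ^ q + c * u') - (u ^ q + c * u) = (u' - u) * w := by
  refine ⟨(∑ i ∈ Finset.range q, u' ^ i * u ^ (q - 1 - i)) + c, ?_, ?_⟩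
  · rw [add_sub_cancel_right]
    have h1 : ∀ i ∈ Finset.range q, (q : ℤ) ∣ u' ^ i * u ^ (q - 1 - i) - u ^ (q - 1) := by
      intro i hi
      rw [Finset.mem_range] at hi
      have h2 : (q : ℤ) ∣ u' ^ i - u ^ i := h.trans (sub_dvd_pow_sub_pow u' u i)
      have h3 : u ^ (q - 1) = u ^ i * u ^ (q - 1 - i) := by
        rw [← pow_add]
        congr 1
        omega
      rw [h3, ← sub_mul]
      exact h2.mul_right _
    have h2 := Finset.dvd_sum h1
    rw [Finset.sum_sub_distrib, Finset.sum_const, Finset.card_range, nsmul_eq_mul] at h2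
    exact (dvd_sub_left (Dvd.intro _ rfl)).1 h2
  · have h1 := (Commute.all u' u).geom_sum₂_mul q
    have h2 : u' ^ q - u ^ q = (u' - u) * ∑ i ∈ Finset.range q, u' ^ i * u ^ (q - 1 - i) := by
      rw [← h1, mul_comm]
    linear_combination h2

/-- Hensel's lemma for `(x ^ q + c x) / q` at `x ≡ 1` modulo `q` -/
lemma hensel {q : ℕ} {c : ℤ} (hc : (q : ℤ) ∣ c + 1) (r : ℤ) (a : ℕ) :
    ∃ u : ℤ, (q : ℤ) ∣ u - 1 ∧ (q : ℤ) ^ (a + 1) ∣ u ^ q + c * u - q * r := by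
  induction a with
  | zero =>
    refine ⟨1, by simp, ?_⟩
    rw [one_pow, mul_one, zero_add, pow_one]
    have h1 : (1 : ℤ) + c - q * r = (c + 1) - q * r := by ring
    rw [h1]
    exact dvd_sub hc (Dvd.intro _ rfl)
  | succ a ih =>
    obtain ⟨u, h1, e, h2⟩ := ih
    have h5 : (q : ℤ) ∣ q ^ (a + 1) * e := by
      rw [pow_succ, mul_comm _ (q : ℤ), mul_assoc]
      exact dvd_mul_right _ _
    obtain ⟨w, ⟨k, h3⟩, h4⟩ := diff (q := q) c (u := u) (u' := u + q ^ (a + 1) * e) (by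
      rw [add_sub_cancel_left]
      exact h5)
    obtain ⟨l, hl⟩ := hc
    refine ⟨u + q ^ (a + 1) * e, ?_, e * (k + l), ?_⟩
    · have h6 : u + q ^ (a + 1) * e - 1 = (u - 1) + q ^ (a + 1) * e := by ring
      rw [h6]
      exact dvd_add h1 h5
    · have hw : w = q * k + (q * l - 1) := by linear_combination h3 + hl
      rw [hw] at h4
      linear_combination h4 + h2

/-- The step on the level of valuations. -/
lemma step_val {q : ℕ} (hq : q.Prime) {c : ℤ} (hc : (q : ℤ) ∣ c + 1) {s s' : ℤ}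
    (h : (q : ℤ) * s' = s ^ q + c * s) {a : ℕ} (h1 : (q : ℤ) ^ (a + 1) ∣ s)
    (h2 : ¬ (q : ℤ) ^ (a + 2) ∣ s) : (q : ℤ) ^ a ∣ s' ∧ ¬ (q : ℤ) ^ (a + 1) ∣ s' := by
  have hq0 : (q : ℤ) ≠ 0 := by exact_mod_cast hq.ne_zero
  have hqp : Prime (q : ℤ) := Nat.prime_iff_prime_int.1 hq
  obtain ⟨t, rfl⟩ := h1
  have hdiv : (q : ℤ) ∣ q ^ (a + 1) * t - 0 := by
    rw [sub_zero, pow_succ, mul_comm _ (q : ℤ), mul_assoc]
    exact dvd_mul_right _ _
  obtain ⟨w, ⟨k, hk⟩, h4⟩ := diff (q := q) c hdiv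
  rw [zero_pow hq.ne_zero, mul_zero, add_zero, sub_zero, sub_zero] at h4
  rw [h4] at h
  have h5 : s' = q ^ a * (t * w) := by
    apply mul_left_cancel₀ hq0
    rw [h]
    ring
  refine ⟨h5 ▸ dvd_mul_right _ _, fun h6 => ?_⟩
  rw [h5, pow_succ] at h6
  have h7 : (q : ℤ) ∣ t * w := (mul_dvd_mul_iff_left (pow_ne_zero _ hq0)).1 h6
  rcases hqp.dvd_or_dvd h7 with h8 | h8
  · refine h2 ?_
    rw [show a + 2 = (a + 1) + 1 by ring, pow_succ]
    exact mul_dvd_mul_left _ h8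
  · have h9 : (q : ℤ) ∣ 1 := by
      have h10 : (1 : ℤ) = (c + 1) - w + (w - c) := by ring
      rw [h10]
      exact dvd_add (dvd_sub hc h8) ⟨k, hk⟩
    exact hqp.not_isUnit (isUnit_of_dvd_one h9)

/-- congruences of `s`, `t` modulo `q ^ (n + 1)` and of the next terms modulo `q ^ n` -/
lemma step_congr {q : ℕ} (hq : q.Prime) {c : ℤ} (hc : (q : ℤ) ∣ c + 1) {s s' t t' : ℤ}
    (h : (q : ℤ) * s' = s ^ q + c * s) (h' : (q : ℤ) * t' = t ^ q + c * t)
    (h1 : (q : ℤ) ∣ s - t) (n : ℕ) : (q : ℤ) ^ (n + 1) ∣ s - t ↔ (q : ℤ) ^ n ∣ s' - t' := by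
  have hq0 : (q : ℤ) ≠ 0 := by exact_mod_cast hq.ne_zero
  have hqp : Prime (q : ℤ) := Nat.prime_iff_prime_int.1 hq
  obtain ⟨w, ⟨k, hk⟩, h4⟩ := diff (q := q) c h1
  have h5 : (q : ℤ) * (s' - t') = (s - t) * w := by rw [← h4, mul_sub, h, h']
  have hco : IsCoprime ((q : ℤ) ^ (n + 1)) w := by
    refine (IsCoprime.pow_left ?_)
    obtain ⟨l, hl⟩ := hc
    refine ⟨k + l, -1, ?_⟩
    linear_combination -hk - hl
  rw [← mul_dvd_mul_iff_left (b := (q : ℤ) ^ n) hq0, ← pow_succ', h5]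
  exact ⟨fun h6 => h6.mul_right _, fun h6 => hco.dvd_of_dvd_mul_right h6⟩

/-- a sequence of integers with `q s_{k + 1} = s_k ^ q + c s_k` -/
def Seq (q : ℕ) (c : ℤ) (s : ℕ → ℤ) : Prop := ∀ k, (q : ℤ) * s (k + 1) = s k ^ q + c * s k

/-- the residues modulo `q` of the first `n` terms determine the residue modulo `q ^ n` of the
first term -/
theorem seq_digits {q : ℕ} (hq : q.Prime) {c : ℤ} (hc : (q : ℤ) ∣ c + 1) (n : ℕ) :
    ∀ {s t : ℕ → ℤ}, Seq q c s → Seq q c t →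
      ((q : ℤ) ^ n ∣ s 0 - t 0 ↔ ∀ k, k < n → (q : ℤ) ∣ s k - t k) := by
  induction n with
  | zero => intro s t _ _; simp
  | succ n ih =>
    intro s t hs ht
    have h1 := ih (s := fun k => s (k + 1)) (t := fun k => t (k + 1)) (fun k => hs (k + 1))
      fun k => ht (k + 1)
    constructor
    · intro h2 k hk
      have h3 : (q : ℤ) ∣ s 0 - t 0 := (dvd_pow_self _ (Nat.succ_ne_zero n)).trans h2
      rcases Nat.eq_zero_or_pos k with rfl | hk0
      · exact h3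
      · obtain ⟨k, rfl⟩ := Nat.exists_eq_succ_of_ne_zero hk0.ne'
        exact h1.1 ((step_congr hq hc (hs 0) (ht 0) h3 n).1 h2) k (by omega)
    · intro h2
      have h3 := h2 0 (Nat.succ_pos n)
      exact (step_congr hq hc (hs 0) (ht 0) h3 n).2 (h1.2 fun k hk => h2 (k + 1) (by omega))

/-- the constant: `-1` for `q = p`, `q² - 1` for `q ≠ p` -/
def cc (p q : ℕ) : ℤ := if q = p then -1 else (q : ℤ) ^ 2 - 1

lemma cc_dvd (p q : ℕ) : (q : ℤ) ∣ cc p q + 1 := by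
  unfold cc
  split_ifs
  · simp
  · rw [sub_add_cancel, sq]
    exact dvd_mul_right _ _

/-- A set of pairs `(s, g)`, `s` an integer and `g` a natural number, closed under the powers
`(s ^ n, g ^ n)` and under the maps `(s, g) ↦ ((s ^ q + c s) / q, q g ^ q)` for all primes
`q ≠ p` and, if `E` holds, also for `q = p`, with `c = q² - 1` for `q ≠ p` and `c = -1` for `q = p`. -/
structure Clo (p : ℕ) (E : Prop) (V : ℤ → ℕ → Prop) : Prop where
  pos : ∀ s g, V s g → 0 < g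
  pw : ∀ s g, V s g → ∀ n : ℕ, 0 < n → V (s ^ n) (g ^ n)
  wr : ∀ q : ℕ, q.Prime → (q = p → E) → ∀ s g, V s g →
    ∃ s', V s' (g ^ q * q) ∧ (q : ℤ) * s' = s ^ q + cc p q * s

variable {p : ℕ} {E : Prop} {V : ℤ → ℕ → Prop}

/-- a member prime to `q` -/
theorem Clo.unit (h : Clo p E V) {q : ℕ} (hq : q.Prime) (hE : q = p → E) {s : ℤ} {g : ℕ}
    (hs : V s g) (h0 : s ≠ 0) : ∃ s' g', V s' g' ∧ ¬ (q : ℤ) ∣ s' := by
  have key : ∀ a : ℕ, ∀ s g, V s g → (q : ℤ) ^ a ∣ s → ¬ (q : ℤ) ^ (a + 1) ∣ s →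
      ∃ s' g', V s' g' ∧ ¬ (q : ℤ) ∣ s' := by
    intro a
    induction a with
    | zero => exact fun s g hs _ h2 => ⟨s, g, hs, by rwa [zero_add, pow_one] at h2⟩
    | succ a ih =>
      intro s g hs h1 h2
      obtain ⟨s', h3, h4⟩ := h.wr q hq hE s g hs
      obtain ⟨h5, h6⟩ := step_val hq (cc_dvd p q) h4 h1 h2
      exact ih s' _ h3 h5 h6
  have hfin : FiniteMultiplicity (q : ℤ) s :=
    Int.finiteMultiplicity_iff.2 ⟨by rw [Int.natAbs_natCast]; exact hq.ne_one, h0⟩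
  obtain ⟨a, ha⟩ := hfin
  classical
  have hex : ∃ a, ¬ (q : ℤ) ^ (a + 1) ∣ s := ⟨a, ha⟩
  refine key (Nat.find hex) s g hs ?_ (Nat.find_spec hex)
  rcases Nat.eq_zero_or_pos (Nat.find hex) with h1 | h1
  · rw [h1, pow_zero]
    exact one_dvd _
  · have h2 := Nat.find_min hex (Nat.sub_lt h1 Nat.one_pos)
    rw [not_not, Nat.sub_add_cancel h1] at h2
    exact h2

lemma pow_mod_one {q : ℕ} (hq : q.Prime) {s : ℤ} (h : ¬ (q : ℤ) ∣ s) (a k : ℕ) :
    (q : ℤ) ^ a ∣ s ^ ((q ^ a).totient * k) - 1 := by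
  have hqp : Prime (q : ℤ) := Nat.prime_iff_prime_int.1 hq
  have hsu : IsUnit (s : ZMod (q ^ a)) := by
    rw [ZMod.coe_int_isUnit_iff_isCoprime]
    push_cast
    exact (IsCoprime.pow_left ((hqp.coprime_iff_not_dvd).2 h))
  have h2 : ((1 : ℤ) : ZMod (q ^ a)) = ((s ^ ((q ^ a).totient * k) : ℤ) : ZMod (q ^ a)) := by
    obtain ⟨u, hu⟩ := hsu
    push_cast
    rw [pow_mul, ← hu, ← Units.val_pow_eq_pow_val, ZMod.pow_totient, Units.val_one, one_pow]
  have h7 := (ZMod.intCast_eq_intCast_iff_dvd_sub _ _ _).1 h2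
  push_cast at h7
  exact h7

/-- a member prime to `q` and at least two -/
theorem Clo.two (h : Clo p E V) {q : ℕ} (hq : q.Prime) (hE : q = p → E) {s : ℤ} {g : ℕ}
    (hs : V s g) (h0 : s ≠ 0) : ∃ s' g', V s' g' ∧ ¬ (q : ℤ) ∣ s' ∧ 2 ≤ s' := by
  obtain ⟨s, g, hs, h1⟩ := h.unit hq hE hs h0
  have hqp : Prime (q : ℤ) := Nat.prime_iff_prime_int.1 hq
  have hs2 := h.pw s g hs 2 two_pos
  have h2 : ¬ (q : ℤ) ∣ s ^ 2 := fun h3 => h1 (hqp.dvd_of_dvd_pow h3)
  have hs0 : s ≠ 0 := by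
    rintro rfl
    exact h1 (dvd_zero _)
  have h3 : 1 ≤ s ^ 2 := by
    have := pow_pos (abs_pos.2 hs0) 2
    rw [sq_abs] at this
    omega
  rcases h3.lt_or_eq with h4 | h4
  · exact ⟨_, _, hs2, h2, h4⟩
  · obtain ⟨l, hl1, hl2⟩ := Nat.exists_infinite_primes (max p q + 1)
    have hlp : l ≠ p := by
      rintro rfl
      exact absurd (le_max_left l q) (by omega)
    obtain ⟨s', h5, h6⟩ := h.wr l hl2 (fun h => (hlp h).elim) _ _ hs2
    have h7 : s' = l := by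
      have hl0 : (l : ℤ) ≠ 0 := by exact_mod_cast hl2.ne_zero
      apply mul_left_cancel₀ hl0
      rw [h6, ← h4, cc, if_neg hlp]
      ring
    refine ⟨s', _, h5, ?_, ?_⟩
    · rw [h7]
      intro h8
      have h9 := (Nat.prime_dvd_prime_iff_eq hq hl2).1 (by exact_mod_cast h8)
      have := le_max_right p q
      omega
    · rw [h7]
      exact_mod_cast hl2.two_le

/-- the size of the next member -/
lemma size {q : ℕ} (hq : 2 ≤ q) {c s s' : ℤ} (hc : -1 ≤ c) (h : (q : ℤ) * s' = s ^ q + c * s)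
    (hs : (q : ℤ) + 1 ≤ s) : s ≤ s' := by
  have hq0 : (0 : ℤ) < q := by exact_mod_cast (by omega : 0 < q)
  have hs0 : 0 < s := by linarith
  have h1 : s ^ q = s ^ (q - 2) * s * s := by
    rw [mul_assoc, ← pow_two, ← pow_add]
    congr 1
    omega
  have h2 : (1 : ℤ) ≤ s ^ (q - 2) := one_le_pow₀ (by linarith)
  have h3 : s * s ≤ s ^ q := by
    rw [h1]
    nlinarith [mul_pos hs0 hs0]
  refine le_of_mul_le_mul_left ?_ hq0
  rw [h]
  nlinarith

/-- **all residues, and of polynomial size** -/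
theorem Clo.res (h : Clo p E V) {q : ℕ} (hq : q.Prime) (hE : q = p → E) {s : ℤ} {g : ℕ}
    (hs : V s g) (h0 : s ≠ 0) (a : ℕ) (r : ℤ) : ∃ δ : ℝ, 0 < δ ∧ ∀ N : ℕ, ∃ s' g', V s' g' ∧
      (q : ℤ) ^ a ∣ s' - r ∧ (N : ℤ) ≤ s' ∧ (g' : ℝ) ^ δ ≤ (s' : ℝ) := by
  have hq0 : (q : ℤ) ≠ 0 := by exact_mod_cast hq.ne_zero
  have hqp : Prime (q : ℤ) := Nat.prime_iff_prime_int.1 hq
  have hne : NeZero (q ^ (a + 1)) := ⟨pow_ne_zero _ hq.ne_zero⟩
  obtain ⟨s, g, hs, h1, hs2⟩ := h.two hq hE hs h0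
  have hg := h.pos s g hs
  obtain ⟨u, ⟨k, hk⟩, h2⟩ := hensel (cc_dvd p q) r a
  -- a prime number in the class of `u`
  have hru : IsUnit (u : ZMod (q ^ (a + 1))) := by
    rw [ZMod.coe_int_isUnit_iff_isCoprime]
    push_cast
    refine IsCoprime.pow_left ⟨-k, 1, ?_⟩
    linear_combination hk
  obtain ⟨l, hl1, hl2, hl3⟩ := Nat.forall_exists_prime_gt_and_eq_mod hru (max p q)
  have hlp : l ≠ p := by
    rintro rfl
    exact absurd hl1 (not_lt.2 (le_max_left _ _))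
  have hl0 : (l : ℤ) ≠ 0 := by exact_mod_cast hl2.ne_zero
  have hlu : IsUnit ((l : ℕ) : ZMod (q ^ (a + 1))) := by
    rw [hl3]
    exact hru
  set K := (q ^ (a + 1)).totient with hK
  have hK0 : 0 < K := Nat.totient_pos.2 (Nat.pos_of_ne_zero hne.out)
  -- the members
  have key : ∀ k : ℕ, 0 < k → (l : ℤ) + 1 ≤ s ^ (K * k) → (q : ℤ) + 1 ≤ s ^ (K * k) →
      ∃ s', V s' (((g ^ (K * k)) ^ l * l) ^ q * q) ∧ (q : ℤ) ^ a ∣ s' - r ∧ s ^ (K * k) ≤ s' := by
    intro k hk hkl hkq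
    obtain ⟨s2, h3, h4⟩ := h.wr l hl2 (fun h => (hlp h).elim) _ _
      (h.pw s g hs (K * k) (Nat.mul_pos hK0 hk))
    have h41 : s ^ (K * k) ≤ s2 := size hl2.two_le (by
      rw [cc, if_neg hlp]
      nlinarith [sq_nonneg (l : ℤ)]) h4 hkl
    have h42 : (q : ℤ) ^ (a + 1) ∣ s2 - u := by
      have h5 := congrArg (Int.cast : ℤ → ZMod (q ^ (a + 1))) h4
      have h51 := (ZMod.intCast_eq_intCast_iff_dvd_sub _ _ (q ^ (a + 1))).2 (by
        push_cast
        exact pow_mod_one hq h1 (a + 1) k)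
      rw [← hK] at h51
      rw [Int.cast_add, Int.cast_mul, Int.cast_mul, Int.cast_pow, ← h51, cc, if_neg hlp] at h5
      push_cast at h5
      rw [one_pow, mul_one, add_sub_cancel, sq] at h5
      have h6 : (u : ZMod (q ^ (a + 1))) = (s2 : ZMod (q ^ (a + 1))) := by
        rw [← hl3]
        exact (hlu.mul_left_cancel h5).symm
      have h7 := (ZMod.intCast_eq_intCast_iff_dvd_sub _ _ _).1 h6
      push_cast at h7
      exact h7
    obtain ⟨s3, h5, h6⟩ := h.wr q hq hE _ _ h3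
    have h61 : s2 ≤ s3 := size hq.two_le (by
      unfold cc
      split_ifs
      · exact le_rfl
      · nlinarith [sq_nonneg (q : ℤ)]) h6 (hkq.trans h41)
    refine ⟨s3, h5, ?_, h41.trans h61⟩
    have h7 : (q : ℤ) ∣ s2 - u := (dvd_pow_self _ (Nat.succ_ne_zero a)).trans h42
    obtain ⟨w, -, h8⟩ := diff (q := q) (cc p q) h7
    rw [← mul_dvd_mul_iff_left hq0, ← pow_succ']
    have h9 : (q : ℤ) * (s3 - r) = (s2 - u) * w + (u ^ q + cc p q * u - q * r) := by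
      rw [← h8, mul_sub, h6]
      ring
    rw [h9]
    exact dvd_add (h42.mul_right _) h2
  -- the exponent
  have hlq : (0 : ℝ) < l * q := by
    have := hl2.pos
    have := hq.pos
    positivity
  have h4g : (1 : ℝ) < 4 * g := by
    have : (1 : ℝ) ≤ g := by exact_mod_cast hg
    linarith
  have hlog : 0 < Real.log (4 * g) := Real.log_pos h4g
  refine ⟨Real.log 2 / (l * q * Real.log (4 * g)),
    div_pos (Real.log_pos (by norm_num)) (mul_pos hlq hlog), fun N => ?_⟩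
  -- large `k`
  have hbig : ∀ M : ℕ, ∃ k, 0 < k ∧ (M : ℤ) ≤ s ^ (K * k) := by
    intro M
    refine ⟨M + 1, Nat.succ_pos _, ?_⟩
    have e1 : M ≤ 2 ^ M := Nat.lt_two_pow_self.le
    have e2 : (2 : ℤ) ^ M ≤ 2 ^ (K * (M + 1)) := pow_le_pow_right₀ (by norm_num) (by nlinarith)
    have e3 : (2 : ℤ) ^ (K * (M + 1)) ≤ s ^ (K * (M + 1)) := pow_le_pow_left₀ (by norm_num) hs2 _
    have e4 : (M : ℤ) ≤ 2 ^ M := by exact_mod_cast e1
    linarith
  obtain ⟨k, hk, hkM⟩ := hbig (N + l + q + 1)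
  push_cast at hkM
  obtain ⟨s', h5, h6, h7⟩ := key k hk (by
    have : (0 : ℤ) ≤ N := by positivity
    have : (0 : ℤ) ≤ q := by positivity
    linarith) (by
    have : (0 : ℤ) ≤ N := by positivity
    have : (0 : ℤ) ≤ l := by positivity
    linarith)
  refine ⟨s', _, h5, h6, ?_, ?_⟩
  · have : (0 : ℤ) ≤ l := by positivity
    have : (0 : ℤ) ≤ q := by positivity
    linarith
  · -- `g' ≤ (4 g) ^ (l q K k)`
    have hKk : 1 ≤ K * k := Nat.mul_pos hK0 hk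
    have e1 : ((((g ^ (K * k)) ^ l * l) ^ q * q : ℕ) : ℝ) ≤ (4 * g : ℝ) ^ (l * q * (K * k)) := by
      have e2 : (l : ℝ) ≤ 2 ^ l := by exact_mod_cast (Nat.lt_two_pow_self (n := l)).le
      have e3 : (q : ℝ) ≤ 2 ^ q := by exact_mod_cast (Nat.lt_two_pow_self (n := q)).le
      have e4 : (2 : ℝ) ^ q ≤ 2 ^ (l * q) :=
        pow_le_pow_right₀ (by norm_num) (Nat.le_mul_of_pos_left _ hl2.pos)
      have e5 : (4 : ℝ) ^ (l * q) ≤ 4 ^ (l * q * (K * k)) :=
        pow_le_pow_right₀ (by norm_num) (Nat.le_mul_of_pos_right _ hKk)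
      push_cast
      rw [mul_pow, ← pow_mul, ← pow_mul, mul_pow]
      calc (g : ℝ) ^ (K * k * (l * q)) * (l : ℝ) ^ q * q
          ≤ (g : ℝ) ^ (K * k * (l * q)) * ((2 : ℝ) ^ l) ^ q * 2 ^ (l * q) := by
            have := e3.trans e4
            gcongr
        _ = (g : ℝ) ^ (K * k * (l * q)) * 4 ^ (l * q) := by
            rw [← pow_mul, mul_assoc, ← mul_pow]
            norm_num
        _ ≤ (g : ℝ) ^ (K * k * (l * q)) * 4 ^ (l * q * (K * k)) := by gcongr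
        _ = 4 ^ (l * q * (K * k)) * (g : ℝ) ^ (l * q * (K * k)) := by
            rw [mul_comm]
            congr 2
            ring
    have e6 : (0 : ℝ) ≤ Real.log 2 / (l * q * Real.log (4 * g)) :=
      (div_pos (Real.log_pos (by norm_num)) (mul_pos hlq hlog)).le
    have e7 : ((4 * g : ℝ) ^ (l * q * (K * k))) ^ (Real.log 2 / (l * q * Real.log (4 * g))) =
        2 ^ (K * k) := by
      rw [← Real.rpow_natCast, ← Real.rpow_mul (by linarith)]
      have e8 : ((l * q * (K * k) : ℕ) : ℝ) * (Real.log 2 / (l * q * Real.log (4 * g))) =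
          (K * k : ℕ) * Real.log 2 / Real.log (4 * g) := by
        have hl' : (l : ℝ) ≠ 0 := by exact_mod_cast hl2.ne_zero
        have hq' : (q : ℝ) ≠ 0 := by exact_mod_cast hq.ne_zero
        push_cast
        field_simp
      rw [e8, Real.rpow_def_of_pos (by linarith)]
      have e9 : Real.log (4 * g) * ((K * k : ℕ) * Real.log 2 / Real.log (4 * g)) =
          (K * k : ℕ) * Real.log 2 := by
        field_simp
      rw [e9, mul_comm, Real.exp_mul, Real.exp_log (by norm_num), Real.rpow_natCast]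
    have e10 : ((2 : ℝ)) ^ (K * k) ≤ (s' : ℝ) := by
      have e11 : (2 : ℤ) ^ (K * k) ≤ s' := (pow_le_pow_left₀ (by norm_num) hs2 _).trans h7
      exact_mod_cast e11
    refine le_trans ?_ e10
    rw [← e7]
    exact Real.rpow_le_rpow (by positivity) e1 e6

/-- **an upper bound of subpolynomial growth in one residue class modulo a prime power** -/
theorem Clo.bound (h : Clo p E V) {q : ℕ} (hq : q.Prime) (hE : q = p → E) (a : ℕ) (r : ℤ)
    (hb : ∀ ε : ℝ, 0 < ε → ∃ c : ℝ, ∀ s g, V s g → (q : ℤ) ^ a ∣ s - r →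
      (s : ℝ) ≤ c * (g : ℝ) ^ ε) {s : ℤ} {g : ℕ} (hs : V s g) : s = 0 := by
  by_contra h0
  obtain ⟨δ, hδ, h1⟩ := h.res hq hE hs h0 a r
  obtain ⟨c, hc⟩ := hb (δ / 2) (by positivity)
  obtain ⟨N, hN⟩ := exists_nat_gt (c ^ 2 + 1)
  obtain ⟨s', g', h2, h3, h4, h5⟩ := h1 N
  have h6 := hc s' g' h2 h3
  have hg := h.pos s' g' h2
  have hg1 : (0 : ℝ) < g' := by exact_mod_cast hg
  have h7 : (g' : ℝ) ^ δ = ((g' : ℝ) ^ (δ / 2)) ^ 2 := by
    rw [← Real.rpow_natCast, ← Real.rpow_mul hg1.le]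
    congr 1
    push_cast
    ring
  set x := (g' : ℝ) ^ (δ / 2) with hx
  have hx0 : 0 < x := Real.rpow_pos_of_pos hg1 _
  have h8 : (N : ℝ) ≤ (s' : ℝ) := by exact_mod_cast h4
  rw [h7] at h5
  -- `x² ≤ s' ≤ c x`, so `x ≤ c` and `s' ≤ c²`
  have h9 : x ≤ c := by
    have h10 : x * x ≤ c * x := by nlinarith
    exact le_of_mul_le_mul_right h10 hx0
  nlinarith

end Pool.Agent.H378.RS
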