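import Pool.Agent.H378.RS.Nf

/-!
# The weight conjecture for classes of blocks: one residue class decides
-/

set_option autoImplicit false
set_option linter.unusedSectionVars false

open scoped BigOperators Classical

noncomputable section

namespace Pool.Agent.H378.RS

open Pool.Agent.Y63.NV Pool.Agent.Y405.NV Pool.Agent.Y63.NV.B48B
open Pool.Agent.Y63.AWC (IsIrreducibleCharacter pSubgroupSetoid)
open Pool.Agent.Q90.WR (dfn dfn_eq deg_pos fac_le)
open Pool.Agent.Helper884.IC (Irr mem_Irr IsIrrChar)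
open Pool.Agent.E8helper60.AW
open Pool.Agent.E8helper60.DD
open Pool.Agent.E8helper46.AW (exists_char)
open Pool.Agent.H378.JW (DefEq defEq_iff exists_overW_p pos_wr_p overW_unique_p)

variable {F : Type} [Field F] [IsAlgClosed F] {p : ℕ} [hp : Fact p.Prime] [CharP F p]
  (red : integralClosure ℤ ℂ →+* F)

/-- wreath products with a group of order `p` -/
theorem wr_p' {G C : Type} [Group G] [Finite G] [Group C] [Fintype C] (hC : Nat.card C = p)
    {B : (G → F) → F} (hB : IsBlock B) :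
    ∃ B' : (RegularWreathProduct G C → F) → F, IsBlock B' ∧ OverW B B' ∧ Pos p red B' ∧
      p * numIrrBlock B' = numIrrBlock B ^ p + co p p * numIrrBlock B ∧
      p * numWt p red B' = numWt p red B ^ p + co p p * numWt p red B := by
  have hco : co p p = p - 1 := if_pos rfl
  rw [hco]
  obtain ⟨B', h1, h2, -, h4, h5⟩ := wreath_p (p := p) red hC hB
  refine ⟨B', h1, over_iff.1 h2, ?_, h4, h5⟩
  obtain ⟨χ, k1, k2⟩ := exists_char (p := p) red hB
  obtain ⟨χ', c1, c2, c3, c4⟩ := exists_overW_p (p := p) (C := C) red hC k1 k2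
  refine pos_of red c1 (fun f hf => ?_) (by rw [c4]; exact Nat.succ_pos _)
  exact overW_unique_p (p := p) red hC hB c2 h1 c3 (over_iff.1 h2) f hf

/-- wreath products with a group of order `q ≠ p` -/
theorem wr_q' {G C : Type} [Group G] [Finite G] [Group C] [Fintype C] {q : ℕ} (hq : q.Prime)
    (hqp : q ≠ p) (hC : Nat.card C = q) {B : (G → F) → F} (hB : IsBlock B) (hpos : Pos p red B) :
    ∃ B' : (RegularWreathProduct G C → F) → F, IsBlock B' ∧ OverW B B' ∧ Pos p red B' ∧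
      q * numIrrBlock B' = numIrrBlock B ^ q + co p q * numIrrBlock B ∧
      q * numWt p red B' = numWt p red B ^ q + co p q * numWt p red B := by
  obtain ⟨S, h1, h2, h3, h4⟩ := formula (p := p) red q hq hC hB
  obtain ⟨χ, k1, k2⟩ := exists_char (p := p) red hB
  obtain ⟨χ', c1, c2, c3, c4⟩ := exists_overW (p := p) (C := C) red hq hqp hC k1 k2
  obtain ⟨B', ⟨b1, b2⟩, -⟩ := h2 _ c2 (over_iff.2 c3)
  have hS : S = {B'} := by
    rw [Finset.eq_singleton_iff_unique_mem]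
    refine ⟨b1, fun B'' hB'' => ?_⟩
    obtain ⟨d1, d2⟩ := h1 B'' hB''
    obtain ⟨e1, e2⟩ := h1 B' b1
    obtain ⟨D, -, d3⟩ := h2 B'' d1 d2
    rw [d3 B'' ⟨hB'', fun f _ => rfl⟩, d3 B' ⟨b1, fun f hf => ?_⟩]
    exact overW_unique (p := p) red hq hqp hC hB hpos d1 e1 (over_iff.1 d2) (over_iff.1 e2) f hf
  rw [hS, Finset.sum_singleton] at h3 h4
  refine ⟨B', (h1 B' b1).1, over_iff.1 (h1 B' b1).2, ?_, h3, h4⟩
  exact pos_wr (p := p) red hq hqp hC hB hpos (over_iff.1 (h1 B' b1).2)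

/-- direct powers -/
theorem pow_num' {G ι : Type} [Group G] [Finite G] [Fintype ι] [Nonempty ι] {B : (G → F) → F}
    (hB : IsBlock B) (hpos : Pos p red B) :
    ∃ B' : ((ι → G) → F) → F, IsBlock B' ∧ OverP B B' ∧ Pos p red B' ∧
      numIrrBlock B' = numIrrBlock B ^ Fintype.card ι ∧
      numWt p red B' = numWt p red B ^ Fintype.card ι := by
  obtain ⟨χ, k1, k2⟩ := exists_char (p := p) red hB
  obtain ⟨-, c1, c2⟩ := exists_overP (ι := ι) red k1 k2
  obtain ⟨e, he, hi, h1, h2⟩ := isolate' red hB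
  have hf1 : Fact (IsClassFun e) := ⟨he.cls⟩
  have hf2 : Fact (IsClassFun (tens fun _ : ι => e)) := ⟨cls_tens he.cls⟩
  obtain ⟨S, lβ, wβ, d1, d2, d3, d4, d5, d6, d7⟩ := decomp (p := p) red (G := ι → G)
  obtain ⟨E, hE⟩ : ∃ E : CF (ι → G) F, E.1 = tens fun _ : ι => e :=
    ⟨⟨tens fun _ : ι => e, cls_tens he.cls⟩, rfl⟩
  refine ⟨_, c1, c2, pos_pow (p := p) red hB hpos c2, ?_⟩
  generalize centralValue red (tens fun _ : ι => χ) = B' at *
  have hB1 : rs B' E = 1 := by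
    change B' E.1 = 1
    rw [hE, c2 e he.cls, hi.one, one_pow]
  have hmem : rs B' ∈ S := rs_mem d1 d7 c1
  have hsum : ∀ (a : (CF (ι → G) F → F) → ℕ),
      (∑ β ∈ S, if β E = 1 then a β else 0) = a (rs B') := by
    intro a
    rw [Finset.sum_eq_single (rs B')]
    · exact if_pos hB1
    · intro β hβ hne
      refine if_neg fun h => hne ?_
      obtain ⟨B'', hB'', rfl⟩ := d1 β hβ
      have h3 : B'' (tens fun _ : ι => e) = 1 := by
        rw [← hE]
        exact h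
      have h4 : OverP B B'' := overpow_of_one p hi hB'' h3
      funext f
      exact overP_unique (p := p) red hB hB'' c1 h4 c2 f.1 f.2
    · exact fun h => absurd hmem h
  have h5 := nl_pow (ι := ι) he
  have h6 := nwt_pow (ι := ι) red he
  rw [h1] at h5
  rw [h2] at h6
  constructor
  · rw [← h5, ← hE, d4 E, hsum lβ, (d3 B').1]
  · rw [← h6]
    have h7 := d5 E
    rw [hsum wβ, ← (d3 B').2] at h7
    rw [nwt_sum, ← hE]
    exact h7.symm


/-- A class of blocks of finite groups which contains, with a block `B` of `G`, the block of `G ≀ C`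
over `B ⊗ ⋯ ⊗ B` for `C` of prime order (if `|C| ≠ p` only for `B` of positive defect) and the block
`B ⊗ ⋯ ⊗ B` of `G ^ n` (for `B` of positive defect). -/
structure ClW (p : ℕ) (red : integralClosure ℤ ℂ →+* F)
    (Y : (G : Type) → Group G → ((G → F) → F) → Prop) : Prop where
  fin : ∀ (G : Type) [i : Group G] (B : (G → F) → F), Y G i B → Finite G
  blk : ∀ (G : Type) [i : Group G] (B : (G → F) → F), Y G i B → IsBlock B
  wr : ∀ (C : Type) [Group C] [Fintype C], (Nat.card C).Prime →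
    ∀ (G : Type) [i : Group G] (B : (G → F) → F), Y G i B → (Nat.card C = p ∨ Pos p red B) →
      ∀ B' : (RegularWreathProduct G C → F) → F, IsBlock B' → OverW B B' →
        Y (RegularWreathProduct G C) inferInstance B'
  pw : ∀ (n : ℕ), 0 < n → ∀ (G : Type) [i : Group G] (B : (G → F) → F), Y G i B → Pos p red B →
      ∀ B' : ((Fin n → G) → F) → F, IsBlock B' → OverP B B' → Y (Fin n → G) inferInstance B'

variable {red} {Y : (G : Type) → Group G → ((G → F) → F) → Prop}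

/-- the values of the positive defect blocks of the class -/
def Vw (p : ℕ) (red : integralClosure ℤ ℂ →+* F)
    (Y : (G : Type) → Group G → ((G → F) → F) → Prop) (l w g : ℕ) : Prop :=
  ∃ (G : Type) (i : Group G) (B : (G → F) → F), Y G i B ∧ Pos p red B ∧
    numIrrBlock B = l ∧ numWt p red B = w ∧ Nat.card G = g

theorem ClW.clo (h : ClW p red Y) : Clo2 p (Vw p red Y) := by
  have hpP : p.Prime := hp.out
  refine ⟨?_, ?_, ?_⟩
  · rintro l w g ⟨G, i, B, hY, hpos, -, -, rfl⟩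
    have hf := h.fin G B hY
    have hB := h.blk G B hY
    have : Fintype G := Fintype.ofFinite G
    obtain ⟨χ, k1, k2⟩ := exists_char (p := p) red hB
    obtain ⟨n, hn, h1⟩ := hpos χ k1 k2
    by_contra hcon
    have h2 : Nat.card G = 1 := by
      have := Nat.card_pos (α := G)
      omega
    rw [h2, Nat.factorization_one, Finsupp.zero_apply] at h1
    exact absurd h1 (Nat.not_lt_zero _)
  · rintro l w g ⟨G, i, B, hY, hpos, rfl, rfl, rfl⟩ n hn
    have hf := h.fin G B hY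
    have hB := h.blk G B hY
    have : Nonempty (Fin n) := ⟨⟨0, hn⟩⟩
    obtain ⟨B', h1, h0, h2, h3, h4⟩ := pow_num' (ι := Fin n) red hB hpos
    rw [Fintype.card_fin] at h3 h4
    exact ⟨Fin n → G, inferInstance, B', h.pw n hn G B hY hpos B' h1 h0, h2, h3, h4, card_powF G n⟩
  · rintro q hq l w g ⟨G, i, B, hY, hpos, rfl, rfl, rfl⟩
    have hf := h.fin G B hY
    have hB := h.blk G B hY
    have : NeZero q := ⟨hq.ne_zero⟩
    have hC : Nat.card (Multiplicative (ZMod q)) = q := by simp [Nat.card_eq_fintype_card]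
    have hcard : Nat.card (RegularWreathProduct G (Multiplicative (ZMod q))) =
        Nat.card G ^ q * q := by rw [RegularWreathProduct.card, hC]
    have hw := h.wr (Multiplicative (ZMod q)) (by rwa [hC]) G B hY (Or.inr hpos)
    by_cases hqp : q = p
    · subst hqp
      obtain ⟨B', h1, h0, h2, h3, h4⟩ := wr_p' (p := q) red hC hB
      exact ⟨_, _, ⟨_, inferInstance, B', hw B' h1 h0, h2, rfl, rfl, hcard⟩, h3, h4⟩
    · obtain ⟨B', h1, h0, h2, h3, h4⟩ := wr_q' (p := p) red hq hqp hC hB hpos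
      exact ⟨_, _, ⟨_, inferInstance, B', hw B' h1 h0, h2, rfl, rfl, hcard⟩, h3, h4⟩

/-- a failure gives one for a block of positive defect -/
theorem ClW.fail (h : ClW p red Y) {G : Type} [i : Group G] {B : (G → F) → F} (hY : Y G i B) :
    (numWt p red B < numIrrBlock B → ∃ l w g, Vw p red Y l w g ∧ w < l) ∧
    (numIrrBlock B < numWt p red B → ∃ l w g, Vw p red Y l w g ∧ l < w) := by
  have hpP : p.Prime := hp.out
  have hf := h.fin G B hY
  have hB := h.blk G B hY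
  have : NeZero p := ⟨hpP.ne_zero⟩
  have hC : Nat.card (Multiplicative (ZMod p)) = p := by simp [Nat.card_eq_fintype_card]
  obtain ⟨B', h1, h0, h2, h3, h4⟩ := wr_p' (p := p) (C := Multiplicative (ZMod p)) red hC hB
  have hV : Vw p red Y (numIrrBlock B') (numWt p red B')
      (Nat.card (RegularWreathProduct G (Multiplicative (ZMod p)))) :=
    ⟨_, inferInstance, B', h.wr _ (by rwa [hC]) G B hY (Or.inl hC) B' h1 h0, h2, rfl, rfl, rfl⟩
  exact ⟨fun h => ⟨_, _, _, hV, mono hpP h3 h4 h⟩, fun h => ⟨_, _, _, hV, mono hpP h4 h3 h⟩⟩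

/-- `P |G| l(B) w(B)` for all blocks of the class -/
def AllW (p : ℕ) (red : integralClosure ℤ ℂ →+* F)
    (Y : (G : Type) → Group G → ((G → F) → F) → Prop) (P : ℕ → ℕ → ℕ → Prop) : Prop :=
  ∀ (G : Type) [i : Group G] (B : (G → F) → F), Y G i B →
    P (Nat.card G) (numIrrBlock B) (numWt p red B)

theorem ClW.eq (hY : ClW p red Y) {q : ℕ} (hq : q.Prime) (a n₀ : ℕ) (r : ℤ)
    (h : ∀ ε : ℝ, 0 < ε → ∀ x₀ : ℝ, ∃ x : ℝ, x₀ ≤ x ∧
      AllW p red Y (Rs n₀ ((q : ℤ) ^ a) r x ε)) :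
    AllW p red Y (fun _ a b => a = b) := by
  have hc := hY.clo
  have h1 : ∀ l w g, Vw p red Y l w g → l ≤ w := by
    intro l w g hV
    by_contra hlt
    rw [not_le] at hlt
    obtain ⟨l', w', g', k1, k2⟩ := hc.start n₀ hV hlt
    refine absurd ((hc.large n₀).approx hq a r (fun ε hε x₀ => ?_) k1) (not_le.2 k2)
    obtain ⟨x, hx, H⟩ := h ε hε x₀
    refine ⟨x, hx, ?_⟩
    rintro l w g ⟨⟨G, i, B, hG, -, rfl, rfl, rfl⟩, hn⟩ hg hr
    exact H G B hG hn hg hr
  have h2 : ∀ l w g, Vw p red Y l w g → w ≤ l := by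
    intro l w g hV
    by_contra hlt
    rw [not_le] at hlt
    obtain ⟨l', w', g', k1, k2⟩ := hc.swap.start n₀ hV hlt
    refine absurd ((hc.swap.large n₀).approx hq a (-r) (fun ε hε x₀ => ?_) k1) (not_le.2 k2)
    obtain ⟨x, hx, H⟩ := h ε hε x₀
    refine ⟨x, hx, ?_⟩
    rintro w l g ⟨⟨G, i, B, hG, -, rfl, rfl, rfl⟩, hn⟩ hg hr
    refine (H G B hG hn hg ?_).symm
    have e : ((numIrrBlock B : ℤ) - numWt p red B) - r =
        -(((numWt p red B : ℤ) - numIrrBlock B) - -r) := by ring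
    rw [e]
    exact hr.neg_right
  intro G i B hB
  obtain ⟨f1, f2⟩ := hY.fail hB
  rcases lt_trichotomy (numIrrBlock B) (numWt p red B) with h3 | h3 | h3
  · obtain ⟨l, w, g, h4, h5⟩ := f2 h3
    exact absurd (h2 l w g h4) (not_le.2 h5)
  · exact h3
  · obtain ⟨l, w, g, h4, h5⟩ := f1 h3
    exact absurd (h1 l w g h4) (not_le.2 h5)

theorem ClW.res (hY : ClW p red Y) {q : ℕ} (hq : q.Prime) (a n₀ : ℕ) (r : ℤ) :
    AllW p red Y (fun _ a b => a = b) ↔ ∀ ε : ℝ, 0 < ε → ∀ x₀ : ℝ, ∃ x : ℝ, x₀ ≤ x ∧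
      AllW p red Y (Rs n₀ ((q : ℤ) ^ a) r x ε) := by
  constructor
  · intro h ε hε x₀
    exact ⟨max x₀ 0, le_max_left _ _, fun G _ B hB => rs_refl (le_max_right _ _) (h G B hB)⟩
  · exact hY.eq hq a n₀ r

theorem ClW.forb (hY : ClW p red Y) {q : ℕ} (hq : q.Prime) (a n₀ : ℕ) {r : ℤ}
    (hr : ¬ (q : ℤ) ^ a ∣ r) :
    AllW p red Y (fun _ a b => a = b) ↔
      AllW p red Y (fun g l w => n₀ ≤ g → ¬ (q : ℤ) ^ a ∣ ((l : ℤ) - w) - r) := by
  constructor
  · intro h G _ B hB _ hd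
    have h1 : numIrrBlock B = numWt p red B := h G B hB
    rw [h1, sub_self, zero_sub, dvd_neg] at hd
    exact hr hd
  · intro h
    refine hY.eq hq a n₀ r fun ε hε x₀ => ?_
    exact ⟨x₀, le_rfl, fun G _ B hB hn _ hd => absurd hd (h G B hB hn)⟩

/-- **all residue classes at all scales** -/
theorem ClW.all (hY : ClW p red Y) {q : ℕ} (hq : q.Prime) (a n₀ : ℕ)
    (h : ¬ AllW p red Y (fun _ a b => a = b)) : ∃ δ : ℝ, 0 < δ ∧ ∃ x₀ : ℝ,
      (∀ x : ℝ, x₀ ≤ x → ∀ r : ℤ, ∃ (G : Type) (i : Group G) (B : (G → F) → F), Y G i B ∧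
        n₀ ≤ Nat.card G ∧ (Nat.card G : ℝ) ≤ x ∧
        (q : ℤ) ^ a ∣ ((numIrrBlock B : ℤ) - numWt p red B) - r ∧
        x ^ δ * numWt p red B ≤ numIrrBlock B ∧ x ^ δ ≤ (numIrrBlock B : ℝ) - numWt p red B) ∨
      (∀ x : ℝ, x₀ ≤ x → ∀ r : ℤ, ∃ (G : Type) (i : Group G) (B : (G → F) → F), Y G i B ∧
        n₀ ≤ Nat.card G ∧ (Nat.card G : ℝ) ≤ x ∧
        (q : ℤ) ^ a ∣ ((numIrrBlock B : ℤ) - numWt p red B) - r ∧
        x ^ δ * numIrrBlock B ≤ numWt p red B ∧ x ^ δ ≤ (numWt p red B : ℝ) - numIrrBlock B) := by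
  have hc := hY.clo
  have h1 : ∃ l w g, Vw p red Y l w g ∧ l ≠ w := by
    by_contra hcon
    push Not at hcon
    refine h fun G _ B hB => ?_
    obtain ⟨f1, f2⟩ := hY.fail hB
    rcases lt_trichotomy (numIrrBlock B) (numWt p red B) with h3 | h3 | h3
    · obtain ⟨l, w, g, h4, h5⟩ := f2 h3
      exact absurd (hcon l w g h4) h5.ne
    · exact h3
    · obtain ⟨l, w, g, h4, h5⟩ := f1 h3
      exact absurd (hcon l w g h4) h5.ne'
  obtain ⟨l, w, g, hV, hne⟩ := h1
  rcases lt_or_gt_of_ne hne with hlt | hlt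
  · obtain ⟨l', w', g', k1, k2⟩ := hc.swap.start n₀ (l := w) (w := l) hV hlt
    obtain ⟨δ, hδ, x₀, -, H⟩ := (hc.swap.large n₀).res hq k1 k2 a
    refine ⟨δ, hδ, x₀, Or.inr fun x hx r => ?_⟩
    obtain ⟨w, l, g, ⟨⟨G, i1, B, hG, -, rfl, rfl, rfl⟩, hn⟩, c2, c3, c4, c5⟩ := H x hx (-r)
    refine ⟨G, i1, B, hG, hn, c3, ?_, c4, c5⟩
    have e : ((numIrrBlock B : ℤ) - numWt p red B) - r =
        -(((numWt p red B : ℤ) - numIrrBlock B) - -r) := by ring
    rw [e]
    exact c2.neg_right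
  · obtain ⟨l', w', g', k1, k2⟩ := hc.start n₀ hV hlt
    obtain ⟨δ, hδ, x₀, -, H⟩ := (hc.large n₀).res hq k1 k2 a
    refine ⟨δ, hδ, x₀, Or.inl fun x hx r => ?_⟩
    obtain ⟨l, w, g, ⟨⟨G, i1, B, hG, -, rfl, rfl, rfl⟩, hn⟩, c2, c3, c4, c5⟩ := H x hx r
    exact ⟨G, i1, B, hG, hn, c3, c2, c4, c5⟩

/-! ### Examples -/

/-- a class of finite groups closed under powers and wreath products -/
structure ClG (X : ∀ (G : Type) [Group G], Prop) : Prop where
  pow : ∀ (n : ℕ), 0 < n → ∀ (G : Type) [Group G] [Finite G], X G → X (Fin n → G)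
  wr : ∀ (C : Type) [Group C] [Fintype C], (Nat.card C).Prime → ∀ (G : Type) [Group G] [Finite G],
    X G → X (RegularWreathProduct G C)

theorem clW_all {X : ∀ (G : Type) [Group G], Prop} (hX : ClG X) :
    ClW p red (fun G _ B => Finite G ∧ X G ∧ IsBlock B) := by
  refine ⟨fun G i B h => h.1, fun G i B h => h.2.2, ?_, ?_⟩
  · rintro C _ _ hC G i B ⟨h1, h2, h3⟩ _ B' h5 h6
    exact ⟨inferInstance, hX.wr C hC G h2, h5⟩
  · rintro n hn G i B ⟨h1, h2, h3⟩ _ B' h5 h6
    exact ⟨inferInstance, hX.pow n hn G h2, h5⟩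

theorem clW_prin {X : ∀ (G : Type) [Group G], Prop} (hX : ClG X) :
    ClW p red (fun G _ B => Finite G ∧ X G ∧ IsBlock B ∧
      ∀ f : G → F, IsClassFun f → B f = prin F G f) := by
  refine ⟨fun G i B h => h.1, fun G i B h => h.2.2.1, ?_, ?_⟩
  · rintro C _ _ hC G i B ⟨h1, h2, h3, h4⟩ hpos B' h5 h6
    refine ⟨inferInstance, hX.wr C hC G h2, h5, fun f hf => ?_⟩
    have h7 : OverW B (prin F (RegularWreathProduct G C)) := fun f hf => by
      rw [over_iff.1 (prin_over (F := F) (G := G) (C := C)) f hf, h4 f hf]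
    by_cases hCp : Nat.card C = p
    · exact overW_unique_p (p := p) red hCp h3 h5 prin_block h6 h7 f hf
    · exact overW_unique (p := p) red hC hCp rfl h3 (hpos.resolve_left hCp) h5 prin_block h6 h7 f hf
  · rintro n hn G i B ⟨h1, h2, h3, h4⟩ hpos B' h5 h6
    refine ⟨inferInstance, hX.pow n hn G h2, h5, fun f hf => ?_⟩
    have : Nonempty (Fin n) := ⟨⟨0, hn⟩⟩
    have h7 : OverP B (prin F (Fin n → G)) := fun f hf => by
      rw [prin_pow, h4 f hf]
    exact overP_unique (p := p) red h3 h5 prin_block h6 h7 f hf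

end Pool.Agent.H378.RS
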