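import Pool.Agent.H378.JW.Ar
import Pool.Agent.H378.RS.Ar

/-!
# The lowest coefficients of the generating functions modulo `p`
-/

set_option autoImplicit false

open Polynomial

noncomputable section

namespace Pool.Agent.H378.RS

open Pool.Agent.H378.JW (RecP RecQ)

section low

variable {R : Type} [CommRing R] {P : R[X]} {m : ℕ}

/-- all coefficients below `m` vanish -/
def LoR (m : ℕ) (P : R[X]) : Prop := ∀ i, i < m → P.coeff i = 0

lemma loR_iff : LoR m P ↔ X ^ m ∣ P := by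
  rw [X_pow_dvd_iff]
  exact Iff.rfl

lemma loR_pow (h : LoR m P) (n : ℕ) : LoR (m * n) (P ^ n) := by
  rw [loR_iff] at h ⊢
  rw [pow_mul]
  exact pow_dvd_pow_of_dvd h n

lemma coeff_pow_loR (h : LoR m P) (n : ℕ) : (P ^ n).coeff (m * n) = P.coeff m ^ n := by
  obtain ⟨Q, rfl⟩ := loR_iff.mp h
  rw [mul_pow, ← pow_mul]
  have h1 := coeff_X_pow_mul (Q ^ n) (m * n) 0
  have h2 := coeff_X_pow_mul Q m 0
  rw [zero_add] at h1 h2
  rw [h1, h2, coeff_zero_eq_eval_zero, coeff_zero_eq_eval_zero, eval_pow]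

lemma loR_expand {n : ℕ} (hn : 0 < n) (h : LoR m P) : LoR (m * n) (expand R n P) := by
  intro i hi
  rw [coeff_expand hn]
  split_ifs with h1
  · apply h
    obtain ⟨k, rfl⟩ := h1
    rw [Nat.mul_div_cancel_left _ hn]
    rw [mul_comm m n] at hi
    exact Nat.lt_of_mul_lt_mul_left hi
  · rfl

lemma exists_low (h : P ≠ 0) : ∃ m, LoR m P ∧ P.coeff m ≠ 0 := by
  classical
  have hex : ∃ m, P.coeff m ≠ 0 := by
    by_contra h1
    push Not at h1
    exact h (Polynomial.ext fun n => by rw [h1, coeff_zero])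
  exact ⟨Nat.find hex, fun i hi => not_not.1 (Nat.find_min hex hi), Nat.find_spec hex⟩

end low

/-- the reduction modulo `p` -/
abbrev rd (p : ℕ) (P : ℤ[X]) : (ZMod p)[X] := P.map (Int.castRingHom (ZMod p))

variable {p : ℕ}

lemma rd_zero_iff [NeZero p] {P : ℤ[X]} : rd p P = 0 ↔ C (p : ℤ) ∣ P := by
  rw [C_dvd_iff_dvd_coeff]
  constructor
  · intro h i
    have h1 := congrArg (fun Q : (ZMod p)[X] => Q.coeff i) h
    simp only [rd, coeff_map, coeff_zero, eq_intCast] at h1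
    exact (ZMod.intCast_zmod_eq_zero_iff_dvd _ _).1 h1
  · intro h
    ext i
    rw [coeff_map, coeff_zero, eq_intCast]
    exact (ZMod.intCast_zmod_eq_zero_iff_dvd _ _).2 (h i)

/-- the valuation step -/
lemma step_gauss (hp : p.Prime) {P P' : ℤ[X]} (h : RecP p P P') {a : ℕ}
    (h1 : C (p : ℤ) ^ (a + 1) ∣ P) (h2 : ¬ C (p : ℤ) ^ (a + 2) ∣ P) :
    C (p : ℤ) ^ a ∣ P' ∧ ¬ C (p : ℤ) ^ (a + 1) ∣ P' := by
  have hp0 : (C (p : ℤ) : ℤ[X]) ≠ 0 := by
    rw [Ne, C_eq_zero]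
    exact_mod_cast hp.ne_zero
  have hCp : (p : ℤ[X]) = C (p : ℤ) := (C_eq_natCast p).symm
  obtain ⟨Q, rfl⟩ := h1
  have hexp : expand ℤ p (C (p : ℤ) ^ (a + 1) * Q) = C (p : ℤ) ^ (a + 1) * expand ℤ p Q := by
    rw [map_mul, map_pow, expand_C]
  obtain ⟨k, hk⟩ : ∃ k, (a + 1) * p = (a + 1) + (k + 1) := by
    refine ⟨(a + 1) * p - (a + 2), ?_⟩
    have := hp.two_le
    have : (a + 1) * 2 ≤ (a + 1) * p := Nat.mul_le_mul_left _ hp.two_le
    omega
  have h5 : P' = C (p : ℤ) ^ a * (C (p : ℤ) * (C (p : ℤ) ^ k * Q ^ p +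
      C (p : ℤ) * X * (expand ℤ p Q - Q)) - expand ℤ p Q) := by
    apply mul_left_cancel₀ hp0
    unfold RecP at h
    rw [hCp, hexp, mul_pow, ← pow_mul, hk] at h
    rw [h]
    ring
  refine ⟨h5 ▸ dvd_mul_right _ _, fun h6 => ?_⟩
  rw [h5, pow_succ] at h6
  have h7 := (mul_dvd_mul_iff_left (pow_ne_zero _ hp0)).1 h6
  have h8 : C (p : ℤ) ∣ expand ℤ p Q := by
    rw [← dvd_sub_right (Dvd.intro _ rfl)]
    exact h7
  have h9 : C (p : ℤ) ∣ Q := by
    rw [C_dvd_iff_dvd_coeff] at h8 ⊢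
    intro i
    have h10 := h8 (i * p)
    rwa [coeff_expand_mul hp.pos] at h10
  refine h2 ?_
  rw [show a + 2 = (a + 1) + 1 by ring, pow_succ]
  exact mul_dvd_mul_left _ h9

/-- A set of polynomials closed under powers and the recursions for all primes. -/
structure CloP (p : ℕ) (V : ℤ[X] → Prop) : Prop where
  pw : ∀ P, V P → ∀ n : ℕ, 0 < n → V (P ^ n)
  wrp : ∀ P, V P → ∃ P', V P' ∧ RecP p P P'
  wrq : ∀ q : ℕ, q.Prime → q ≠ p → ∀ P, V P → ∃ P', V P' ∧ RecQ q P P'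

variable {V : ℤ[X] → Prop}

theorem CloP.unit (h : CloP p V) (hp : p.Prime) {P : ℤ[X]} (hP : V P) (h0 : P ≠ 0) :
    ∃ P', V P' ∧ rd p P' ≠ 0 := by
  have : NeZero p := ⟨hp.ne_zero⟩
  have key : ∀ a : ℕ, ∀ P, V P → C (p : ℤ) ^ a ∣ P → ¬ C (p : ℤ) ^ (a + 1) ∣ P →
      ∃ P', V P' ∧ rd p P' ≠ 0 := by
    intro a
    induction a with
    | zero =>
      intro P hP _ h2
      refine ⟨P, hP, fun h3 => h2 ?_⟩
      rw [zero_add, pow_one]
      exact rd_zero_iff.1 h3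
    | succ a ih =>
      intro P hP h1 h2
      obtain ⟨P', h3, h4⟩ := h.wrp P hP
      obtain ⟨h5, h6⟩ := step_gauss hp h4 h1 h2
      exact ih P' h3 h5 h6
  classical
  have hex : ∃ a, ¬ C (p : ℤ) ^ (a + 1) ∣ P := by
    obtain ⟨m, -, hm⟩ := exists_low h0
    have hfin : FiniteMultiplicity (p : ℤ) (P.coeff m) :=
      Int.finiteMultiplicity_iff.2 ⟨by rw [Int.natAbs_natCast]; exact hp.ne_one, hm⟩
    obtain ⟨a, ha⟩ := hfin
    refine ⟨a, fun h1 => ha ?_⟩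
    rw [← C_pow, C_dvd_iff_dvd_coeff] at h1
    exact h1 m
  refine key (Nat.find hex) P hP ?_ (Nat.find_spec hex)
  rcases Nat.eq_zero_or_pos (Nat.find hex) with h1 | h1
  · rw [h1, pow_zero]
    exact one_dvd _
  · have h2 := Nat.find_min hex (Nat.sub_lt h1 Nat.one_pos)
    rw [not_not, Nat.sub_add_cancel h1] at h2
    exact h2

/-- **all residues modulo `p`**, in degrees divisible by `M` -/
theorem CloP.res (h : CloP p V) (hp : p.Prime) {P : ℤ[X]} (hP : V P) (h0 : P ≠ 0) {M : ℕ}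
    (hM : 0 < M) {r : ℤ} (hr : ¬ (p : ℤ) ∣ r) :
    ∃ P', V P' ∧ ∃ d, M ∣ d ∧ (p : ℤ) ∣ P'.coeff d - r := by
  have : NeZero p := ⟨hp.ne_zero⟩
  have hpF : Fact p.Prime := ⟨hp⟩
  obtain ⟨P, hP, h1⟩ := h.unit hp hP h0
  obtain ⟨m, h2, h3⟩ := exists_low h1
  -- a prime number in the class of `r`
  have hru : IsUnit (r : ZMod p) := by
    rw [isUnit_iff_ne_zero]
    exact fun h => hr ((ZMod.intCast_zmod_eq_zero_iff_dvd _ _).1 h)
  obtain ⟨l, hl1, hl2, hl3⟩ := Nat.forall_exists_prime_gt_and_eq_mod hru p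
  have hlp : l ≠ p := hl1.ne'
  have hn : 0 < M * (p - 1) := Nat.mul_pos hM (Nat.sub_pos_of_lt hp.one_lt)
  obtain ⟨P', h4, h5⟩ := h.wrq l hl2 hlp _ (h.pw P hP _ hn)
  refine ⟨P', h4, m * (M * (p - 1)) * l, ?_, ?_⟩
  · exact ⟨m * (p - 1) * l, by ring⟩
  · have h6 : LoR (m * (M * (p - 1))) (rd p (P ^ (M * (p - 1)))) := by
      rw [rd, Polynomial.map_pow]
      exact loR_pow h2 _
    have h7 : (rd p (P ^ (M * (p - 1)))).coeff (m * (M * (p - 1))) = 1 := by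
      rw [rd, Polynomial.map_pow, coeff_pow_loR h2, mul_comm M, pow_mul,
        ZMod.pow_card_sub_one_eq_one h3, one_pow]
    have h8 := congrArg (fun Q : ℤ[X] => (rd p Q).coeff (m * (M * (p - 1)) * l)) h5
    have hge : 1 ≤ l ^ 2 := Nat.one_le_pow _ _ hl2.pos
    simp only [rd, Polynomial.map_mul, Polynomial.map_add, Polynomial.map_natCast, coeff_add,
      Polynomial.map_expand] at h8
    rw [Polynomial.map_pow (Int.castRingHom (ZMod p)) l, ← C_eq_natCast, coeff_C_mul,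
      ← C_eq_natCast, coeff_C_mul, coeff_pow_loR h6, h7, coeff_expand_mul hl2.pos, h7,
      coeff_map] at h8
    push_cast [Nat.cast_sub hge] at h8
    rw [one_pow, mul_one, add_sub_cancel, sq] at h8
    have hlu : IsUnit ((l : ℕ) : ZMod p) := by
      rw [hl3]
      exact hru
    have h9 := hlu.mul_left_cancel h8
    rw [hl3] at h9
    exact (ZMod.intCast_eq_intCast_iff_dvd_sub _ _ _).1 (by simpa using h9.symm)

end Pool.Agent.H378.RS
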