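import Pool.Agent.H378.JW.Fin
import Pool.Agent.H378.RS.Pol

/-!
# Classes of blocks closed under powers and wreath products with groups of prime order
-/

set_option autoImplicit false
set_option linter.unusedSectionVars false

open scoped BigOperators Classical

noncomputable section

namespace Pool.Agent.H378.RS

open Polynomial
open Pool.Agent.Y63.NV
open Pool.Agent.Y63.AWC (IsIrreducibleCharacter mult St Orb)
open Pool.Agent.Y63.KR (conjSub chainStabilizer alternatingSum IsPChain)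
open Pool.Agent.Q90.WR (apoly apoly_sum anum apoly_congr apoly_coeff anum_card dfn dfn_eq coeff_sum_X
  deg_pos fac_le Ch conjEquiv card_mul_alternatingSum' wsumS)
open Pool.Agent.Helper884.IC (Irr mem_Irr IsIrrChar)
open Pool.Agent.E8helper60.AW
open Pool.Agent.E8helper60.DD
open Pool.Agent.E8helper46.AW (exists_char)
open Pool.Agent.H378.JW (exists_overW_p Pz_wr_p pos_wr_p noP_wr_p RecP RecQ Lo recQ_low lo_pow
  coeff_pow_lo)

variable {F : Type} [Field F] {p : ℕ} (red : integralClosure ℤ ℂ →+* F)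

/-- the number of the characters of `H` over `B` -/
def kA {G : Type} [Group G] (B : (G → F) → F) (H : Subgroup G) : ℕ :=
  Nat.card {θ : H → ℂ // θ ∈ IndB red B (Subtype.val : H → G)}

theorem kA_sum {G : Type} [Group G] [Finite G] (B : (G → F) → F) (H : Subgroup G) :
    kA red B H = ∑ d ∈ Finset.range ((Nat.card G).factorization p + 1),
      anum p d (IndB red B (Subtype.val : H → G)) := by
  have : Fintype G := Fintype.ofFinite G
  have : Fintype H := Fintype.ofFinite H
  have hA : ∀ θ ∈ IndB red B (Subtype.val : H → G), IsIrrChar θ := fun θ h => h.1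
  have h1 : kA red B H = ((Irr H).filter (· ∈ IndB red B (Subtype.val : H → G))).card :=
    Nat.subtype_card _ fun χ => by
      rw [Finset.mem_filter, mem_Irr]
      exact ⟨fun h => h.2, fun h => ⟨hA χ h, h⟩⟩
  have hle : (Nat.card H).factorization p ≤ (Nat.card G).factorization p :=
    (Nat.factorization_le_iff_dvd Nat.card_pos.ne' Nat.card_pos.ne').2
      (Subgroup.card_subgroup_dvd_card H) p
  rw [h1, Finset.card_eq_sum_card_fiberwise (f := dfn p)
    (t := Finset.range ((Nat.card G).factorization p + 1))]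
  · refine Finset.sum_congr rfl fun d _ => ?_
    rw [anum_card hA, Finset.filter_filter]
  · intro χ hχ
    rw [Finset.mem_coe, Finset.mem_filter, mem_Irr] at hχ
    obtain ⟨n, -, hn⟩ := deg_pos hχ.1
    rw [dfn_eq p hn, Finset.mem_coe, Finset.mem_range]
    omega

/-- the alternating sum of the numbers of all characters -/
theorem alt_eq {G : Type} [Group G] [Finite G] (B : (G → F) → F) :
    alternatingSum p G (fun H => (kA red B H : ℤ)) = (Pz p red B).eval 1 := by
  have : Fintype (Quotient (Pool.Agent.Y63.KR.chainSetoid p G)) := Fintype.ofFinite _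
  unfold Pz
  rw [eval_finsetSum]
  simp only [eval_mul, eval_C, eval_pow, eval_X, one_pow, mul_one]
  unfold Sd alternatingSum
  simp only [finsum_eq_sum_of_fintype]
  rw [Finset.sum_comm]
  refine Finset.sum_congr rfl fun c _ => ?_
  rw [kA_sum (p := p)]
  push_cast
  rw [Finset.mul_sum]

/-- Classes of pairs closed under powers and under wreath products with groups of prime order `q`,
for `q ≠ p` and, if `E` holds, also for `q = p`. -/
structure ClA (p : ℕ) (red : integralClosure ℤ ℂ →+* F) (E : Prop)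
    (X : (G : Type) → Group G → ((G → F) → F) → Prop) : Prop where
  fin : ∀ (G : Type) [i : Group G] (B : (G → F) → F), X G i B → Finite G
  blk : ∀ (G : Type) [i : Group G] (B : (G → F) → F), X G i B → IsBlock B
  pos : ∀ (G : Type) [i : Group G] (B : (G → F) → F), X G i B → Pos p red B
  wr : ∀ (C : Type) [Group C] [Fintype C], (Nat.card C).Prime → (Nat.card C = p → E) →
    ∀ (G : Type) [i : Group G] (B : (G → F) → F), X G i B →
      ∀ B' : (RegularWreathProduct G C → F) → F, IsBlock B' → OverW B B' →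
        X (RegularWreathProduct G C) inferInstance B'
  pw : ∀ (n : ℕ), 0 < n → ∀ (G : Type) [i : Group G] (B : (G → F) → F), X G i B →
      ∀ B' : ((Fin n → G) → F) → F, IsBlock B' → OverP B B' → X (Fin n → G) inferInstance B'

variable {red}

theorem exists_cyc {q : ℕ} (hq : q.Prime) :
    ∃ (C : Type) (_ : Group C) (_ : Fintype C), Nat.card C = q := by
  have : NeZero q := ⟨hq.ne_zero⟩
  exact ⟨Multiplicative (ZMod q), inferInstance, inferInstance, by
    rw [Nat.card_eq_fintype_card, Fintype.card_multiplicative, ZMod.card]⟩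

variable [IsAlgClosed F] [hp : Fact p.Prime] [CharP F p] {E : Prop}
  {X : (G : Type) → Group G → ((G → F) → F) → Prop}

/-- the recursion for powers -/
theorem ClA.stepP (h : ClA p red E X) {n : ℕ} (hn : 0 < n) {G : Type} [i : Group G]
    {B : (G → F) → F} (hX : X G i B) : ∃ (G' : Type) (i' : Group G') (B' : (G' → F) → F),
      X G' i' B' ∧ Nat.card G' = Nat.card G ^ n ∧ Pz p red B' = Pz p red B ^ n := by
  have hf := h.fin G B hX
  have hB := h.blk G B hX
  obtain ⟨χ, h1, h2⟩ := exists_char (p := p) red hB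
  obtain ⟨-, h3, h4⟩ := exists_overP red (ι := Fin n) h1 h2
  refine ⟨Fin n → G, inferInstance, _, h.pw n hn G B hX _ h3 h4, ?_, ?_⟩
  · rw [Nat.card_fun, Nat.card_fin]
  · have h5 := Pz_pow (p := p) red hB h3 h4
    rwa [Fintype.card_fin] at h5

/-- the recursion for `q ≠ p` -/
theorem ClA.stepQ (h : ClA p red E X) {q : ℕ} (hq : q.Prime) (hqp : q ≠ p) {G : Type}
    [i : Group G] {B : (G → F) → F} (hX : X G i B) :
    ∃ (G' : Type) (i' : Group G') (B' : (G' → F) → F), X G' i' B' ∧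
      Nat.card G' = Nat.card G ^ q * q ∧ RecQ q (Pz p red B) (Pz p red B') := by
  have hf := h.fin G B hX
  have hB := h.blk G B hX
  have hpos := h.pos G B hX
  obtain ⟨C, _, _, hC⟩ := exists_cyc hq
  obtain ⟨χ, h1, h2⟩ := exists_char (p := p) red hB
  obtain ⟨χ', -, h3, h4, -⟩ := exists_overW (p := p) red (C := C) hq hqp hC h1 h2
  refine ⟨RegularWreathProduct G C, inferInstance, _, h.wr C (by rwa [hC])
    (fun h => (hqp (hC ▸ h)).elim) G B hX _ h3 h4, ?_, Pz_wr (p := p) red hq hqp hC hB hpos h3 h4⟩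
  rw [RegularWreathProduct.card, hC]

/-- the recursion for `p` -/
theorem ClA.stepW (h : ClA p red E X) (hE : E) {G : Type}
    [i : Group G] {B : (G → F) → F} (hX : X G i B) :
    ∃ (G' : Type) (i' : Group G') (B' : (G' → F) → F), X G' i' B' ∧
      Nat.card G' = Nat.card G ^ p * p ∧ RecP p (Pz p red B) (Pz p red B') := by
  have hf := h.fin G B hX
  have hB := h.blk G B hX
  obtain ⟨C, _, _, hC⟩ := exists_cyc hp.out
  obtain ⟨χ, h1, h2⟩ := exists_char (p := p) red hB
  obtain ⟨χ', -, h3, h4, -⟩ := exists_overW_p (p := p) red (C := C) hC h1 h2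
  refine ⟨RegularWreathProduct G C, inferInstance, _, h.wr C (by rw [hC]; exact hp.out)
    (fun _ => hE) G B hX _ h3 h4, ?_, Pz_wr_p (p := p) red hC hB h3 h4⟩
  rw [RegularWreathProduct.card, hC]

/-- the alternating sums -/
def VA (p : ℕ) (red : integralClosure ℤ ℂ →+* F)
    (X : (G : Type) → Group G → ((G → F) → F) → Prop) (s : ℤ) (g : ℕ) : Prop :=
  ∃ (G : Type) (i : Group G) (B : (G → F) → F), X G i B ∧ Nat.card G = g ∧
    s = (Pz p red B).eval 1

theorem eval_recQ {q : ℕ} (hq : q.Prime) {P P' : ℤ[X]} (h : RecQ q P P') :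
    (q : ℤ) * P'.eval 1 = P.eval 1 ^ q + ((q : ℤ) ^ 2 - 1) * P.eval 1 := by
  have h1 := congrArg (Polynomial.eval 1) h
  have hge : 1 ≤ q ^ 2 := Nat.one_le_pow _ _ hq.pos
  simp only [eval_mul, eval_natCast, eval_add, eval_pow, expand_eval, one_pow] at h1
  rw [h1]
  push_cast [Nat.cast_sub hge]
  ring

theorem eval_recP {P P' : ℤ[X]} (h : RecP p P P') :
    (p : ℤ) * P'.eval 1 = P.eval 1 ^ p + (-1) * P.eval 1 := by
  have h1 := congrArg (Polynomial.eval 1) h
  simp only [eval_mul, eval_natCast, eval_add, eval_sub, eval_pow, expand_eval, one_pow, eval_X,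
    eval_one] at h1
  rw [h1]
  ring

theorem ClA.clo (h : ClA p red True X) : Clo p True (VA p red X) := by
  refine ⟨?_, ?_, ?_⟩
  · rintro s g ⟨G, i, B, hX, rfl, rfl⟩
    have hf := h.fin G B hX
    exact Nat.card_pos
  · rintro s g ⟨G, i, B, hX, rfl, rfl⟩ n hn
    obtain ⟨G', i', B', h1, h2, h3⟩ := h.stepP hn hX
    exact ⟨G', i', B', h1, h2, by rw [h3, eval_pow]⟩
  · rintro q hq - s g ⟨G, i, B, hX, rfl, rfl⟩
    by_cases hqp : q = p
    · subst hqp
      obtain ⟨G', i', B', h1, h2, h3⟩ := h.stepW trivial hX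
      refine ⟨_, ⟨G', i', B', h1, h2, rfl⟩, ?_⟩
      rw [cc, if_pos rfl]
      exact eval_recP h3
    · obtain ⟨G', i', B', h1, h2, h3⟩ := h.stepQ hq hqp hX
      refine ⟨_, ⟨G', i', B', h1, h2, rfl⟩, ?_⟩
      rw [cc, if_neg hqp]
      exact eval_recQ hq h3

/-- **alternating sums in one residue class** -/
theorem ClA.bound (h : ClA p red True X) {q : ℕ} (hq : q.Prime) (a : ℕ) (r : ℤ)
    (hb : ∀ ε : ℝ, 0 < ε → ∃ c : ℝ, ∀ (G : Type) [i : Group G] (B : (G → F) → F), X G i B →
      (q : ℤ) ^ a ∣ alternatingSum p G (fun H => (kA red B H : ℤ)) - r →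
        (alternatingSum p G (fun H => (kA red B H : ℤ)) : ℝ) ≤ c * (Nat.card G : ℝ) ^ ε)
    (G : Type) [i : Group G] (B : (G → F) → F) (hX : X G i B) :
    alternatingSum p G (fun H => (kA red B H : ℤ)) = 0 := by
  have hf := h.fin G B hX
  refine h.clo.bound hq (fun _ => trivial) a r ?_ ⟨G, i, B, hX, rfl, alt_eq red B⟩
  intro ε hε
  obtain ⟨c, hc⟩ := hb ε hε
  refine ⟨c, ?_⟩
  rintro s g ⟨G, i, B, hX, rfl, rfl⟩ h1
  have hf := h.fin G B hX
  rw [← alt_eq red B] at h1 ⊢
  exact hc G B hX h1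

/-- the lowest coefficients, in degrees divisible by `M` -/
def VL (p : ℕ) (red : integralClosure ℤ ℂ →+* F)
    (X : (G : Type) → Group G → ((G → F) → F) → Prop) (M : ℕ) (s : ℤ) (g : ℕ) : Prop :=
  ∃ (G : Type) (i : Group G) (B : (G → F) → F), X G i B ∧ Nat.card G = g ∧
    ∃ m, M ∣ m ∧ Lo m (Pz p red B) ∧ (Pz p red B).coeff m = s

theorem ClA.cloL (h : ClA p red E X) (M : ℕ) : Clo p False (VL p red X M) := by
  refine ⟨?_, ?_, ?_⟩
  · rintro s g ⟨G, i, B, hX, rfl, -⟩
    have hf := h.fin G B hX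
    exact Nat.card_pos
  · rintro s g ⟨G, i, B, hX, rfl, m, hm, hlo, rfl⟩ n hn
    obtain ⟨G', i', B', h1, h2, h3⟩ := h.stepP hn hX
    refine ⟨G', i', B', h1, h2, m * n, hm.mul_right _, ?_, ?_⟩
    · rw [h3]
      exact lo_pow hlo n
    · rw [h3]
      exact coeff_pow_lo hlo n
  · rintro q hq hE s g ⟨G, i, B, hX, rfl, m, hm, hlo, rfl⟩
    have hqp : q ≠ p := hE
    obtain ⟨G', i', B', h1, h2, h3⟩ := h.stepQ hq hqp hX
    obtain ⟨h4, h5⟩ := recQ_low hq h3 hlo
    refine ⟨_, ⟨G', i', B', h1, h2, m * q, hm.mul_right _, h4, rfl⟩, ?_⟩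
    rw [cc, if_neg hqp]
    exact h5

/-- **Dade's sums in one residue class modulo a power of `q ≠ p`** -/
theorem ClA.boundL (h : ClA p red E X) {M : ℕ} (hM : 0 < M) {q : ℕ} (hq : q.Prime) (hqp : q ≠ p)
    (a : ℕ) (r : ℤ) (hb : ∀ ε : ℝ, 0 < ε → ∃ c : ℝ, ∀ (G : Type) [i : Group G]
      (B : (G → F) → F), X G i B → ∀ d, M ∣ d → (q : ℤ) ^ a ∣ Sd p red B d - r →
        (Sd p red B d : ℝ) ≤ c * (Nat.card G : ℝ) ^ ε)
    (G : Type) [i : Group G] (B : (G → F) → F) (hX : X G i B) (d : ℕ) : Sd p red B d = 0 := by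
  have hf := h.fin G B hX
  have h0 : Pz p red B = 0 := by
    by_contra h0
    obtain ⟨m, h1, h2⟩ := exists_low h0
    obtain ⟨G', i', B', h3, h4, h5⟩ := h.stepP hM hX
    have h6 := (h.cloL M).bound hq (fun h => (hqp h)) a r ?_ (s := (Pz p red B).coeff m ^ M)
      (g := Nat.card G') ⟨G', i', B', h3, rfl, m * M, Dvd.intro_left _ rfl, by
        rw [h5]
        exact lo_pow h1 M, by
        rw [h5]
        exact coeff_pow_lo h1 M⟩
    · exact h2 ((pow_eq_zero_iff hM.ne').1 h6)
    · intro ε hε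
      obtain ⟨c, hc⟩ := hb ε hε
      refine ⟨c, ?_⟩
      rintro s g ⟨G, i, B, hX, rfl, m, hm, hlo, rfl⟩ h1
      have hf := h.fin G B hX
      rw [Pz_coeff] at h1 ⊢
      exact hc G B hX m hm h1
  rw [← Pz_coeff red B d, h0, coeff_zero]

/-- the generating functions -/
def VP (p : ℕ) (red : integralClosure ℤ ℂ →+* F)
    (X : (G : Type) → Group G → ((G → F) → F) → Prop) (P : ℤ[X]) : Prop :=
  ∃ (G : Type) (i : Group G) (B : (G → F) → F), X G i B ∧ P = Pz p red B

theorem ClA.cloP (h : ClA p red True X) : CloP p (VP p red X) := by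
  refine ⟨?_, ?_, ?_⟩
  · rintro _ ⟨G, i, B, hX, rfl⟩ n hn
    obtain ⟨G', i', B', h1, h2, h3⟩ := h.stepP hn hX
    exact ⟨G', i', B', h1, h3.symm⟩
  · rintro _ ⟨G, i, B, hX, rfl⟩
    obtain ⟨G', i', B', h1, h2, h3⟩ := h.stepW trivial hX
    exact ⟨_, ⟨G', i', B', h1, rfl⟩, h3⟩
  · rintro q hq hqp _ ⟨G, i, B, hX, rfl⟩
    obtain ⟨G', i', B', h1, h2, h3⟩ := h.stepQ hq hqp hX
    exact ⟨_, ⟨G', i', B', h1, rfl⟩, h3⟩

/-- **Dade's sums in one residue class modulo `p`** -/
theorem ClA.resP (h : ClA p red True X) {M : ℕ} (hM : 0 < M) {r : ℤ} (hr : ¬ (p : ℤ) ∣ r)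
    (hb : ∀ (G : Type) [i : Group G] (B : (G → F) → F), X G i B → ∀ d, M ∣ d →
      ¬ (p : ℤ) ∣ Sd p red B d - r)
    (G : Type) [i : Group G] (B : (G → F) → F) (hX : X G i B) (d : ℕ) : Sd p red B d = 0 := by
  have hf := h.fin G B hX
  have h0 : Pz p red B = 0 := by
    by_contra h0
    obtain ⟨_, ⟨G', i', B', h1, rfl⟩, d, h2, h3⟩ := h.cloP.res hp.out ⟨G, i, B, hX, rfl⟩ h0 hM hr
    have hf' := h.fin G' B' h1
    rw [Pz_coeff] at h3
    exact hb G' B' h1 d h2 h3
  rw [← Pz_coeff red B d, h0, coeff_zero]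

/-- all groups without nontrivial normal `p`-subgroups -/
theorem clA_all : ClA p red True
      (fun G _ B => Finite G ∧ NoP p G ∧ IsBlock B ∧ Pos p red B) := by
  refine ⟨fun G i B h => h.1, fun G i B h => h.2.2.1, fun G i B h => h.2.2.2, ?_, ?_⟩
  · intro C _ _ hC _
    by_cases hCp : Nat.card C = p
    · exact (Pool.Agent.H378.JW.clP_all hCp).wr
    · exact (cls_all hC hCp rfl).wr
  · rintro n hn G i B ⟨h1, h2, h3, h4⟩ B' h5 h6
    have : Nonempty (Fin n) := ⟨⟨0, hn⟩⟩
    exact ⟨inferInstance, noP_pow h2, h5, pos_pow red h3 h4 h6⟩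

end Pool.Agent.H378.RS
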