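import Pool.Agent.H378.RS.One
import Pool.Agent.H378.RS.Am
import Pool.Graph.R_pool_sql_team_seeded_3997aac3.Q111.OS.PBK

/-!
# Brauer's `k(B)` conjecture: one residue class decides
-/

set_option autoImplicit false

open scoped Classical

noncomputable section

namespace Pool.Agent.H378.RS

open Pool.Agent.H254R3.IN hiding NN
open Pool.Agent.Q17.WR Pool.Agent.Q17.AM Pool.Agent.Q17.RB
open Pool.Agent.Q17.DC
open Pool.Agent.Q111.OS
open Pool.Agent.Q17.FN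
open Pool.Agent.Q166.AM (inv_mem_of_not_nonunits nonunits_mul)

/-- the number of characters in a block of the class, the `α`-th power of the order of the defect
group and the order of the group -/
def Vk (p : ℕ) (O : ValuationSubring ℂ)
    (C : ∀ (G : Type) [Group G], Set (G → ℂ) → Subgroup G → Prop) (α : ℝ) (x : ℕ) (y : ℝ)
    (g : ℕ) : Prop :=
  ∃ (G : Type) (_ : Group G) (_ : Fintype G) (D : Subgroup G) (B : Set (G → ℂ)),
    IsBlock O B ∧ IsDefectGroup p O B D ∧ C G B D ∧ D ≠ ⊥ ∧ B.ncard = x ∧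
      (Nat.card D : ℝ) ^ α = y ∧ Nat.card G = g

lemma ncard_TB {G₁ G₂ : Type} [Group G₁] [Group G₂] [Fintype G₁] [Fintype G₂]
    {O : ValuationSubring ℂ} {B₁ : Set (G₁ → ℂ)} {B₂ : Set (G₂ → ℂ)} (h1 : IsBlock O B₁)
    (h2 : IsBlock O B₂) : (TB B₁ B₂).ncard = B₁.ncard * B₂.ncard := by
  have h3 : TB B₁ B₂ =
      (fun q : (G₁ → ℂ) × (G₂ → ℂ) => fun x : G₁ × G₂ => q.1 x.1 * q.2 x.2) '' (B₁ ×ˢ B₂) := by
    ext χ
    constructor
    · rintro ⟨χ₁, h1, χ₂, h2, rfl⟩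
      exact ⟨(χ₁, χ₂), ⟨h1, h2⟩, rfl⟩
    · rintro ⟨⟨χ₁, χ₂⟩, ⟨h1, h2⟩, rfl⟩
      exact ⟨χ₁, h1, χ₂, h2, rfl⟩
  rw [h3, Set.InjOn.ncard_image, Set.ncard_prod]
  rintro ⟨a, b⟩ ⟨ha, hb⟩ ⟨a', b'⟩ ⟨ha', hb'⟩ h
  have h4 := Pool.Agent.Q111.OS.tp_inj (h1.irr a ha) (h1.irr a' ha') (h2.irr b hb)
    (h2.irr b' hb') h
  exact Prod.ext h4.1 h4.2

/-- a block which contains a character of defect zero has only this character -/
lemma single_of_not_pos {G : Type} [Group G] [Fintype G] {O : ValuationSubring ℂ}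
    {B : Set (G → ℂ)} (hB : IsBlock O B) {θ : G → ℂ} (hθ : θ ∈ B)
    (hu : (Nat.card G : ℂ) / θ 1 ∉ O.nonunits) : ∀ χ ∈ B, χ = θ := by
  have hθi : IsIrr θ := hB.irr θ hθ
  have hG : (Nat.card G : ℂ) ≠ 0 := cardG_ne G
  have hv : ((Nat.card G : ℂ) / θ 1)⁻¹ ∈ O := inv_mem_of_not_nonunits hu
  rw [inv_div] at hv
  let E : G → ℂ := fun g => θ 1 / (Nat.card G : ℂ) * θ g⁻¹
  have hEcl : IsCl E := by
    intro g y
    have e : (y * g * y⁻¹)⁻¹ = y * g⁻¹ * y⁻¹ := by group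
    simp only [E]
    rw [e, hθi.conj]
  have hEO : ∀ g, E g ∈ O := fun g => O.mul_mem _ _ hv (hθi.val_mem O _)
  have hOm : ∀ χ : G → ℂ, IsIrr χ → Om E χ = if χ = θ then 1 else 0 := by
    intro χ hχ
    unfold Om
    have h1 : ∑ g, E g * χ g = θ 1 / (Nat.card G : ℂ) * ∑ g, χ g * θ g⁻¹ := by
      rw [Finset.mul_sum]
      exact Finset.sum_congr rfl fun g _ => by simp only [E]; ring
    rw [h1, orth_sum hχ hθi]
    split_ifs with h
    · subst h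
      field_simp [hχ.one_ne]
    · simp
  intro χ hχ
  by_contra hc
  have h1 := (red_Om (O := O) (hB.irr χ hχ) hEcl hEO).2
  have h2 := (red_Om (O := O) hθi hEcl hEO).2
  have h3 : red O (Om E χ) = red O (Om E θ) := by
    rw [h1, h2]
    exact Finset.sum_congr rfl fun K _ => by rw [hB.red_eq hχ hθ]
  rw [hOm χ (hB.irr χ hχ), hOm θ hθi, if_neg hc, if_pos rfl, red_zero, red_one] at h3
  exact zero_ne_one h3

/-- the blocks with trivial defect group -/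
theorem ncard_bot {p : ℕ} [hp : Fact p.Prime] {G : Type} [Group G] [Fintype G]
    {O : ValuationSubring ℂ} (hO : (p : ℂ) ∈ O.nonunits) {B : Set (G → ℂ)} (hB : IsBlock O B)
    (hD : IsDefectGroup p O B ⊥) : B.ncard ≤ 1 := by
  rcases B.eq_empty_or_nonempty with h0 | ⟨θ, hθ⟩
  · rw [h0, Set.ncard_empty]
    exact Nat.zero_le _
  have hθi : IsIrr θ := hB.irr θ hθ
  obtain ⟨x, ⟨P, hP⟩, hom, -⟩ := hD
  have hpc : ¬ p ∣ Nat.card (Subgroup.centralizer ({x} : Set G)) := by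
    intro hd
    have h1 : (P : Subgroup (Subgroup.centralizer ({x} : Set G))) = ⊥ := by
      rw [eq_comm, Subgroup.map_eq_bot_iff_of_injective _ Subtype.val_injective] at hP
      exact hP
    have h2 := P.card_eq_multiplicity
    rw [h1, Subgroup.card_bot] at h2
    have h3 : 0 < (Nat.card (Subgroup.centralizer ({x} : Set G))).factorization p :=
      hp.out.factorization_pos_of_dvd Nat.card_pos.ne' hd
    have h4 := Nat.one_lt_pow h3.ne' hp.out.one_lt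
    omega
  have hinv : ((Nat.card (Subgroup.centralizer ({x} : Set G)) : ℕ) : ℂ)⁻¹ ∈ O :=
    nat_inv_mem hO hpc
  have hu : (Nat.card G : ℂ) / θ 1 ∉ O.nonunits := by
    intro h1
    apply hom θ hθ
    have h2 : omega θ x = (((Nat.card (Subgroup.centralizer ({x} : Set G)) : ℕ) : ℂ)⁻¹ * θ x) *
        ((Nat.card G : ℂ) / θ 1) := by
      have hval := hθi.val_eq x
      have hc0 : ((Nat.card (Subgroup.centralizer ({x} : Set G)) : ℕ) : ℂ) ≠ 0 := by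
        exact_mod_cast Nat.card_pos.ne'
      have hG : (Nat.card G : ℂ) ≠ 0 := cardG_ne G
      have h10 := hθi.one_ne
      rw [hval]
      field_simp
    rw [h2]
    exact nonunits_mul (O.mul_mem _ _ hinv (hθi.val_mem O _)) h1
  have h5 := single_of_not_pos hB hθ hu
  have h6 : B ⊆ {θ} := fun χ hχ => h5 χ hχ
  calc B.ncard ≤ ({θ} : Set (G → ℂ)).ncard := Set.ncard_le_ncard h6
    _ = 1 := Set.ncard_singleton θ

variable {p : ℕ} [hp : Fact p.Prime] {O : ValuationSubring ℂ}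
  {C : ∀ (G : Type) [Group G], Set (G → ℂ) → Subgroup G → Prop} {α : ℝ}

theorem vk_mul (hC : ClB p O C) {l g l' g' : ℕ} {w w' : ℝ}
    (h : Vk p O C α l w g) (h' : Vk p O C α l' w' g') :
    Vk p O C α (l * l') (w * w') (g * g') := by
  obtain ⟨G₁, i1, i2, D₁, B₁, h1, h1', h2, h3, rfl, rfl, rfl⟩ := h
  obtain ⟨G₂, i3, i4, D₂, B₂, h4, h4', h5, h6, rfl, rfl, rfl⟩ := h'
  refine ⟨G₁ × G₂, inferInstance, inferInstance, D₁.prod D₂, TB B₁ B₂,
    Pool.Agent.Q111.OS.block_TB h1 h4, Pool.Agent.Q111.OS.defect_TB h1 h4 h1' h4',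
    hC.prd _ _ _ _ _ _ h2 h5, ?_, ncard_TB h1 h4, ?_, Nat.card_prod _ _⟩
  swap
  · rw [Pool.Agent.Q111.OS.card_prod_sub D₁ D₂, Nat.cast_mul,
      Real.mul_rpow (Nat.cast_nonneg _) (Nat.cast_nonneg _)]
  intro h
  refine h3 ((Subgroup.eq_bot_iff_forall D₁).mpr fun g hg => ?_)
  have h7 : ((g, 1) : G₁ × G₂) ∈ D₁.prod D₂ := Subgroup.mem_prod.mpr ⟨hg, D₂.one_mem⟩
  rw [h, Subgroup.mem_bot] at h7
  exact congrArg Prod.fst h7

theorem clo1_kb (hO : (p : ℂ) ∈ O.nonunits) (hC : ClB p O C) (α : ℝ) :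
    Clo1 p (Vk p O C α) := by
  refine ⟨?_, ?_, ?_⟩
  · rintro l w g ⟨G, i1, i2, D, B, -, -, -, h3, -, rfl, rfl⟩
    have h4 : 1 < Nat.card D := (Subgroup.one_lt_card_iff_ne_bot D).2 h3
    exact ⟨lt_of_lt_of_le h4 (Nat.card_le_card_of_injective _ Subtype.val_injective),
      Real.rpow_pos_of_pos (by exact_mod_cast Nat.card_pos) _⟩
  · intro l w g hV n hn
    induction n, hn using Nat.le_induction with
    | base => simpa using hV
    | succ n hn ih =>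
      rw [pow_succ, pow_succ, pow_succ]
      exact vk_mul hC ih hV
  · rintro q hq hqp l w g ⟨G, i1, i2, D, B, h1, h1', h2, h3, rfl, rfl, rfl⟩
    have hqF : Fact q.Prime := ⟨hq⟩
    have hN : NeZero q := ⟨hq.ne_zero⟩
    have hpos : Pos O B := p_pos G p O hO B h1 D h1' h3
    obtain ⟨h4, -, h5⟩ := p_blk G p q hqp.symm O hO B h1 hpos
    have hfin : Finite (Wc G q) := Finite.of_equiv _ SemidirectProduct.equivProd.symm
    have hF : Fintype (Wc G q) := Fintype.ofFinite _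
    have hq1 : 1 ≤ q ^ 2 := Nat.one_le_pow _ _ hq.pos
    have N1 := p_num G q B (fun χ hχ => h1.irr χ hχ) 1 (fun χ => Iff.rfl)
    have hone : ∀ ζ : ℂ, ζ ^ q = 1 → (1 : ℂ ≃+* ℂ) ζ = ζ := fun ζ _ => rfl
    rw [one_pow, fxd_one, fxd_one, if_pos hone] at N1
    refine ⟨_, ⟨Wc G q, inferInstance, hF, Dw q D, LX (r := q) B, h4, h5 D h1',
      hC.wr q hqp G B D h1 h1' h3 h2, dw_ne h3, rfl, ?_, ?_⟩, ?_⟩
    · rw [dw_eq, Nat.card_congr (eDa D).toEquiv, Nat.card_fun,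
        Nat.card_congr (Multiplicative.toAdd : Cy q ≃ ZMod q), Nat.card_zmod, Nat.cast_pow,
        ← Real.rpow_natCast, ← Real.rpow_mul (Nat.cast_nonneg _), mul_comm,
        Real.rpow_mul (Nat.cast_nonneg _), Real.rpow_natCast]
    · rw [Nat.card_congr (SemidirectProduct.equivProd (φ := mulAutArrow
        (G := Cy q) (A := Cy q) (M := G))), Nat.card_prod, Nat.card_fun,
        Nat.card_congr (Multiplicative.toAdd : Cy q ≃ ZMod q), Nat.card_zmod]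
    · rw [co, if_neg hqp]
      have h7 : ((q * (LX (r := q) B).ncard : ℕ) : ℤ) =
          ((B.ncard ^ q + (q ^ 2 - 1) * B.ncard : ℕ) : ℤ) := by
        push_cast [Nat.cast_sub hq1]
        rw [N1]
        ring
      exact_mod_cast h7

/-- all blocks of the class -/
def AllK (p : ℕ) (O : ValuationSubring ℂ)
    (C : ∀ (G : Type) [Group G], Set (G → ℂ) → Subgroup G → Prop) (P : ℕ → ℕ → ℕ → Prop) : Prop :=
  ∀ (G : Type) [Group G] [Fintype G] (D : Subgroup G) (B : Set (G → ℂ)),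
    IsBlock O B → IsDefectGroup p O B D → C G B D → P (Nat.card G) B.ncard (Nat.card D)

theorem kb_bot (hO : (p : ℂ) ∈ O.nonunits) {G : Type} [Group G] [Fintype G] {B : Set (G → ℂ)}
    {D : Subgroup G} (hB : IsBlock O B) (hD : IsDefectGroup p O B D) (hbot : D = ⊥) :
    (B.ncard : ℝ) ≤ (Nat.card D : ℝ) ^ α := by
  subst hbot
  rw [Subgroup.card_bot, Nat.cast_one, Real.one_rpow]
  exact_mod_cast ncard_bot hO hB hD

/-- **one residue class decides** -/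
theorem kb_res (hO : (p : ℂ) ∈ O.nonunits) (hC : ClB p O C) {q : ℕ}
    (hq : q.Prime) (hqp : q ≠ p) (a n₀ : ℕ) (r : ℤ) (α : ℝ)
    (h : ∀ ε : ℝ, 0 < ε → ∀ x₀ : ℝ, ∃ x : ℝ, x₀ ≤ x ∧ AllK p O C (fun g k d => n₀ ≤ g →
      (g : ℝ) ≤ x → (q : ℤ) ^ a ∣ (k : ℤ) - r → (k : ℝ) ≤ x ^ ε * (d : ℝ) ^ α)) :
    AllK p O C (fun _ k d => (k : ℝ) ≤ (d : ℝ) ^ α) := by
  have hc := clo1_kb hO hC α
  intro G _ _ D B hB hD hG
  by_cases hbot : D = ⊥
  · exact kb_bot hO hB hD hbot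
  · have hV : Vk p O C α _ _ _ := ⟨G, inferInstance, inferInstance, D, B, hB, hD, hG, hbot, rfl,
      rfl, rfl⟩
    by_contra hlt
    rw [not_le] at hlt
    obtain ⟨l', w', g', k1, k2⟩ := hc.start n₀ hV hlt
    refine absurd ((hc.large n₀).approx hq hqp a r (fun ε hε x₀ => ?_) k1) (not_le.2 k2)
    obtain ⟨x, hx, H⟩ := h ε hε x₀
    refine ⟨x, hx, ?_⟩
    rintro l w g ⟨⟨G, _, _, D, B, hB, hD, hG, -, rfl, rfl, rfl⟩, hn⟩ hg hr
    exact H G D B hB hD hG hn hg hr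

/-- **all residue classes at all scales** -/
theorem kb_all (hO : (p : ℂ) ∈ O.nonunits) (hC : ClB p O C) {q : ℕ}
    (hq : q.Prime) (hqp : q ≠ p) (a n₀ : ℕ) (α : ℝ)
    (h : ¬ AllK p O C (fun _ k d => (k : ℝ) ≤ (d : ℝ) ^ α)) :
    ∃ δ : ℝ, 0 < δ ∧ ∃ x₀ : ℝ, ∀ x : ℝ, x₀ ≤ x → ∀ r : ℤ, ∃ (G : Type) (_ : Group G)
      (_ : Fintype G) (D : Subgroup G) (B : Set (G → ℂ)), IsBlock O B ∧ IsDefectGroup p O B D ∧
        C G B D ∧ n₀ ≤ Nat.card G ∧ (Nat.card G : ℝ) ≤ x ∧ (q : ℤ) ^ a ∣ (B.ncard : ℤ) - r ∧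
        x ^ δ * (Nat.card D : ℝ) ^ α ≤ B.ncard := by
  have hc := clo1_kb hO hC α
  have h1 : ∃ (l : ℕ) (w : ℝ) (g : ℕ), Vk p O C α l w g ∧ w < l := by
    by_contra hcon
    push Not at hcon
    refine h fun G _ _ D B hB hD hG => ?_
    by_cases hbot : D = ⊥
    · exact kb_bot hO hB hD hbot
    · exact hcon _ _ _ ⟨G, inferInstance, inferInstance, D, B, hB, hD, hG, hbot, rfl, rfl, rfl⟩
  obtain ⟨l, w, g, hV, hlt⟩ := h1
  obtain ⟨l', w', g', k1, k2⟩ := hc.start n₀ hV hlt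
  obtain ⟨δ, hδ, x₀, -, H⟩ := (hc.large n₀).res hq hqp k1 k2 a
  refine ⟨δ, hδ, x₀, fun x hx r => ?_⟩
  obtain ⟨l, w, g, ⟨⟨G, i1, i2, D, B, hB, hD, hG, -, rfl, rfl, rfl⟩, hn⟩, c2, c3, c4⟩ := H x hx r
  exact ⟨G, i1, i2, D, B, hB, hD, hG, hn, c3, c2, c4⟩

/-- the reduction to Galois-stable blocks -/
theorem kb_red (hO : (p : ℂ) ∈ O.nonunits) {X Y : ∀ (P : Type) [Group P], Prop}
    (hX : Pool.Agent.Q17.AM.Cl X)
    (hY : ∀ (G : Type) [Group G] [Finite G] (A : Type) [CommGroup A] [Finite A], Y G →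
      Y (Wr G A A)) (α : ℝ) :
    AllK p O (fun G _ _ D => (Finite G → Y G) ∧ X D) (fun _ k d => (k : ℝ) ≤ (d : ℝ) ^ α) ↔
      AllK p O (GC X Y) (fun _ k d => (k : ℝ) ≤ (d : ℝ) ^ α) := by
  constructor
  · intro h G _ _ D B hB hD hG
    exact h G D B hB hD ⟨hG.2.1, hG.2.2⟩
  · intro h G _ _ D B hB hD hG
    have hDp : IsPGroup p D := by
      obtain ⟨x, ⟨P, rfl⟩, -⟩ := hD
      exact P.2.map _
    obtain ⟨b, hb⟩ := (p_fmt G p O hO D hDp B hB).1 hD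
    obtain ⟨A, _, _, β, b', -, hdt, hg, -, hn, -⟩ := p_rat G p O hO B D b ⟨hB, hD, hb⟩
    have hfin : Finite (Wr G A A) := Finite.of_equiv _ SemidirectProduct.equivProd.symm
    have : Fintype (Wr G A A) := Fintype.ofFinite _
    have h3 := h _ _ _ hdt.1 hdt.2.1 ⟨hg, fun _ => hY G A (hG.1 inferInstance),
      hX.1 _ _ ⟨(eDa D).symm⟩ (Pool.Agent.Q17.AM.Cl.fun hX hG.2)⟩
    have hA : Fintype.card A ≠ 0 := Fintype.card_ne_zero
    rw [hn, Nat.card_congr (eDa D).toEquiv, Nat.card_fun, Nat.card_eq_fintype_card (α := A),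
      Nat.cast_pow, Nat.cast_pow, ← Real.rpow_natCast (Nat.card D : ℝ),
      ← Real.rpow_mul (Nat.cast_nonneg _), mul_comm, Real.rpow_mul (Nat.cast_nonneg _),
      Real.rpow_natCast] at h3
    exact (pow_le_pow_iff_left₀ (Nat.cast_nonneg _)
      (Real.rpow_nonneg (Nat.cast_nonneg _) _) hA).mp h3

end Pool.Agent.H378.RS
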