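import Pool.Agent.H378.RS.Gc
import Pool.Graph.R_pool_sql_team_seeded_efc1946e.K1H2.KR.Coarse

/-!
# The Knörr-Robinson conjecture in one residue class
-/

set_option autoImplicit false
set_option linter.unusedSectionVars false

open scoped BigOperators Classical

noncomputable section

namespace Pool.Agent.H378.RS

open Pool.Agent.Y63.KR (chi2 KRC)
open Pool.Agent.Y63.AWC (numDefectZero)
open Pool.Agent.Q90.WR (altK krc_altK)
open Pool.Agent.R674.Ce (krDiff)
open Pool.Agent.K1H2.KR (WrC cf rec_f rec_z altK_pi numDefectZero_pi krDiff_int sum_real)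

/-- the number `k(G) - χ₂(S, G)` -/
def kr (p : ℕ) (G : Type) [Group G] : ℝ := (Nat.card (ConjClasses G) : ℝ) - (chi2 p G : ℝ)

/-- the real numbers `a` and `b` have the same size up to the factor `t` (after adding `1`) -/
def Ag (t a b : ℝ) : Prop := |a| ≤ t * (1 + b) ∧ b ≤ t * (1 + |a|)

/-- A class of groups closed under direct powers and under wreath products with groups of prime
order. -/
structure ClK (X : ∀ (G : Type) [Group G], Prop) : Prop where
  pow : ∀ (n : ℕ), 0 < n → ∀ (G : Type) [Group G], X G → X (Fin n → G)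
  wr : ∀ (q : ℕ), q.Prime → ∀ (G : Type) [Group G], X G → X (WrC q G)

variable {p : ℕ} [hp : Fact p.Prime] {X : ∀ (G : Type) [Group G], Prop}

/-- the constants -/
def ck (p q : ℕ) : ℤ := cf q p

/-- the members -/
def Vk (p : ℕ) (X : ∀ (G : Type) [Group G], Prop) (l w g : ℕ) : Prop :=
  ∃ (G : Type) (_ : Group G), Finite G ∧ X G ∧ altK p G = l ∧ numDefectZero p G = w ∧
    Nat.card G = g

lemma ck_ge {q : ℕ} (hq : q.Prime) : -1 ≤ ck p q := by
  unfold ck cf
  split_ifs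
  · exact le_rfl
  · have := pow_pos (show (0 : ℤ) < q by exact_mod_cast hq.pos) 2
    omega

lemma rec_nonneg {q : ℕ} (hq : q.Prime) {x x' : ℤ} (hx : 0 ≤ x)
    (h : (q : ℤ) * x' = x ^ q + ck p q * x) : 0 ≤ x' := by
  have hq0 : (0 : ℤ) < q := by exact_mod_cast hq.pos
  have h1 := ck_ge (p := p) hq
  have h2 : x ≤ x ^ q := by
    obtain ⟨n, rfl⟩ := Int.eq_ofNat_of_zero_le hx
    exact_mod_cast Nat.le_self_pow hq.ne_zero n
  have h3 : 0 ≤ (q : ℤ) * x' := by
    rw [h]
    nlinarith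
  exact nonneg_of_mul_nonneg_right h3 hq0

theorem ClK.clo (h : ClK X) : Clo5 p (ck p) (Vk p X) := by
  refine ⟨?_, fun q hq => ck_ge hq, ?_, ?_, ?_, ?_⟩
  · intro q hq
    unfold ck cf
    split_ifs
    · simp
    · exact ⟨q, by ring⟩
  · intro q hq hqp
    unfold ck cf
    rw [if_neg hqp]
  · rintro l w g ⟨G, i, hf, hX, -, -, rfl⟩
    exact Nat.card_pos
  · rintro l w g ⟨G, i, hf, hX, h1, h2, rfl⟩ n hn
    refine ⟨Fin n → G, inferInstance, inferInstance, h.pow n hn G hX, ?_, ?_, ?_⟩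
    · rw [altK_pi, h1]
      push_cast
      rfl
    · rw [numDefectZero_pi, Fintype.card_fin, h2]
    · rw [Nat.card_fun, Nat.card_fin]
  · rintro q hq l w g ⟨G, i, hf, hX, h1, h2, rfl⟩
    have hqf : Fact q.Prime := ⟨hq⟩
    have h3 := rec_f (G := G) (q := q) (p := p)
    have h4 := rec_z (G := G) (q := q) (p := p)
    rw [h1] at h3
    rw [h2] at h4
    have h5 := rec_nonneg (p := p) hq (Int.natCast_nonneg l) h3
    obtain ⟨l', hl'⟩ := Int.eq_ofNat_of_zero_le h5
    refine ⟨l', numDefectZero p (WrC q G), ⟨WrC q G, inferInstance, inferInstance, h.wr q hq G hX,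
      hl', rfl, ?_⟩, ?_, h4⟩
    · rw [WrC.card, mul_comm]
    · rw [← hl', h3]
      rfl

/-- a failing group yields a member with different numbers -/
theorem ClK.fail (h : ClK X) {G : Type} [Group G] [Finite G] (hX : X G)
    (hne : altK p G ≠ numDefectZero p G) : ∃ l w g, Vk p X l w g ∧ l ≠ w := by
  -- squares
  have hsq : ∀ (G : Type) [Group G] [Finite G], X G → altK p G ≠ numDefectZero p G →
      altK p G ≠ -(numDefectZero p G : ℤ) → ∃ l w g, Vk p X l w g ∧ l ≠ w := by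
    intro G _ _ hX h1 h2
    refine ⟨(altK p G ^ 2).toNat, numDefectZero p G ^ 2, _, ⟨Fin 2 → G, inferInstance,
      inferInstance, h.pow 2 two_pos G hX, ?_, ?_, rfl⟩, ?_⟩
    · rw [altK_pi, Int.toNat_of_nonneg (sq_nonneg _)]
    · rw [numDefectZero_pi, Fintype.card_fin]
    · intro h3
      have h4 : altK p G ^ 2 = (numDefectZero p G : ℤ) ^ 2 := by
        rw [← Int.toNat_of_nonneg (sq_nonneg (altK p G)), h3]
        push_cast
        rfl
      rcases sq_eq_sq_iff_eq_or_eq_neg.1 h4 with h5 | h5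
      · exact h1 h5
      · exact h2 h5
  by_cases h1 : altK p G = -(numDefectZero p G : ℤ)
  · have h2 : Fact (Nat.Prime 2) := ⟨Nat.prime_two⟩
    have h3 := rec_f (G := G) (q := 2) (p := p)
    have h4 := rec_z (G := G) (q := 2) (p := p)
    rw [h1] at h3 hne
    have hz : (numDefectZero p G : ℤ) ≠ 0 := by
      intro h5
      rw [h5] at hne
      exact hne rfl
    have hc : cf 2 p ≠ 0 := by
      unfold cf
      split_ifs <;> norm_num
    refine hsq (WrC 2 G) (h.wr 2 Nat.prime_two G hX) ?_ ?_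
    · intro h5
      rw [h5, h4] at h3
      have h6 : cf 2 p * (numDefectZero p G : ℤ) = 0 := by
        linarith
      rcases mul_eq_zero.1 h6 with h7 | h7
      · exact hc h7
      · exact hz h7
    · intro h5
      rw [h5] at h3
      have h6 : (numDefectZero p G : ℤ) ^ 2 = 0 := by
        push_cast at h3 h4
        nlinarith
      exact hz (pow_eq_zero_iff two_ne_zero |>.1 h6)
  · exact hsq G hX hne h1

/-- the difference is in the class of `r` modulo `q ^ a` -/
def Rc (p q a : ℕ) (r : ℤ) (G : Type) [Group G] : Prop :=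
  ∃ m : ℤ, krDiff p G = ((r + (q : ℤ) ^ a * m : ℤ) : ℚ)

lemma rc_iff {q a : ℕ} {r : ℤ} (G : Type) [Group G] [Finite G] :
    Rc p q a r G ↔ (q : ℤ) ^ a ∣ (altK p G - numDefectZero p G) - r := by
  unfold Rc
  rw [krDiff_int]
  constructor
  · rintro ⟨m, hm⟩
    have h1 : altK p G - numDefectZero p G = r + (q : ℤ) ^ a * m := by exact_mod_cast hm
    exact ⟨m, by rw [h1]; ring⟩
  · rintro ⟨m, hm⟩
    refine ⟨m, ?_⟩
    congr 1
    linarith

lemma kr_eq (G : Type) [Group G] [Finite G] : kr p G = (altK p G : ℝ) := sum_real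

/-- The numbers of the conjecture differ by the factor `x ^ δ` for groups of order at most `x` in
all residue classes modulo `q ^ a`, for all large `x`: `u p G` is the larger one. -/
def Apart (p : ℕ) (X : ∀ (G : Type) [Group G], Prop) (q a n₀ : ℕ)
    (u v : ∀ (G : Type) [Group G], ℝ) : Prop :=
  ∃ δ : ℝ, 0 < δ ∧ ∃ x₀ : ℝ, ∀ x : ℝ, x₀ ≤ x → ∀ r : ℤ,
    ∃ (G : Type) (_ : Group G), Finite G ∧ X G ∧ n₀ ≤ Nat.card G ∧ (Nat.card G : ℝ) ≤ x ∧
      Rc p q a r G ∧ 0 ≤ v G ∧ x ^ δ * (1 + v G) ≤ u G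

/-- the number of the characters of defect zero, as a real number -/
def zz (p : ℕ) (G : Type) [Group G] : ℝ := (numDefectZero p G : ℝ)

/-- from the arithmetic -/
lemma scale {δ : ℝ} (hδ : 0 < δ) {x : ℝ} (hx : 2 ^ (2 / δ) ≤ x) {l w : ℝ} (hw : 0 ≤ w)
    (h1 : x ^ δ * w ≤ l) (h2 : x ^ δ ≤ l - w) : x ^ (δ / 2) * (1 + w) ≤ l := by
  have h0 : (1 : ℝ) ≤ 2 ^ (2 / δ) := Real.one_le_rpow (by norm_num) (by positivity)
  have hx0 : 0 < x := by linarith
  have h3 : (2 : ℝ) ≤ x ^ (δ / 2) := by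
    calc (2 : ℝ) = ((2 : ℝ) ^ (2 / δ)) ^ (δ / 2) := by
          rw [← Real.rpow_mul (by norm_num)]
          have : 2 / δ * (δ / 2) = 1 := by field_simp
          rw [this, Real.rpow_one]
      _ ≤ x ^ (δ / 2) := Real.rpow_le_rpow (by positivity) hx (by positivity)
  have h4 : x ^ δ = x ^ (δ / 2) * x ^ (δ / 2) := by
    rw [← Real.rpow_add hx0]
    congr 1
    ring
  have h5 : (0 : ℝ) < x ^ (δ / 2) := Real.rpow_pos_of_pos hx0 _
  have h6 : 2 * (x ^ (δ / 2) * (1 + w)) ≤ x ^ δ * (1 + w) := by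
    rw [h4, mul_assoc, ← mul_assoc 2, mul_comm 2, mul_assoc (x ^ (δ / 2)) 2]
    have : 2 * (1 + w) ≤ x ^ (δ / 2) * (1 + w) := mul_le_mul_of_nonneg_right h3 (by linarith)
    exact mul_le_mul_of_nonneg_left this h5.le
  nlinarith

/-- **all residues** -/
theorem ClK.res (h : ClK X) {q : ℕ} (hq : q.Prime) (a n₀ : ℕ)
    (hf : ¬ ∀ (G : Type) [Group G] [Finite G], X G → KRC p G) :
    Apart p X q a n₀ (fun G _ => kr p G) (fun G _ => zz p G) ∨
      Apart p X q a n₀ (fun G _ => zz p G) (fun G _ => kr p G) := by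
  push Not at hf
  obtain ⟨G, i, hfin, hX, hG⟩ := hf
  rw [krc_altK] at hG
  obtain ⟨l, w, g, hV, hlw⟩ := h.fail hX hG
  rcases lt_or_gt_of_ne hlw with hlw | hlw
  · right
    obtain ⟨l, w, g, hV, hlw⟩ := h.clo.swap.start n₀ hV hlw
    obtain ⟨δ, hδ, x₀, hx₀, H⟩ := (h.clo.swap.large n₀).res hq hV hlw a
    refine ⟨δ / 2, by positivity, max x₀ (2 ^ (2 / δ)), fun x hx r => ?_⟩
    obtain ⟨w', l', g', ⟨⟨G, i, h1, h2, h3, h4, rfl⟩, h5⟩, h6, h7, h8, h9⟩ :=
      H x ((le_max_left _ _).trans hx) (-r)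
    refine ⟨G, i, h1, h2, h5, h7, ?_, ?_, ?_⟩
    · rw [rc_iff, h3, h4, ← dvd_neg]
      have : -(((l' : ℤ) - w') - r) = ((w' : ℤ) - l') - -r := by ring
      rwa [this]
    · have h10 : 0 ≤ kr p G := by
        rw [kr_eq, h3]
        push_cast
        positivity
      exact h10
    · have h10 := scale hδ ((le_max_right _ _).trans hx) (Nat.cast_nonneg l') h8 h9
      simp only [kr_eq, h3, zz, h4]
      push_cast
      exact h10
  · left
    obtain ⟨l, w, g, hV, hlw⟩ := h.clo.start n₀ hV hlw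
    obtain ⟨δ, hδ, x₀, hx₀, H⟩ := (h.clo.large n₀).res hq hV hlw a
    refine ⟨δ / 2, by positivity, max x₀ (2 ^ (2 / δ)), fun x hx r => ?_⟩
    obtain ⟨l', w', g', ⟨⟨G, i, h1, h2, h3, h4, rfl⟩, h5⟩, h6, h7, h8, h9⟩ :=
      H x ((le_max_left _ _).trans hx) r
    refine ⟨G, i, h1, h2, h5, h7, ?_, ?_, ?_⟩
    · rw [rc_iff, h3, h4]
      exact h6
    · have h10 : 0 ≤ zz p G := by
        unfold zz
        positivity
      exact h10
    · have h10 := scale hδ ((le_max_right _ _).trans hx) (Nat.cast_nonneg w') h8 h9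
      simp only [kr_eq, h3, zz, h4]
      push_cast
      exact h10

/-- the two numbers agree up to `x ^ ε` for the groups of order between `n₀` and `x` in one residue
class -/
def AgAt (p : ℕ) (X : ∀ (G : Type) [Group G], Prop) (q a : ℕ) (r : ℤ) (n₀ : ℕ) (x ε : ℝ) : Prop :=
  ∀ (G : Type) [Group G] [Finite G], X G → n₀ ≤ Nat.card G → (Nat.card G : ℝ) ≤ x →
    Rc p q a r G → Ag (x ^ ε) (kr p G) (zz p G)

theorem ClK.approx (h : ClK X) {q : ℕ} (hq : q.Prime) (a n₀ : ℕ) (r : ℤ) :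
    (∀ (G : Type) [Group G] [Finite G], X G → KRC p G) ↔
      ∀ ε : ℝ, 0 < ε → ∀ x₀ : ℝ, ∃ x : ℝ, x₀ ≤ x ∧ AgAt p X q a r n₀ x ε := by
  constructor
  · intro hK ε hε x₀
    refine ⟨max x₀ 1, le_max_left _ _, fun G _ _ hX _ _ _ => ?_⟩
    have h1 := (krc_altK G).1 (hK G hX)
    have h2 : (1 : ℝ) ≤ (max x₀ 1) ^ ε := Real.one_le_rpow (le_max_right _ _) hε.le
    have h3 : kr p G = zz p G := by
      rw [kr_eq, h1]
      unfold zz
      push_cast
      rfl
    have h4 : 0 ≤ zz p G := by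
      unfold zz
      positivity
    unfold Ag
    rw [h3, abs_of_nonneg h4]
    constructor <;> nlinarith
  · intro H
    by_contra hf
    rcases h.res hq a n₀ hf with h1 | h1
    · obtain ⟨δ, hδ, x₀, h2⟩ := h1
      obtain ⟨x, hx, h3⟩ := H (δ / 2) (by positivity) (max x₀ 2)
      obtain ⟨G, i, h4, h5, h6, h7, h8, h9, h10⟩ := h2 x ((le_max_left _ _).trans hx) r
      have hx2 : 2 ≤ x := (le_max_right _ _).trans hx
      have hlt : x ^ (δ / 2) < x ^ δ :=
        Real.rpow_lt_rpow_of_exponent_lt (by linarith) (by linarith)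
      have h11 := (h3 G h5 h6 h7 h8).1
      have h12 : 0 < 1 + zz p G := by linarith
      have h13 : x ^ (δ / 2) * (1 + zz p G) < x ^ δ * (1 + zz p G) := by gcongr
      have h14 := le_abs_self (kr p G)
      linarith
    · obtain ⟨δ, hδ, x₀, h2⟩ := h1
      obtain ⟨x, hx, h3⟩ := H (δ / 2) (by positivity) (max x₀ 2)
      obtain ⟨G, i, h4, h5, h6, h7, h8, h9, h10⟩ := h2 x ((le_max_left _ _).trans hx) r
      have hx2 : 2 ≤ x := (le_max_right _ _).trans hx
      have hlt : x ^ (δ / 2) < x ^ δ :=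
        Real.rpow_lt_rpow_of_exponent_lt (by linarith) (by linarith)
      have h11 := (h3 G h5 h6 h7 h8).2
      rw [abs_of_nonneg h9] at h11
      have h12 : 0 < 1 + kr p G := by linarith
      have h13 : x ^ (δ / 2) * (1 + kr p G) < x ^ δ * (1 + kr p G) := by gcongr
      linarith

theorem ClK.forb (h : ClK X) {q : ℕ} (hq : q.Prime) (a n₀ : ℕ) {r : ℤ}
    (hr : ¬ (q : ℤ) ^ a ∣ r) :
    (∀ (G : Type) [Group G] [Finite G], X G → KRC p G) ↔
      ∀ (G : Type) [Group G] [Finite G], X G → n₀ ≤ Nat.card G → ¬ Rc p q a r G := by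
  constructor
  · intro hK G _ _ hX _ h1
    rw [rc_iff, (krc_altK G).1 (hK G hX), sub_self, zero_sub, dvd_neg] at h1
    exact hr h1
  · intro H
    rw [h.approx hq a n₀ r]
    intro ε _ x₀
    exact ⟨x₀, le_rfl, fun G _ _ hX h1 _ h2 => absurd h2 (H G hX h1)⟩

theorem clK_all : ClK fun _ _ => True := ⟨fun _ _ _ _ _ => trivial, fun _ _ _ _ _ => trivial⟩

end Pool.Agent.H378.RS
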