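import Pool.Agent.H378.RS.Nv

/-!
# Navarro's equality: one residue class decides
-/

set_option autoImplicit false
set_option linter.unusedSectionVars false

open scoped BigOperators Classical

noncomputable section

namespace Pool.Agent.H378.RS

open Pool.Agent.Y63.NV Pool.Agent.Y405.NV Pool.Agent.Y63.NV.B48B
open Pool.Agent.Y63.AWC (IsIrreducibleCharacter pSubgroupSetoid)
open Pool.Agent.E8helper60.AW
open Pool.Agent.E8helper60.DD
open Pool.Agent.E8helper46.AW (exists_char)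

/-! ### Arithmetic: large groups only -/

lemma Clo2.large {p : ℕ} {V : ℕ → ℕ → ℕ → Prop} (h : Clo2 p V) (n₀ : ℕ) :
    Clo2 p fun l w g => V l w g ∧ n₀ ≤ g := by
  refine ⟨fun l w g hV => h.pos l w g hV.1, fun l w g hV n hn =>
    ⟨h.pw l w g hV.1 n hn, hV.2.trans (Nat.le_self_pow hn.ne' _)⟩, fun q hq l w g hV => ?_⟩
  obtain ⟨l', w', h1, h2, h3⟩ := h.wr q hq l w g hV.1
  exact ⟨l', w', ⟨h1, (hV.2.trans (Nat.le_self_pow hq.ne_zero _)).trans
    (Nat.le_mul_of_pos_right _ hq.pos)⟩, h2, h3⟩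

lemma Clo2.start {p : ℕ} {V : ℕ → ℕ → ℕ → Prop} (h : Clo2 p V) (n₀ : ℕ) {l w g : ℕ}
    (hV : V l w g) (hlw : w < l) :
    ∃ l' w' g', (V l' w' g' ∧ n₀ ≤ g') ∧ w' < l' := by
  refine ⟨l ^ (n₀ + 1), w ^ (n₀ + 1), g ^ (n₀ + 1), ⟨h.pw l w g hV _ (Nat.succ_pos _), ?_⟩,
    Nat.pow_lt_pow_left hlw (Nat.succ_ne_zero _)⟩
  have h1 := h.pos l w g hV
  have h2 : n₀ + 1 < g ^ (n₀ + 1) := Nat.lt_pow_self h1
  omega

variable {F : Type} [Field F] [IsAlgClosed F] {p : ℕ} [hp : Fact p.Prime] [CharP F p]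
  (red : integralClosure ℤ ℂ →+* F)

/-- a failure of the weight conjecture gives one for a block of positive defect -/
theorem fail {X : ∀ (G : Type) [Group G], Prop} (hwr : WrAll X) {H : Type} [Group H] [Finite H]
    (hH : X H) {B : (H → F) → F} (hB : IsBlock B) :
    (numWt p red B < numIrrBlock B → ∃ l w g, Vx p red X l w g ∧ w < l) ∧
    (numIrrBlock B < numWt p red B → ∃ l w g, Vx p red X l w g ∧ l < w) := by
  have hpP : p.Prime := hp.out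
  have : NeZero p := ⟨hpP.ne_zero⟩
  have hC : Nat.card (Multiplicative (ZMod p)) = p := by simp [Nat.card_eq_fintype_card]
  obtain ⟨B', h1, h2, h3, h4⟩ := wr_p (p := p) (C := Multiplicative (ZMod p)) red hC hB
  have hV : Vx p red X (numIrrBlock B') (numWt p red B')
      (Nat.card (RegularWreathProduct H (Multiplicative (ZMod p)))) :=
    ⟨_, inferInstance, inferInstance, B', hwr p hpP _ hC H hH, h1, h2, rfl, rfl, rfl⟩
  exact ⟨fun h => ⟨_, _, _, hV, mono hpP h3 h4 h⟩, fun h => ⟨_, _, _, hV, mono hpP h4 h3 h⟩⟩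

/-- all pairs and blocks -/
def AllPairs (p : ℕ) (F : Type) [Field F] (red : integralClosure ℤ ℂ →+* F)
    (X : ∀ (G : Type) [Group G], Prop) (P : ℕ → ℕ → ℕ → Prop) : Prop :=
  ∀ (Γ : Type) [Group Γ] [Finite Γ] (N G : Subgroup Γ) [N.Normal] [G.Normal], N ≤ G → X N →
    IsPGroup p (Γ ⧸ N) → ∀ B : (G → F) → F, IsBlock B → IsInvBlock G B →
      P (Nat.card Γ) (numIBr G B) (thSum p red G B)

/-- all blocks -/
def AllBlocks (p : ℕ) (F : Type) [Field F] (red : integralClosure ℤ ℂ →+* F)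
    (X : ∀ (G : Type) [Group G], Prop) (P : ℕ → ℕ → ℕ → Prop) : Prop :=
  ∀ (H : Type) [Group H] [Finite H], X H → ∀ B : (H → F) → F, IsBlock B →
    P (Nat.card H) (numIrrBlock B) (numWt p red B)

theorem pairs_iff {X : ∀ (G : Type) [Group G], Prop} (hX : Closed p X) :
    AllPairs p F red X (fun _ a b => a = b) ↔ AllBlocks p F red X (fun _ a b => a = b) := by
  constructor
  · intro h H _ _ hH B hB
    have h1 := th_top (p := p) red hB
    rw [← h1.1, ← h1.2]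
    exact h H ⊤ ⊤ le_rfl (hX.iso _ _ hH ⟨Subgroup.topEquiv.symm⟩) (pgroup_top p _) (up B)
      (up_block hB) (up_inv B)
  · intro h
    refine (block_strong red X hX).mp fun H _ _ hH _ => ?_
    rw [theta_iff, ← bawc_iff, bawc_def]
    exact h H hH

theorem pairs_blocks {X : ∀ (G : Type) [Group G], Prop} (hX : Closed p X)
    {P : ℕ → ℕ → ℕ → Prop} (h : AllPairs p F red X P) : AllBlocks p F red X P := by
  intro H _ _ hH B hB
  have h1 := th_top (p := p) red hB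
  rw [← h1.1, ← h1.2]
  exact h H ⊤ ⊤ le_rfl (hX.iso _ _ hH ⟨Subgroup.topEquiv.symm⟩) (pgroup_top p _) (up B)
    (up_block hB) (up_inv B)

/-- the restriction to a residue class, to the orders between `n₀` and `x` -/
def Rs (n₀ : ℕ) (m r : ℤ) (x ε : ℝ) (g a b : ℕ) : Prop :=
  n₀ ≤ g → (g : ℝ) ≤ x → m ∣ ((a : ℤ) - b) - r → Cl (x ^ ε) a b

lemma rs_refl {n₀ : ℕ} {m r : ℤ} {x ε : ℝ} (hx : 0 ≤ x) {g a b : ℕ} (h : a = b) :
    Rs n₀ m r x ε g a b := by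
  intro _ _ _
  refine Or.inr ?_
  rw [h, sub_self, abs_zero]
  positivity

theorem blocks_eq {X : ∀ (G : Type) [Group G], Prop} (hX : Closed p X) (hwr : WrAll X) {q : ℕ}
    (hq : q.Prime) (a n₀ : ℕ) (r : ℤ)
    (h : ∀ ε : ℝ, 0 < ε → ∀ x₀ : ℝ, ∃ x : ℝ, x₀ ≤ x ∧
      AllBlocks p F red X (Rs n₀ ((q : ℤ) ^ a) r x ε)) :
    AllBlocks p F red X (fun _ a b => a = b) := by
  have hc := clo2 red hX hwr
  have h1 : ∀ l w g, Vx p red X l w g → l ≤ w := by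
    intro l w g hV
    by_contra hlt
    rw [not_le] at hlt
    obtain ⟨l', w', g', k1, k2⟩ := hc.start n₀ hV hlt
    refine absurd ((hc.large n₀).approx hq a r (fun ε hε x₀ => ?_) k1) (not_le.2 k2)
    obtain ⟨x, hx, H⟩ := h ε hε x₀
    refine ⟨x, hx, ?_⟩
    rintro l w g ⟨⟨G, _, _, B, hG, hB, -, rfl, rfl, rfl⟩, hn⟩ hg hr
    exact H G hG B hB hn hg hr
  have h2 : ∀ l w g, Vx p red X l w g → w ≤ l := by
    intro l w g hV
    by_contra hlt
    rw [not_le] at hlt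
    obtain ⟨l', w', g', k1, k2⟩ := hc.swap.start n₀ hV hlt
    refine absurd ((hc.swap.large n₀).approx hq a (-r) (fun ε hε x₀ => ?_) k1) (not_le.2 k2)
    obtain ⟨x, hx, H⟩ := h ε hε x₀
    refine ⟨x, hx, ?_⟩
    rintro w l g ⟨⟨G, _, _, B, hG, hB, -, rfl, rfl, rfl⟩, hn⟩ hg hr
    refine (H G hG B hB hn hg ?_).symm
    have e : ((numIrrBlock B : ℤ) - numWt p red B) - r =
        -(((numWt p red B : ℤ) - numIrrBlock B) - -r) := by ring
    rw [e]
    exact hr.neg_right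
  intro H _ _ hH B hB
  obtain ⟨f1, f2⟩ := fail (p := p) red hwr hH hB
  rcases lt_trichotomy (numIrrBlock B) (numWt p red B) with h3 | h3 | h3
  · obtain ⟨l, w, g, h4, h5⟩ := f2 h3
    exact absurd (h2 l w g h4) (not_le.2 h5)
  · exact h3
  · obtain ⟨l, w, g, h4, h5⟩ := f1 h3
    exact absurd (h1 l w g h4) (not_le.2 h5)

/-- **one residue class decides** -/
theorem nav_res {X : ∀ (G : Type) [Group G], Prop} (hX : Closed p X) (hwr : WrAll X) {q : ℕ}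
    (hq : q.Prime) (a n₀ : ℕ) (r : ℤ) :
    List.TFAE [AllPairs p F red X (fun _ a b => a = b),
      ∀ ε : ℝ, 0 < ε → ∀ x₀ : ℝ, ∃ x : ℝ, x₀ ≤ x ∧ AllPairs p F red X (Rs n₀ ((q : ℤ) ^ a) r x ε),
      ∀ ε : ℝ, 0 < ε → ∀ x₀ : ℝ, ∃ x : ℝ, x₀ ≤ x ∧
        AllBlocks p F red X (Rs n₀ ((q : ℤ) ^ a) r x ε)] := by
  tfae_have 1 → 2 := by
    intro h ε hε x₀
    refine ⟨max x₀ 0, le_max_left _ _, fun Γ _ _ N G _ _ hNG hN hΓ B hB hI => ?_⟩
    exact rs_refl (le_max_right _ _) (h Γ N G hNG hN hΓ B hB hI)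
  tfae_have 2 → 3 := by
    intro h ε hε x₀
    obtain ⟨x, hx, H⟩ := h ε hε x₀
    exact ⟨x, hx, pairs_blocks red hX H⟩
  tfae_have 3 → 1 := fun h => (pairs_iff red hX).2 (blocks_eq red hX hwr hq a n₀ r h)
  tfae_finish

/-- **a forbidden residue class** -/
theorem nav_forb {X : ∀ (G : Type) [Group G], Prop} (hX : Closed p X) (hwr : WrAll X) {q : ℕ}
    (hq : q.Prime) (a n₀ : ℕ) {r : ℤ} (hr : ¬ (q : ℤ) ^ a ∣ r) :
    AllPairs p F red X (fun _ a b => a = b) ↔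
      AllBlocks p F red X (fun g l w => n₀ ≤ g → ¬ (q : ℤ) ^ a ∣ ((l : ℤ) - w) - r) := by
  constructor
  · intro h H _ _ hH B hB _ hd
    have h1 : numIrrBlock B = numWt p red B := (pairs_iff red hX).1 h H hH B hB
    rw [h1, sub_self, zero_sub, dvd_neg] at hd
    exact hr hd
  · intro h
    refine (pairs_iff red hX).2 (blocks_eq red hX hwr hq a n₀ r fun ε hε x₀ => ?_)
    exact ⟨x₀, le_rfl, fun H _ _ hH B hB hn _ hd => absurd hd (h H hH B hB hn)⟩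

/-- **all residue classes at all scales** -/
theorem nav_all {X : ∀ (G : Type) [Group G], Prop} (hX : Closed p X) (hwr : WrAll X) {q : ℕ}
    (hq : q.Prime) (a n₀ : ℕ) (h : ¬ AllPairs p F red X (fun _ a b => a = b)) :
    ∃ δ : ℝ, 0 < δ ∧ ∃ x₀ : ℝ,
      (∀ x : ℝ, x₀ ≤ x → ∀ r : ℤ, ∃ (H : Type) (_ : Group H) (_ : Finite H) (B : (H → F) → F),
        X H ∧ IsBlock B ∧ n₀ ≤ Nat.card H ∧ (Nat.card H : ℝ) ≤ x ∧
        (q : ℤ) ^ a ∣ ((numIrrBlock B : ℤ) - numWt p red B) - r ∧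
        x ^ δ * numWt p red B ≤ numIrrBlock B ∧ x ^ δ ≤ (numIrrBlock B : ℝ) - numWt p red B) ∨
      (∀ x : ℝ, x₀ ≤ x → ∀ r : ℤ, ∃ (H : Type) (_ : Group H) (_ : Finite H) (B : (H → F) → F),
        X H ∧ IsBlock B ∧ n₀ ≤ Nat.card H ∧ (Nat.card H : ℝ) ≤ x ∧
        (q : ℤ) ^ a ∣ ((numIrrBlock B : ℤ) - numWt p red B) - r ∧
        x ^ δ * numIrrBlock B ≤ numWt p red B ∧ x ^ δ ≤ (numWt p red B : ℝ) - numIrrBlock B) := by
  rw [pairs_iff red hX] at h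
  have hc := clo2 red hX hwr
  have h1 : ∃ l w g, Vx p red X l w g ∧ l ≠ w := by
    by_contra hcon
    push Not at hcon
    refine h fun H _ _ hH B hB => ?_
    obtain ⟨f1, f2⟩ := fail (p := p) red hwr hH hB
    rcases lt_trichotomy (numIrrBlock B) (numWt p red B) with h3 | h3 | h3
    · obtain ⟨l, w, g, h4, h5⟩ := f2 h3
      exact absurd (hcon l w g h4) h5.ne
    · exact h3
    · obtain ⟨l, w, g, h4, h5⟩ := f1 h3
      exact absurd (hcon l w g h4) h5.ne'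
  obtain ⟨l, w, g, hV, hne⟩ := h1
  rcases lt_or_gt_of_ne hne with hlt | hlt
  · obtain ⟨l', w', g', k1, k2⟩ := hc.swap.start n₀ (l := w) (w := l) hV hlt
    obtain ⟨δ, hδ, x₀, -, H⟩ := (hc.swap.large n₀).res hq k1 k2 a
    refine ⟨δ, hδ, x₀, Or.inr fun x hx r => ?_⟩
    obtain ⟨w, l, g, ⟨⟨G, i1, i2, B, hG, hB, -, rfl, rfl, rfl⟩, hn⟩, c2, c3, c4, c5⟩ := H x hx (-r)
    refine ⟨G, i1, i2, B, hG, hB, hn, c3, ?_, c4, c5⟩
    have e : ((numIrrBlock B : ℤ) - numWt p red B) - r =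
        -(((numWt p red B : ℤ) - numIrrBlock B) - -r) := by ring
    rw [e]
    exact c2.neg_right
  · obtain ⟨l', w', g', k1, k2⟩ := hc.start n₀ hV hlt
    obtain ⟨δ, hδ, x₀, -, H⟩ := (hc.large n₀).res hq k1 k2 a
    refine ⟨δ, hδ, x₀, Or.inl fun x hx r => ?_⟩
    obtain ⟨l, w, g, ⟨⟨G, i1, i2, B, hG, hB, -, rfl, rfl, rfl⟩, hn⟩, c2, c3, c4, c5⟩ := H x hx r
    exact ⟨G, i1, i2, B, hG, hB, hn, c3, c2, c4, c5⟩

end Pool.Agent.H378.RS
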