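import Pool.Agent.H378.RS.Two
import Pool.Agent.H378.JW.Ex
import Pool.Graph.R_pool_sql_team_seeded_b677cdb8.E8helper60.AW.Nav

/-!
# The numbers of simple modules and of weights of the blocks in a class of groups
-/

set_option autoImplicit false
set_option linter.unusedSectionVars false

open scoped BigOperators Classical

noncomputable section

namespace Pool.Agent.H378.RS

open Pool.Agent.Y63.NV Pool.Agent.Y405.NV Pool.Agent.Y63.NV.B48B
open Pool.Agent.Y63.AWC (IsIrreducibleCharacter pSubgroupSetoid)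
open Pool.Agent.Q90.WR (dfn dfn_eq deg_pos fac_le)
open Pool.Agent.Helper884.IC (Irr mem_Irr IsIrrChar)
open Pool.Agent.E8helper60.AW
open Pool.Agent.E8helper60.DD
open Pool.Agent.E8helper46.AW (exists_char)
open Pool.Agent.H378.JW (DefEq defEq_iff exists_overW_p pos_wr_p overW_unique_p)

variable {F : Type} [Field F] [IsAlgClosed F] {p : ℕ} [hp : Fact p.Prime] [CharP F p]
  (red : integralClosure ℤ ℂ →+* F)

theorem over_iff {G C : Type} [Group G] [Group C] [Fintype C] {B : (G → F) → F}
    {B' : (RegularWreathProduct G C → F) → F} : Over B B' ↔ OverW B B' := by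
  unfold Over OverW
  rw [Nat.card_eq_fintype_card]

/-- a block with a character of positive defect has positive defect -/
theorem pos_of {G : Type} [Group G] [Finite G] {B : (G → F) → F} {χ : G → ℂ}
    (h : IsIrreducibleCharacter χ) (h2 : ∀ f : G → F, IsClassFun f → centralValue red χ f = B f)
    (h3 : 0 < dfn p χ) : Pos p red B := by
  have : Fintype G := Fintype.ofFinite G
  rw [pos_iff]
  intro θ k1 k2
  rw [Nat.pos_iff_ne_zero]
  intro k3
  obtain ⟨n, -, hn⟩ := deg_pos (k1 : IsIrrChar θ)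
  have k4 := fac_le (p := p) (k1 : IsIrrChar θ) hn
  rw [dfn_eq p hn] at k3
  have k5 : IsWt p (⊥ : Subgroup G) θ := by
    refine ⟨k1, fun q hq x => ?_, n, hn, ?_⟩
    · rw [Subgroup.mem_bot.1 hq, one_mul]
    · rw [Subgroup.card_bot, Nat.factorization_one, Finsupp.zero_apply, add_zero]
      omega
  have k6 := Pool.Agent.R674.KB.dz_unique (p := p) red k5 h fun f hf => by rw [h2 f hf, k2 f hf]
  rw [k6, dfn_eq p hn] at h3
  omega

/-- wreath products with a group of order `p` -/
theorem wr_p {G C : Type} [Group G] [Finite G] [Group C] [Fintype C] (hC : Nat.card C = p)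
    {B : (G → F) → F} (hB : IsBlock B) :
    ∃ B' : (RegularWreathProduct G C → F) → F, IsBlock B' ∧ Pos p red B' ∧
      p * numIrrBlock B' = numIrrBlock B ^ p + co p p * numIrrBlock B ∧
      p * numWt p red B' = numWt p red B ^ p + co p p * numWt p red B := by
  have hco : co p p = p - 1 := if_pos rfl
  rw [hco]
  obtain ⟨B', h1, h2, -, h4, h5⟩ := wreath_p (p := p) red hC hB
  refine ⟨B', h1, ?_, h4, h5⟩
  obtain ⟨χ, k1, k2⟩ := exists_char (p := p) red hB
  obtain ⟨χ', c1, c2, c3, c4⟩ := exists_overW_p (p := p) (C := C) red hC k1 k2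
  refine pos_of red c1 (fun f hf => ?_) (by rw [c4]; exact Nat.succ_pos _)
  exact overW_unique_p (p := p) red hC hB c2 h1 c3 (over_iff.1 h2) f hf

/-- wreath products with a group of order `q ≠ p` -/
theorem wr_q {G C : Type} [Group G] [Finite G] [Group C] [Fintype C] {q : ℕ} (hq : q.Prime)
    (hqp : q ≠ p) (hC : Nat.card C = q) {B : (G → F) → F} (hB : IsBlock B) (hpos : Pos p red B) :
    ∃ B' : (RegularWreathProduct G C → F) → F, IsBlock B' ∧ Pos p red B' ∧
      q * numIrrBlock B' = numIrrBlock B ^ q + co p q * numIrrBlock B ∧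
      q * numWt p red B' = numWt p red B ^ q + co p q * numWt p red B := by
  obtain ⟨S, h1, h2, h3, h4⟩ := formula (p := p) red q hq hC hB
  obtain ⟨χ, k1, k2⟩ := exists_char (p := p) red hB
  obtain ⟨χ', c1, c2, c3, c4⟩ := exists_overW (p := p) (C := C) red hq hqp hC k1 k2
  obtain ⟨B', ⟨b1, b2⟩, -⟩ := h2 _ c2 (over_iff.2 c3)
  have hS : S = {B'} := by
    rw [Finset.eq_singleton_iff_unique_mem]
    refine ⟨b1, fun B'' hB'' => ?_⟩
    obtain ⟨d1, d2⟩ := h1 B'' hB''
    obtain ⟨e1, e2⟩ := h1 B' b1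
    obtain ⟨D, -, d3⟩ := h2 B'' d1 d2
    rw [d3 B'' ⟨hB'', fun f _ => rfl⟩, d3 B' ⟨b1, fun f hf => ?_⟩]
    exact overW_unique (p := p) red hq hqp hC hB hpos d1 e1 (over_iff.1 d2) (over_iff.1 e2) f hf
  rw [hS, Finset.sum_singleton] at h3 h4
  refine ⟨B', (h1 B' b1).1, ?_, h3, h4⟩
  exact pos_wr (p := p) red hq hqp hC hB hpos (over_iff.1 (h1 B' b1).2)

/-- direct powers -/
theorem pow_num {G ι : Type} [Group G] [Finite G] [Fintype ι] [Nonempty ι] {B : (G → F) → F}
    (hB : IsBlock B) (hpos : Pos p red B) :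
    ∃ B' : ((ι → G) → F) → F, IsBlock B' ∧ Pos p red B' ∧
      numIrrBlock B' = numIrrBlock B ^ Fintype.card ι ∧
      numWt p red B' = numWt p red B ^ Fintype.card ι := by
  obtain ⟨χ, k1, k2⟩ := exists_char (p := p) red hB
  obtain ⟨-, c1, c2⟩ := exists_overP (ι := ι) red k1 k2
  obtain ⟨e, he, hi, h1, h2⟩ := isolate' red hB
  have hf1 : Fact (IsClassFun e) := ⟨he.cls⟩
  have hf2 : Fact (IsClassFun (tens fun _ : ι => e)) := ⟨cls_tens he.cls⟩
  obtain ⟨S, lβ, wβ, d1, d2, d3, d4, d5, d6, d7⟩ := decomp (p := p) red (G := ι → G)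
  obtain ⟨E, hE⟩ : ∃ E : CF (ι → G) F, E.1 = tens fun _ : ι => e :=
    ⟨⟨tens fun _ : ι => e, cls_tens he.cls⟩, rfl⟩
  refine ⟨_, c1, pos_pow (p := p) red hB hpos c2, ?_⟩
  generalize centralValue red (tens fun _ : ι => χ) = B' at *
  have hB1 : rs B' E = 1 := by
    change B' E.1 = 1
    rw [hE, c2 e he.cls, hi.one, one_pow]
  have hmem : rs B' ∈ S := rs_mem d1 d7 c1
  have hsum : ∀ (a : (CF (ι → G) F → F) → ℕ),
      (∑ β ∈ S, if β E = 1 then a β else 0) = a (rs B') := by
    intro a
    rw [Finset.sum_eq_single (rs B')]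
    · exact if_pos hB1
    · intro β hβ hne
      refine if_neg fun h => hne ?_
      obtain ⟨B'', hB'', rfl⟩ := d1 β hβ
      have h3 : B'' (tens fun _ : ι => e) = 1 := by
        rw [← hE]
        exact h
      have h4 : OverP B B'' := overpow_of_one p hi hB'' h3
      funext f
      exact overP_unique (p := p) red hB hB'' c1 h4 c2 f.1 f.2
    · exact fun h => absurd hmem h
  have h5 := nl_pow (ι := ι) he
  have h6 := nwt_pow (ι := ι) red he
  rw [h1] at h5
  rw [h2] at h6
  constructor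
  · rw [← h5, ← hE, d4 E, hsum lβ, (d3 B').1]
  · rw [← h6]
    have h7 := d5 E
    rw [hsum wβ, ← (d3 B').2] at h7
    rw [nwt_sum, ← hE]
    exact h7.symm

/-- the values of the positive defect blocks of the groups in a class -/
def Vx (p : ℕ) (red : integralClosure ℤ ℂ →+* F) (X : ∀ (G : Type) [Group G], Prop)
    (l w g : ℕ) : Prop :=
  ∃ (G : Type) (_ : Group G) (_ : Finite G) (B : (G → F) → F), X G ∧ IsBlock B ∧ Pos p red B ∧
    numIrrBlock B = l ∧ numWt p red B = w ∧ Nat.card G = g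

/-- closure under wreath products with groups of prime order -/
def WrAll (X : ∀ (G : Type) [Group G], Prop) : Prop :=
  ∀ (q : ℕ), q.Prime → ∀ (C : Type) [Group C] [Fintype C], Nat.card C = q →
    ∀ (G : Type) [Group G] [Finite G], X G → X (RegularWreathProduct G C)

theorem pow_all (p : ℕ) {X : ∀ (G : Type) [Group G], Prop} (hX : Closed p X) (hwr : WrAll X)
    (G : Type) [Group G] [Finite G] (h : X G) (n : ℕ) : X (Fin n → G) := by
  have : NeZero 2 := ⟨by norm_num⟩
  have h1 := pow_class p 2 Nat.prime_two (Multiplicative (ZMod 2)) (by simp [Nat.card_eq_fintype_card])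
    X hX (hwr 2 Nat.prime_two (Multiplicative (ZMod 2)) (by simp [Nat.card_eq_fintype_card])) n G h
  have hn : n ≤ 2 ^ n := Nat.lt_two_pow_self.le
  -- the embedding
  let f : (Fin n → G) →* (Fin (2 ^ n) → G) :=
    { toFun := fun x i => if hi : i.1 < n then x ⟨i.1, hi⟩ else 1
      map_one' := by
        funext i
        by_cases hi : i.1 < n <;> simp [hi]
      map_mul' := fun x y => by
        funext i
        by_cases hi : i.1 < n <;> simp [hi] }
  have hf : Function.Injective f := by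
    intro x y hxy
    funext i
    have h2 := congrFun hxy ⟨i.1, i.2.trans_le hn⟩
    have e1 : ∀ z : Fin n → G, f z ⟨i.1, i.2.trans_le hn⟩ = z i := fun z => dif_pos i.2
    rwa [e1, e1] at h2
  exact hX.iso _ _ (hX.sub _ h1 f.range) ⟨(MonoidHom.ofInjective hf).symm⟩

theorem clo2 {X : ∀ (G : Type) [Group G], Prop} (hX : Closed p X) (hwr : WrAll X) :
    Clo2 p (Vx p red X) := by
  have hpP : p.Prime := hp.out
  refine ⟨?_, ?_, ?_⟩
  · rintro l w g ⟨G, _, _, B, -, hB, hpos, -, -, rfl⟩
    have : Fintype G := Fintype.ofFinite G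
    obtain ⟨χ, k1, k2⟩ := exists_char (p := p) red hB
    obtain ⟨n, hn, h1⟩ := hpos χ k1 k2
    by_contra hcon
    have h2 : Nat.card G = 1 := by
      have := Nat.card_pos (α := G)
      omega
    rw [h2, Nat.factorization_one, Finsupp.zero_apply] at h1
    exact absurd h1 (Nat.not_lt_zero _)
  · rintro l w g ⟨G, _, _, B, hG, hB, hpos, rfl, rfl, rfl⟩ n hn
    have : Nonempty (Fin n) := ⟨⟨0, hn⟩⟩
    obtain ⟨B', h1, h2, h3, h4⟩ := pow_num (ι := Fin n) red hB hpos
    rw [Fintype.card_fin] at h3 h4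
    exact ⟨Fin n → G, inferInstance, inferInstance, B', pow_all p hX hwr G hG n, h1, h2, h3, h4,
      card_powF G n⟩
  · rintro q hq l w g ⟨G, _, _, B, hG, hB, hpos, rfl, rfl, rfl⟩
    have : NeZero q := ⟨hq.ne_zero⟩
    have hC : Nat.card (Multiplicative (ZMod q)) = q := by simp [Nat.card_eq_fintype_card]
    have hXw := hwr q hq (Multiplicative (ZMod q)) hC G hG
    have hcard : Nat.card (RegularWreathProduct G (Multiplicative (ZMod q))) =
        Nat.card G ^ q * q := by rw [RegularWreathProduct.card, hC]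
    by_cases hqp : q = p
    · subst hqp
      obtain ⟨B', h1, h2, h3, h4⟩ := wr_p (p := q) red hC hB
      exact ⟨_, _, ⟨_, inferInstance, inferInstance, B', hXw, h1, h2, rfl, rfl, hcard⟩, h3, h4⟩
    · obtain ⟨B', h1, h2, h3, h4⟩ := wr_q (p := p) red hq hqp hC hB hpos
      exact ⟨_, _, ⟨_, inferInstance, inferInstance, B', hXw, h1, h2, rfl, rfl, hcard⟩, h3, h4⟩

end Pool.Agent.H378.RS
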