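import Pool.Agent.H378.RS.Tw3

/-!
# Numbers `l` and real bounds `d` under the maps `(l, d) ↦ ((l ^ q + (q² - 1) l) / q, d ^ q)`, `q ≠ p`
-/

set_option autoImplicit false

namespace Pool.Agent.H378.RS

/-- A set of triples `(l, d, g)` of numbers closed under powers and under the maps
`(l, d, g) ↦ ((l ^ q + c l) / q, d ^ q, q g ^ q)` for all primes `q ≠ p`. -/
structure Clo1 (p : ℕ) (V : ℕ → ℝ → ℕ → Prop) : Prop where
  pos : ∀ l d g, V l d g → 1 < g ∧ 0 < d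
  pw : ∀ l d g, V l d g → ∀ n : ℕ, 0 < n → V (l ^ n) (d ^ n) (g ^ n)
  wr : ∀ q : ℕ, q.Prime → q ≠ p → ∀ l d g, V l d g →
    ∃ l', V l' (d ^ q) (g ^ q * q) ∧ q * l' = l ^ q + co p q * l

variable {p : ℕ} {V : ℕ → ℝ → ℕ → Prop}

lemma two_mul_le_pow {q : ℕ} (hq : 2 ≤ q) : 2 * q ≤ 2 ^ q := by
  induction q, hq using Nat.le_induction with
  | base => norm_num
  | succ q hq ih =>
    rw [pow_succ]
    omega

lemma keep {q : ℕ} (hq : q.Prime) {c l l' : ℕ} {d : ℝ} (h : q * l' = l ^ q + c * l) (hd : 0 < d)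
    (h2 : 2 * d ≤ l) : 2 * d ^ q ≤ l' := by
  have hq0 : (0 : ℝ) < q := by exact_mod_cast hq.pos
  have h' : (q : ℝ) * l' = (l : ℝ) ^ q + c * l := by exact_mod_cast h
  have h3 : (2 * q : ℝ) ≤ 2 ^ q := by exact_mod_cast two_mul_le_pow hq.two_le
  refine le_of_mul_le_mul_left ?_ hq0
  calc (q : ℝ) * (2 * d ^ q) = (2 * q) * d ^ q := by ring
    _ ≤ 2 ^ q * d ^ q := by gcongr
    _ = (2 * d) ^ q := (mul_pow _ _ _).symm
    _ ≤ (l : ℝ) ^ q := by gcongr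
    _ ≤ (l : ℝ) ^ q + c * l := le_add_of_nonneg_right (by positivity)
    _ = q * l' := h'.symm

lemma two_pow_base {l : ℕ} {d : ℝ} (hd : 0 < d) (h : d < l) : ∃ n : ℕ, 0 < n ∧
    2 * d ^ n ≤ (l : ℝ) ^ n := by
  have h1 : 1 < (l : ℝ) / d := (one_lt_div hd).2 h
  obtain ⟨n, hn⟩ := pow_unbounded_of_one_lt 2 h1
  refine ⟨n, Nat.pos_of_ne_zero ?_, ?_⟩
  · rintro rfl
    norm_num at hn
  · rw [div_pow, lt_div_iff₀ (pow_pos hd n)] at hn
    exact hn.le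

/-- a member prime to `q` with `l ≥ 2 d` -/
theorem Clo1.unit (h : Clo1 p V) {q : ℕ} (hq : q.Prime) (hne : q ≠ p) {l g : ℕ} {d : ℝ}
    (hV : V l d g) (hld : d < l) : ∃ (l' : ℕ) (d' : ℝ) (g' : ℕ), V l' d' g' ∧ 2 * d' ≤ l' ∧
      ¬ (q : ℤ) ∣ (l' : ℤ) := by
  have key : ∀ a : ℕ, ∀ (l : ℕ) (d : ℝ) (g : ℕ), V l d g → 2 * d ≤ l → (q : ℤ) ^ a ∣ (l : ℤ) →
      ¬ (q : ℤ) ^ (a + 1) ∣ (l : ℤ) → ∃ (l' : ℕ) (d' : ℝ) (g' : ℕ), V l' d' g' ∧ 2 * d' ≤ l' ∧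
        ¬ (q : ℤ) ∣ (l' : ℤ) := by
    intro a
    induction a with
    | zero => exact fun l d g hs h1 _ h2 => ⟨l, d, g, hs, h1, by rwa [zero_add, pow_one] at h2⟩
    | succ a ih =>
      intro l d g hs h0 h1 h2
      obtain ⟨l', h3, h4⟩ := h.wr q hq hne l d g hs
      have h4' : (q : ℤ) * l' = (l : ℤ) ^ q + co p q * l := by exact_mod_cast h4
      obtain ⟨h5, h6⟩ := step_val hq (co_dvd (p := p) hq) h4' h1 h2
      exact ih l' _ _ h3 (keep hq h4 (h.pos l d g hs).2 h0) h5 h6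
  have hd := (h.pos l d g hV).2
  obtain ⟨n, hn, h2⟩ := two_pow_base hd hld
  have hV' := h.pw l d g hV n hn
  have h2 : 2 * d ^ n ≤ ((l ^ n : ℕ) : ℝ) := by exact_mod_cast h2
  generalize l ^ n = l₁ at *
  generalize hd1 : d ^ n = d₁ at *
  generalize g ^ n = g₁ at *
  have hd1' : 0 < d₁ := (h.pos _ _ _ hV').2
  have hne' : (l₁ : ℤ) ≠ 0 := by
    have h3 : (0 : ℝ) < l₁ := by linarith
    exact_mod_cast h3.ne'
  have hfin : FiniteMultiplicity (q : ℤ) (l₁ : ℤ) :=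
    Int.finiteMultiplicity_iff.2 ⟨by rw [Int.natAbs_natCast]; exact hq.ne_one, hne'⟩
  obtain ⟨a, ha⟩ := hfin
  classical
  have hex : ∃ a, ¬ (q : ℤ) ^ (a + 1) ∣ (l₁ : ℤ) := ⟨a, ha⟩
  refine key (Nat.find hex) l₁ d₁ g₁ hV' h2 ?_ (Nat.find_spec hex)
  rcases Nat.eq_zero_or_pos (Nat.find hex) with h1 | h1
  · rw [h1, pow_zero]
    exact one_dvd _
  · have h2 := Nat.find_min hex (Nat.sub_lt h1 Nat.one_pos)
    rw [not_not, Nat.sub_add_cancel h1] at h2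
    exact h2

/-- **all residues, of polynomial size, at all scales** -/
theorem Clo1.res1 (h : Clo1 p V) {q : ℕ} (hq : q.Prime) (hqne : q ≠ p) {l g : ℕ} {d : ℝ}
    (hV : V l d g) (hld : d < l) (a : ℕ) (r : ℤ) : ∃ δ : ℝ, 0 < δ ∧ ∃ x₀ : ℝ, 1 ≤ x₀ ∧
      ∀ x : ℝ, x₀ ≤ x → ∃ (l' : ℕ) (d' : ℝ) (g' : ℕ), V l' d' g' ∧ (q : ℤ) ^ a ∣ (l' : ℤ) - r ∧ (g' : ℝ) ≤ x ∧
        x ^ δ * d' ≤ l' := by
  have hq0 : (q : ℤ) ≠ 0 := by exact_mod_cast hq.ne_zero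
  have hqp : Prime (q : ℤ) := Nat.prime_iff_prime_int.1 hq
  have hq1 : 0 < q - 1 := Nat.sub_pos_of_lt hq.one_lt
  have hne : NeZero (q ^ (a + 1) * (q - 1)) :=
    ⟨(Nat.mul_pos (pow_pos hq.pos _) hq1).ne'⟩
  obtain ⟨l, d, g, hV, hl2, h1⟩ := h.unit hq hqne hV hld
  obtain ⟨hg, hd⟩ := h.pos l d g hV
  -- the inverse of the Teichmüller representative
  obtain ⟨U, hU⟩ : ∃ U : ℤ, U = (l : ℤ) ^ (q ^ a) := ⟨_, rfl⟩
  have hUq : ¬ (q : ℤ) ∣ U := by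
    intro h2
    rw [hU] at h2
    exact h1 (hqp.dvd_of_dvd_pow h2)
  obtain ⟨r', hr'⟩ : ∃ r' : ℤ, (q : ℤ) ^ (a + 1) ∣ U * r' - r := by
    have h2 : IsCoprime ((q : ℤ) ^ (a + 1)) U := IsCoprime.pow_left ((hqp.coprime_iff_not_dvd).2 hUq)
    obtain ⟨x, y, hxy⟩ := h2
    refine ⟨y * r, -(x * r), ?_⟩
    linear_combination r * hxy
  obtain ⟨t, ⟨k₀, hk₀⟩, ht⟩ := hensel (co_dvd (p := p) hq) r' a
  -- a prime number in the class of `t`
  obtain ⟨z, hz⟩ : ∃ z : ℤ, z = t + (q : ℤ) ^ (a + 1) * (1 - t) := ⟨_, rfl⟩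
  have hcast : ((q - 1 : ℕ) : ℤ) = (q : ℤ) - 1 := by
    rw [Nat.cast_sub hq.one_lt.le]
    simp
  have hzq1 : ((q : ℤ) - 1) ∣ z - 1 := by
    have h2 : z - 1 = ((q : ℤ) ^ (a + 1) - 1) * (1 - t) := by
      rw [hz]
      ring
    rw [h2]
    have h3 := sub_dvd_pow_sub_pow (q : ℤ) 1 (a + 1)
    rw [one_pow] at h3
    exact h3.mul_right _
  have hzt : (q : ℤ) ^ (a + 1) ∣ z - t := ⟨1 - t, by rw [hz]; ring⟩
  have hru : IsUnit (z : ZMod (q ^ (a + 1) * (q - 1))) := by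
    rw [ZMod.coe_int_isUnit_iff_isCoprime]
    push_cast
    rw [hcast]
    refine IsCoprime.mul_left (IsCoprime.pow_left ?_) ?_
    · obtain ⟨e, he⟩ := hzt
      refine ⟨-k₀ - (q : ℤ) ^ a * e, 1, ?_⟩
      rw [pow_succ] at he
      linear_combination he + hk₀
    · obtain ⟨e, he⟩ := hzq1
      exact ⟨-e, 1, by linear_combination he⟩
  obtain ⟨s, hs1, hs2, hs3⟩ := Nat.forall_exists_prime_gt_and_eq_mod hru (max p q)
  have hsp : s ≠ p := by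
    rintro rfl
    exact absurd hs1 (not_lt.2 (le_max_left _ _))
  have hs3' : ((q ^ (a + 1) * (q - 1) : ℕ) : ℤ) ∣ (s : ℤ) - z := by
    have h2 : ((z : ℤ) : ZMod (q ^ (a + 1) * (q - 1))) = ((s : ℤ) : ZMod (q ^ (a + 1) * (q - 1))) := by
      rw [← hs3]
      simp
    exact (ZMod.intCast_eq_intCast_iff_dvd_sub _ _ _).1 h2
  push_cast at hs3'
  rw [hcast] at hs3'
  have hst : (q : ℤ) ^ (a + 1) ∣ (s : ℤ) - t := by
    have h2 := (Dvd.intro _ rfl : (q : ℤ) ^ (a + 1) ∣ (q : ℤ) ^ (a + 1) * (q - 1)).trans hs3'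
    have h3 := dvd_add h2 hzt
    rwa [sub_add_sub_cancel] at h3
  have hsq : (q - 1) ∣ s - 1 := by
    have h2 := (Dvd.intro_left _ rfl : ((q : ℤ) - 1) ∣ (q : ℤ) ^ (a + 1) * (q - 1)).trans hs3'
    have h3 := dvd_add h2 hzq1
    rw [sub_add_sub_cancel, ← hcast] at h3
    have h4 : ((s - 1 : ℕ) : ℤ) = (s : ℤ) - 1 := by
      rw [Nat.cast_sub hs2.one_lt.le]
      simp
    rw [← h4] at h3
    exact_mod_cast h3
  have hsu : IsCoprime ((q : ℤ) ^ (a + 1)) (s : ℤ) := by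
    refine IsCoprime.pow_left ((hqp.coprime_iff_not_dvd).2 fun h2 => ?_)
    have h3 := (Nat.prime_dvd_prime_iff_eq hq hs2).1 (by exact_mod_cast h2)
    exact absurd hs1 (not_lt.2 (h3 ▸ le_max_right _ _))
  -- the members
  have key : ∀ k : ℕ, ∃ (l' : ℕ) (d' : ℝ),
      V l' d' (((g ^ (q ^ a * (1 + (q - 1) * k))) ^ s * s) ^ q * q) ∧
        (q : ℤ) ^ a ∣ (l' : ℤ) - r ∧
        2 ^ (q ^ a * (1 + (q - 1) * k) * (s * q)) * d' ≤ l' * 2 ^ (2 * (s * q)) := by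
    intro k
    have hn0 : 0 < q ^ a * (1 + (q - 1) * k) := Nat.mul_pos (pow_pos hq.pos _) (by omega)
    have hL1 := teich hq (l : ℤ) a k
    have hL2 := teich_pow hq (l : ℤ) a k hs2.pos hsq
    have hL3 := teich_pow hq (l : ℤ) a k hq.pos dvd_rfl
    have hVn := h.pw l d g hV _ hn0
    generalize hn : q ^ a * (1 + (q - 1) * k) = n at *
    obtain ⟨l2, h3, h4⟩ := h.wr s hs2 hsp _ _ _ hVn
    obtain ⟨l3, h6, h7⟩ := h.wr q hq hqne _ _ _ h3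
    refine ⟨l3, _, h6, ?_, ?_⟩
    · -- congruences
      have h4' : (s : ℤ) * l2 = ((l : ℤ) ^ n) ^ s + co p s * (l : ℤ) ^ n := by exact_mod_cast h4
      have h7' : (q : ℤ) * l3 = (l2 : ℤ) ^ q + co p q * l2 := by exact_mod_cast h7
      have hcs : (co p s : ℤ) = (s : ℤ) ^ 2 - 1 := by
        rw [co, if_neg hsp, Nat.cast_sub (Nat.one_le_pow _ _ hs2.pos)]
        push_cast
        ring
      have hL4 : (q : ℤ) ^ (a + 1) ∣ l2 - t * (l : ℤ) ^ n := by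
        have e3 : (s : ℤ) * (l2 - t * (l : ℤ) ^ n) =
            (((l : ℤ) ^ n) ^ s - (l : ℤ) ^ n) + ((s : ℤ) - t) * (s * (l : ℤ) ^ n) := by
          rw [mul_sub, h4', hcs]
          ring
        exact hsu.dvd_of_dvd_mul_left (e3 ▸ dvd_add hL2 (hst.mul_right _))
      have hL5 : (q : ℤ) ^ (a + 1) ∣ ((l2 : ℤ) ^ q + co p q * l2) - q * r' * (l : ℤ) ^ n := by
        have e3 : (q : ℤ) ^ (a + 1) ∣ (l2 : ℤ) ^ q - (t * (l : ℤ) ^ n) ^ q :=
          hL4.trans (sub_dvd_pow_sub_pow _ _ _)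
        have e4 : ((l2 : ℤ) ^ q + co p q * l2) - q * r' * (l : ℤ) ^ n =
            ((l2 : ℤ) ^ q - (t * (l : ℤ) ^ n) ^ q) +
            co p q * (l2 - t * (l : ℤ) ^ n) + t ^ q * (((l : ℤ) ^ n) ^ q - (l : ℤ) ^ n) +
            (t ^ q + co p q * t - q * r') * (l : ℤ) ^ n := by
          rw [mul_pow]
          ring
        rw [e4]
        exact dvd_add (dvd_add (dvd_add e3 (hL4.mul_left _)) (hL3.mul_left _)) (ht.mul_right _)
      rw [← mul_dvd_mul_iff_left hq0, ← pow_succ']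
      have e5 : (q : ℤ) * ((l3 : ℤ) - r) =
          (((l2 : ℤ) ^ q + co p q * l2) - q * r' * (l : ℤ) ^ n) +
          q * r' * ((l : ℤ) ^ n - (l : ℤ) ^ (q ^ a)) +
          q * (U * r' - r) := by
        rw [hU, mul_sub, h7']
        ring
      rw [e5]
      exact dvd_add (dvd_add hL5 (hL1.mul_left _)) (hr'.mul_left _)
    · -- the ratio
      have e1 : ((l : ℝ) ^ n) ^ s ≤ s * l2 := by
        have : (l ^ n) ^ s ≤ s * l2 := by rw [h4]; exact Nat.le_add_right _ _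
        exact_mod_cast this
      have e2 : (l2 : ℝ) ^ q ≤ q * l3 := by
        have : l2 ^ q ≤ q * l3 := by rw [h7]; exact Nat.le_add_right _ _
        exact_mod_cast this
      have e3 : (s : ℝ) ≤ 2 ^ s := by exact_mod_cast (Nat.lt_two_pow_self (n := s)).le
      have e4 : (q : ℝ) ≤ 2 ^ (s * q) := by
        have : q ≤ 2 ^ (s * q) :=
          Nat.lt_two_pow_self.le.trans (Nat.pow_le_pow_right two_pos (Nat.le_mul_of_pos_left _ hs2.pos))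
        exact_mod_cast this
      calc 2 ^ (n * (s * q)) * ((d ^ n) ^ s) ^ q = (((2 * d) ^ n) ^ s) ^ q := by
            rw [← pow_mul, ← pow_mul, ← pow_mul, ← pow_mul, mul_pow]
        _ ≤ (((l : ℝ) ^ n) ^ s) ^ q := by gcongr
        _ ≤ (s * l2) ^ q := by gcongr
        _ = s ^ q * (l2 : ℝ) ^ q := mul_pow _ _ _
        _ ≤ (2 ^ s) ^ q * (q * l3) := by gcongr
        _ ≤ (2 ^ s) ^ q * (2 ^ (s * q) * l3) := by gcongr
        _ = l3 * 2 ^ (2 * (s * q)) := by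
            rw [← pow_mul]
            ring
  have hlq : (0 : ℝ) < s * q := by
    have := hs2.pos
    have := hq.pos
    positivity
  have h4g : (1 : ℝ) < 4 * g := by
    have : (1 : ℝ) ≤ g := by exact_mod_cast hg.le
    linarith
  have hlog : 0 < Real.log (4 * g) := Real.log_pos h4g
  -- the size of the group
  have hsize : ∀ n : ℕ, 1 ≤ n → ((((g ^ n) ^ s * s) ^ q * q : ℕ) : ℝ) ≤
      (4 * g : ℝ) ^ (s * q * n) := by
    intro n hn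
    have e2 : (s : ℝ) ≤ 2 ^ s := by exact_mod_cast (Nat.lt_two_pow_self (n := s)).le
    have e3 : (q : ℝ) ≤ 2 ^ q := by exact_mod_cast (Nat.lt_two_pow_self (n := q)).le
    have e4 : (2 : ℝ) ^ q ≤ 2 ^ (s * q) :=
      pow_le_pow_right₀ (by norm_num) (Nat.le_mul_of_pos_left _ hs2.pos)
    have e5 : (4 : ℝ) ^ (s * q) ≤ 4 ^ (s * q * n) :=
      pow_le_pow_right₀ (by norm_num) (Nat.le_mul_of_pos_right _ hn)
    push_cast
    rw [mul_pow, ← pow_mul, ← pow_mul, mul_pow]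
    calc (g : ℝ) ^ (n * (s * q)) * (s : ℝ) ^ q * q
        ≤ (g : ℝ) ^ (n * (s * q)) * ((2 : ℝ) ^ s) ^ q * 2 ^ (s * q) := by
          have := e3.trans e4
          gcongr
      _ = (g : ℝ) ^ (n * (s * q)) * 4 ^ (s * q) := by
          rw [← pow_mul, mul_assoc, ← mul_pow]
          norm_num
      _ ≤ (g : ℝ) ^ (n * (s * q)) * 4 ^ (s * q * n) := by gcongr
      _ = 4 ^ (s * q * n) * (g : ℝ) ^ (s * q * n) := by
          rw [mul_comm]
          congr 2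
          ring
  -- the members, once more
  have key2 : ∀ k : ℕ, s + q + 3 ≤ k → ∃ (l' : ℕ) (d' : ℝ),
      V l' d' (((g ^ (q ^ a * (1 + (q - 1) * k))) ^ s * s) ^ q * q) ∧
        (q : ℤ) ^ a ∣ (l' : ℤ) - r ∧ (2 : ℝ) ^ (q ^ a * (1 + (q - 1) * k)) * d' ≤ l' := by
    intro k hk
    have hnk : k ≤ q ^ a * (1 + (q - 1) * k) := by
      have e1 : 1 ≤ q ^ a := Nat.one_le_pow _ _ hq.pos
      calc k ≤ 1 + (q - 1) * k := by nlinarith
        _ ≤ q ^ a * (1 + (q - 1) * k) := Nat.le_mul_of_pos_left _ e1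
    obtain ⟨l', d', h3, h4, h5⟩ := key k
    generalize q ^ a * (1 + (q - 1) * k) = n at *
    refine ⟨l', d', h3, h4, ?_⟩
    have hsq2 : 4 ≤ s * q := Nat.mul_le_mul hs2.two_le hq.two_le
    obtain ⟨m, rfl⟩ := Nat.exists_eq_add_of_le (show 3 ≤ n by omega)
    have e1 : (3 + m) + 2 * (s * q) ≤ (3 + m) * (s * q) := by nlinarith
    have hd' : 0 < d' := (h.pos _ _ _ h3).2
    have e2 : 2 ^ (3 + m) * d' * 2 ^ (2 * (s * q)) ≤ l' * 2 ^ (2 * (s * q)) := by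
      calc 2 ^ (3 + m) * d' * 2 ^ (2 * (s * q)) = 2 ^ ((3 + m) + 2 * (s * q)) * d' := by
            rw [pow_add]
            ring
        _ ≤ 2 ^ ((3 + m) * (s * q)) * d' :=
            mul_le_mul_of_nonneg_right (pow_le_pow_right₀ (by norm_num) e1) hd'.le
        _ ≤ l' * 2 ^ (2 * (s * q)) := h5
    exact le_of_mul_le_mul_right e2 (by positivity)
  -- all scales
  obtain ⟨M, hM⟩ : ∃ M : ℝ, M = s * q * Real.log (4 * g) := ⟨_, rfl⟩
  have hM0 : 0 < M := hM ▸ mul_pos hlq hlog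
  obtain ⟨A, hA⟩ : ∃ A : ℝ, A = (q : ℝ) ^ a * (q - 1 : ℕ) * M := ⟨_, rfl⟩
  obtain ⟨A₀, hA₀⟩ : ∃ A₀ : ℝ, A₀ = (q : ℝ) ^ a * M := ⟨_, rfl⟩
  have hqR : (0 : ℝ) < q := by exact_mod_cast hq.pos
  have hA0 : 0 < A := by
    have : (0 : ℝ) < (q - 1 : ℕ) := by exact_mod_cast hq1
    rw [hA]
    positivity
  have hA₀0 : 0 < A₀ := by
    rw [hA₀]
    positivity
  have hlogκ : 0 < Real.log 2 := Real.log_pos (by norm_num)
  refine ⟨Real.log 2 / (2 * M), by positivity,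
    Real.exp (A₀ + (s + q + 4) * A + 2 * A), Real.one_le_exp (by positivity), fun x hx => ?_⟩
  have hx0 : 0 < x := lt_of_lt_of_le (Real.exp_pos _) hx
  obtain ⟨u, hu⟩ : ∃ u : ℝ, u = Real.log x := ⟨_, rfl⟩
  have hux : x = Real.exp u := by rw [hu, Real.exp_log hx0]
  have hu1 : A₀ + (s + q + 4) * A + 2 * A ≤ u := by
    rw [hu]
    exact (Real.le_log_iff_exp_le hx0).2 hx
  have hsq0 : (0 : ℝ) ≤ (s : ℝ) + q := by positivity
  have hu2 : 0 ≤ (u - A₀) / A := by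
    apply div_nonneg _ hA0.le
    nlinarith
  obtain ⟨k, hk⟩ : ∃ k, k = ⌊(u - A₀) / A⌋₊ := ⟨_, rfl⟩
  have hk1 : (k : ℝ) ≤ (u - A₀) / A := hk ▸ Nat.floor_le hu2
  have hk2 : (u - A₀) / A < k + 1 := hk ▸ Nat.lt_floor_add_one _
  rw [le_div_iff₀ hA0] at hk1
  rw [div_lt_iff₀ hA0] at hk2
  have hk3 : s + q + 3 ≤ k := by
    have e1 : ((s + q + 3 : ℕ) : ℝ) < k + 1 := by
      push_cast
      by_contra hcon
      rw [not_lt] at hcon
      have : ((k : ℝ) + 1) * A ≤ ((s : ℝ) + q + 3) * A := by gcongr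
      nlinarith
    have e2 : s + q + 3 < k + 1 := by exact_mod_cast e1
    omega
  obtain ⟨l', d', c1, c2, c3⟩ := key2 k hk3
  have hnM : ((q ^ a * (1 + (q - 1) * k) : ℕ) : ℝ) * M = A₀ + k * A := by
    rw [hA₀, hA]
    push_cast
    ring
  have hn1 : 1 ≤ q ^ a * (1 + (q - 1) * k) := Nat.mul_pos (pow_pos hq.pos _) (by omega)
  have hs := hsize _ hn1
  generalize q ^ a * (1 + (q - 1) * k) = n at *
  have hκn : x ^ (Real.log 2 / (2 * M)) ≤ (2 : ℝ) ^ n := by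
    rw [hux, ← Real.exp_mul, ← Real.exp_log (pow_pos (by norm_num : (0 : ℝ) < 2) n),
      Real.exp_le_exp, Real.log_pow]
    have e1 : u ≤ 2 * (n * M) := by
      rw [hnM]
      nlinarith
    calc u * (Real.log 2 / (2 * M)) ≤ (2 * (n * M)) * (Real.log 2 / (2 * M)) := by gcongr
      _ = n * Real.log 2 := by field_simp
  refine ⟨l', d', _, c1, c2, hs.trans ?_, ?_⟩
  · rw [hux, ← Real.exp_log (pow_pos (by linarith : (0 : ℝ) < 4 * g) _), Real.exp_le_exp,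
      Real.log_pow]
    have e1 : ((s * q * n : ℕ) : ℝ) * Real.log (4 * g) = n * M := by
      rw [hM]
      push_cast
      ring
    rw [e1, hnM]
    linarith
  · exact (mul_le_mul_of_nonneg_right hκn (h.pos _ _ _ c1).2.le).trans c3

/-- **all residues, of polynomial size, at all scales** -/
theorem Clo1.res (h : Clo1 p V) {q : ℕ} (hq : q.Prime) (hqne : q ≠ p) {l g : ℕ} {d : ℝ}
    (hV : V l d g) (hld : d < l) (a : ℕ) : ∃ δ : ℝ, 0 < δ ∧ ∃ x₀ : ℝ, 1 ≤ x₀ ∧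
      ∀ x : ℝ, x₀ ≤ x → ∀ r : ℤ, ∃ (l' : ℕ) (d' : ℝ) (g' : ℕ), V l' d' g' ∧ (q : ℤ) ^ a ∣ (l' : ℤ) - r ∧
        (g' : ℝ) ≤ x ∧ x ^ δ * d' ≤ l' := by
  choose δ hδ x₀ hx₀ H using fun r : ℤ => h.res1 hq hqne hV hld a r
  obtain ⟨m, hm⟩ : ∃ m, m = q ^ a := ⟨_, rfl⟩
  have hm0 : 0 < m := hm ▸ pow_pos hq.pos _
  have hne : (Finset.range m).Nonempty := ⟨0, Finset.mem_range.2 hm0⟩
  refine ⟨(Finset.range m).inf' hne fun i => δ (i : ℤ), ?_,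
    (Finset.range m).sup' hne fun i => x₀ (i : ℤ), ?_, fun x hx r => ?_⟩
  · rw [Finset.lt_inf'_iff]
    exact fun i _ => hδ _
  · exact (hx₀ ((0 : ℕ) : ℤ)).trans
      (Finset.le_sup' (fun i : ℕ => x₀ (i : ℤ)) (Finset.mem_range.2 hm0))
  · have hmz : (m : ℤ) ≠ 0 := by exact_mod_cast hm0.ne'
    obtain ⟨i, hi⟩ : ∃ i : ℕ, (i : ℤ) = r % m :=
      ⟨(r % m).toNat, Int.toNat_of_nonneg (Int.emod_nonneg _ hmz)⟩
    have hmi : (i : ℤ) < m := hi ▸ Int.emod_lt_of_pos _ (by exact_mod_cast hm0)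
    have him : i ∈ Finset.range m := Finset.mem_range.2 (by exact_mod_cast hmi)
    have hxi : x₀ (i : ℤ) ≤ x :=
      (Finset.le_sup' (fun i : ℕ => x₀ (i : ℤ)) him).trans hx
    have hx1 : 1 ≤ x := (hx₀ _).trans hxi
    have hle : x ^ ((Finset.range m).inf' hne fun i => δ (i : ℤ)) ≤ x ^ δ (i : ℤ) :=
      Real.rpow_le_rpow_of_exponent_le hx1 (Finset.inf'_le (fun i : ℕ => δ (i : ℤ)) him)
    obtain ⟨l', d', g', k1, k2, k3, k4⟩ := H (i : ℤ) x hxi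
    refine ⟨l', d', g', k1, ?_, k3,
      (mul_le_mul_of_nonneg_right hle (h.pos _ _ _ k1).2.le).trans k4⟩
    have e1 : (q : ℤ) ^ a ∣ (i : ℤ) - r := by
      have e2 : ((q : ℤ) ^ a) = (m : ℤ) := by rw [hm]; push_cast; rfl
      rw [e2, hi]
      exact ⟨-(r / m), by linear_combination Int.emod_add_mul_ediv r m⟩
    have e2 := dvd_add k2 e1
    rwa [sub_add_sub_cancel] at e2

/-- **a bound with a small loss in one residue class at arbitrarily large scales** -/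
theorem Clo1.approx (h : Clo1 p V) {q : ℕ} (hq : q.Prime) (hqne : q ≠ p) (a : ℕ) (r : ℤ)
    (hb : ∀ ε : ℝ, 0 < ε → ∀ x₀ : ℝ, ∃ x : ℝ, x₀ ≤ x ∧ ∀ l d g, V l d g → (g : ℝ) ≤ x →
      (q : ℤ) ^ a ∣ (l : ℤ) - r → (l : ℝ) ≤ x ^ ε * d) {l g : ℕ} {d : ℝ} (hV : V l d g) :
    (l : ℝ) ≤ d := by
  by_contra hld
  rw [not_le] at hld
  obtain ⟨δ, hδ, x₀, hx₀, h1⟩ := h.res hq hqne hV hld a
  obtain ⟨x, hx, h2⟩ := hb (δ / 2) (by positivity) (max x₀ 2)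
  obtain ⟨l', d', g', h3, h4, h5, h6⟩ := h1 x ((le_max_left _ _).trans hx) r
  have hx2 : 2 ≤ x := (le_max_right _ _).trans hx
  have hlt : x ^ (δ / 2) < x ^ δ := Real.rpow_lt_rpow_of_exponent_lt (by linarith) (by linarith)
  have hd : (0 : ℝ) < d' := (h.pos _ _ _ h3).2
  have h8 := h2 l' d' g' h3 h5 h4
  have h11 : x ^ (δ / 2) * d' < x ^ δ * d' := by gcongr
  linarith

/-! ### Large groups only -/

lemma Clo1.large {p : ℕ} {V : ℕ → ℝ → ℕ → Prop} (h : Clo1 p V) (n₀ : ℕ) :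
    Clo1 p fun l d g => V l d g ∧ n₀ ≤ g := by
  refine ⟨fun l d g hV => h.pos l d g hV.1, fun l d g hV n hn =>
    ⟨h.pw l d g hV.1 n hn, hV.2.trans (Nat.le_self_pow hn.ne' _)⟩, fun q hq hqp l d g hV => ?_⟩
  obtain ⟨l', h1, h2⟩ := h.wr q hq hqp l d g hV.1
  exact ⟨l', ⟨h1, (hV.2.trans (Nat.le_self_pow hq.ne_zero _)).trans
    (Nat.le_mul_of_pos_right _ hq.pos)⟩, h2⟩

lemma Clo1.start {p : ℕ} {V : ℕ → ℝ → ℕ → Prop} (h : Clo1 p V) (n₀ : ℕ) {l g : ℕ} {d : ℝ}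
    (hV : V l d g) (hld : d < l) :
    ∃ (l' : ℕ) (d' : ℝ) (g' : ℕ), (V l' d' g' ∧ n₀ ≤ g') ∧ d' < l' := by
  refine ⟨l ^ (n₀ + 1), d ^ (n₀ + 1), g ^ (n₀ + 1), ⟨h.pw l d g hV _ (Nat.succ_pos _), ?_⟩, ?_⟩
  swap
  · push_cast
    exact pow_lt_pow_left₀ hld (h.pos l d g hV).2.le (Nat.succ_ne_zero _)
  have h1 := (h.pos l d g hV).1
  have h2 : n₀ + 1 < g ^ (n₀ + 1) := Nat.lt_pow_self h1
  omega

end Pool.Agent.H378.RS
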