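import Pool.Agent.H378.RS.Ar

/-!
# Pairs of natural numbers under the maps `x ↦ (x ^ q + c x) / q`
-/

set_option autoImplicit false

namespace Pool.Agent.H378.RS

/-- the constant: `p - 1` for `q = p`, `q² - 1` for `q ≠ p` -/
def co (p q : ℕ) : ℕ := if q = p then p - 1 else q ^ 2 - 1

lemma co_dvd {p q : ℕ} (hq : q.Prime) : (q : ℤ) ∣ (co p q : ℤ) + 1 := by
  unfold co
  split_ifs with h
  · subst h
    have h1 : 1 ≤ q := hq.one_lt.le
    push_cast [Nat.cast_sub h1]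
    exact ⟨1, by ring⟩
  · have h1 : 1 ≤ q ^ 2 := Nat.one_le_pow _ _ hq.pos
    push_cast [Nat.cast_sub h1]
    exact ⟨q, by ring⟩

/-- A set of triples `(l, w, g)` of natural numbers closed under powers and under the maps
`(l, w, g) ↦ ((l ^ q + c l) / q, (w ^ q + c w) / q, q g ^ q)` for all primes `q`. -/
structure Clo2 (p : ℕ) (V : ℕ → ℕ → ℕ → Prop) : Prop where
  pos : ∀ l w g, V l w g → 1 < g
  pw : ∀ l w g, V l w g → ∀ n : ℕ, 0 < n → V (l ^ n) (w ^ n) (g ^ n)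
  wr : ∀ q : ℕ, q.Prime → ∀ l w g, V l w g →
    ∃ l' w', V l' w' (g ^ q * q) ∧ q * l' = l ^ q + co p q * l ∧ q * w' = w ^ q + co p q * w

lemma Clo2.swap {p : ℕ} {V : ℕ → ℕ → ℕ → Prop} (h : Clo2 p V) :
    Clo2 p fun l w g => V w l g :=
  ⟨fun l w g => h.pos w l g, fun l w g => h.pw w l g, fun q hq l w g hV => by
    obtain ⟨l', w', h1, h2, h3⟩ := h.wr q hq w l g hV
    exact ⟨w', l', h1, h3, h2⟩⟩

/-- monotonicity -/
lemma mono {q : ℕ} (hq : q.Prime) {c x y x' y' : ℕ} (hx : q * x' = x ^ q + c * x)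
    (hy : q * y' = y ^ q + c * y) (h : y < x) : y' < x' := by
  have h1 : y ^ q < x ^ q := Nat.pow_lt_pow_left h hq.ne_zero
  have h2 : c * y ≤ c * x := Nat.mul_le_mul_left _ h.le
  exact lt_of_mul_lt_mul_left (a := q) (by rw [hx, hy]; omega) (Nat.zero_le _)

/-- the ratio grows -/
lemma ratio {q : ℕ} (hq : q.Prime) {c x y x' y' : ℕ} (hx : q * x' = x ^ q + c * x)
    (hy : q * y' = y ^ q + c * y) (h : y ≤ x) : x * y' ≤ x' * y := by
  refine le_of_mul_le_mul_left (a := q) ?_ hq.pos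
  have e1 : q * (x * y') = x * (y ^ q + c * y) := by rw [← hy]; ring
  have e2 : q * (x' * y) = (x ^ q + c * x) * y := by rw [← hx]; ring
  rw [e1, e2]
  have e3 : x * y ^ q ≤ x ^ q * y := by
    obtain ⟨n, hn⟩ : ∃ n, q = n + 1 := ⟨q - 1, (Nat.succ_pred hq.ne_zero).symm⟩
    rw [hn, pow_succ, pow_succ]
    have h1 : y ^ n ≤ x ^ n := Nat.pow_le_pow_left h n
    calc x * (y ^ n * y) = y ^ n * (x * y) := by ring
      _ ≤ x ^ n * (x * y) := Nat.mul_le_mul_right _ h1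
      _ = x ^ n * x * y := by ring
  calc x * (y ^ q + c * y) = x * y ^ q + c * x * y := by ring
    _ ≤ x ^ q * y + c * x * y := Nat.add_le_add_right e3 _
    _ = (x ^ q + c * x) * y := by ring

/-- the difference grows -/
lemma diff_grow {q : ℕ} (hq : q.Prime) {c x y x' y' : ℕ} (hx : q * x' = x ^ q + c * x)
    (hy : q * y' = y ^ q + c * y) (h : y ≤ x) (hqx : q ≤ x) : x + y' ≤ x' + y := by
  refine le_of_mul_le_mul_left (a := q) ?_ hq.pos
  have e1 : q * (x + y') = q * x + (y ^ q + c * y) := by rw [← hy]; ring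
  have e2 : q * (x' + y) = (x ^ q + c * x) + q * y := by rw [← hx]; ring
  rw [e1, e2]
  have e3 : q * x + y ^ q ≤ x ^ q + q * y := by
    obtain ⟨d, rfl⟩ := Nat.exists_eq_add_of_le h
    have h1 : (y + d) ^ (q - 1) * d ≤ (y + d) ^ q - y ^ q := by
      have h2 : (y + d) ^ q = (y + d) ^ (q - 1) * y + (y + d) ^ (q - 1) * d := by
        rw [← Nat.mul_add, ← pow_succ, Nat.sub_add_cancel hq.pos]
      have h3 : y ^ q ≤ (y + d) ^ (q - 1) * y := by
        have h4 : y ^ q = y ^ (q - 1) * y := by rw [← pow_succ, Nat.sub_add_cancel hq.pos]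
        rw [h4]
        exact Nat.mul_le_mul_right _ (Nat.pow_le_pow_left (Nat.le_add_right _ _) _)
      omega
    have h5 : q ≤ (y + d) ^ (q - 1) := by
      calc q ≤ y + d := hqx
        _ = (y + d) ^ 1 := (pow_one _).symm
        _ ≤ (y + d) ^ (q - 1) := Nat.pow_le_pow_right (by have := hq.pos; omega)
          (by have := hq.two_le; omega)
    have h6 : q * d ≤ (y + d) ^ (q - 1) * d := Nat.mul_le_mul_right _ h5
    have h7 : y ^ q ≤ (y + d) ^ q := Nat.pow_le_pow_left (Nat.le_add_right _ _) _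
    have h8 : q * (y + d) = q * y + q * d := by ring
    omega
  have e4 : c * y ≤ c * x := Nat.mul_le_mul_left _ h
  omega

lemma le_next {q : ℕ} (hq : q.Prime) {c x x' : ℕ} (hx : q * x' = x ^ q + c * x) (hqx : q ≤ x) :
    x ≤ x' := by
  have := diff_grow hq hx (y := 0) (y' := 0) (by rw [zero_pow hq.ne_zero]; ring) (Nat.zero_le _) hqx
  omega

variable {p : ℕ} {V : ℕ → ℕ → ℕ → Prop}

/-- the difference is made prime to `q` -/
theorem Clo2.unit (h : Clo2 p V) {q : ℕ} (hq : q.Prime) {l w g : ℕ} (hV : V l w g) (hlw : w < l) :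
    ∃ l' w' g', V l' w' g' ∧ w' < l' ∧ ¬ (q : ℤ) ∣ (l' : ℤ) - w' := by
  have hqp : Prime (q : ℤ) := Nat.prime_iff_prime_int.1 hq
  have hq0 : (q : ℤ) ≠ 0 := by exact_mod_cast hq.ne_zero
  have key : ∀ a : ℕ, ∀ l w g, V l w g → w < l → (q : ℤ) ^ a ∣ (l : ℤ) - w →
      ¬ (q : ℤ) ^ (a + 1) ∣ (l : ℤ) - w → ∃ l' w' g', V l' w' g' ∧ w' < l' ∧
        ¬ (q : ℤ) ∣ (l' : ℤ) - w' := by
    intro a
    induction a with
    | zero => exact fun l w g hs h1 _ h2 => ⟨l, w, g, hs, h1, by rwa [zero_add, pow_one] at h2⟩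
    | succ a ih =>
      intro l w g hs h0 h1 h2
      obtain ⟨l', w', h3, h4, h5⟩ := h.wr q hq l w g hs
      have h4' : (q : ℤ) * l' = (l : ℤ) ^ q + co p q * l := by exact_mod_cast h4
      have h5' : (q : ℤ) * w' = (w : ℤ) ^ q + co p q * w := by exact_mod_cast h5
      have h6 : (q : ℤ) ∣ (l : ℤ) - w := (dvd_pow_self _ (Nat.succ_ne_zero a)).trans h1
      have h7 := step_congr hq (co_dvd (p := p) hq) h4' h5' h6
      exact ih l' w' _ h3 (mono hq h4 h5 h0) ((h7 a).1 h1) fun h8 => h2 ((h7 (a + 1)).2 h8)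
  have hne : (l : ℤ) - w ≠ 0 := by omega
  have hfin : FiniteMultiplicity (q : ℤ) ((l : ℤ) - w) :=
    Int.finiteMultiplicity_iff.2 ⟨by rw [Int.natAbs_natCast]; exact hq.ne_one, hne⟩
  obtain ⟨a, ha⟩ := hfin
  classical
  have hex : ∃ a, ¬ (q : ℤ) ^ (a + 1) ∣ (l : ℤ) - w := ⟨a, ha⟩
  refine key (Nat.find hex) l w g hV hlw ?_ (Nat.find_spec hex)
  rcases Nat.eq_zero_or_pos (Nat.find hex) with h1 | h1
  · rw [h1, pow_zero]
    exact one_dvd _
  · have h2 := Nat.find_min hex (Nat.sub_lt h1 Nat.one_pos)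
    rw [not_not, Nat.sub_add_cancel h1] at h2
    exact h2

theorem Clo2.two (h : Clo2 p V) {q : ℕ} (hq : q.Prime) {l w g : ℕ} (hV : V l w g) (hlw : w < l) :
    ∃ l' w' g', V l' w' g' ∧ w' < l' ∧ ¬ (q : ℤ) ∣ (l' : ℤ) - w' ∧ 2 ≤ l' := by
  obtain ⟨l, w, g, hV, hlw, h1⟩ := h.unit hq hV hlw
  by_cases hl : 2 ≤ l
  · exact ⟨l, w, g, hV, hlw, h1, hl⟩
  · have hl1 : l = 1 := by omega
    have hw : w = 0 := by omega
    subst hl1
    subst hw
    obtain ⟨r, hr1, hr2⟩ := Nat.exists_infinite_primes (max p q + 1)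
    have hrp : r ≠ p := by
      rintro rfl
      exact absurd (le_max_left r q) (by omega)
    obtain ⟨l', w', h2, h3, h4⟩ := h.wr r hr2 _ _ _ hV
    have h5 : 1 ≤ r ^ 2 := Nat.one_le_pow _ _ hr2.pos
    have h6 : l' = r := by
      apply Nat.eq_of_mul_eq_mul_left hr2.pos
      rw [h3, co, if_neg hrp, one_pow, mul_one, ← sq]
      omega
    have h7 : w' = 0 := by
      apply Nat.eq_of_mul_eq_mul_left hr2.pos
      rw [h4, zero_pow hr2.ne_zero]
      ring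
    refine ⟨l', w', _, h2, by rw [h6, h7]; exact hr2.pos, ?_, by rw [h6]; exact hr2.two_le⟩
    rw [h6, h7, Nat.cast_zero, sub_zero]
    intro h8
    have h9 := (Nat.prime_dvd_prime_iff_eq hq hr2).1 (by exact_mod_cast h8)
    have := le_max_right p q
    omega

/-! ### Powers -/

/-- for `n ≥ q ^ a` with `n ≡ q ^ a` modulo `q ^ a (q - 1)` the powers `x ^ n` are the Teichmüller
representatives modulo `q ^ (a + 1)` -/
lemma teich {q : ℕ} (hq : q.Prime) (x : ℤ) (a k : ℕ) :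
    (q : ℤ) ^ (a + 1) ∣ x ^ (q ^ a * (1 + (q - 1) * k)) - x ^ (q ^ a) := by
  by_cases hx : (q : ℤ) ∣ x
  · have h1 : a + 1 ≤ q ^ a := Nat.lt_pow_self hq.one_lt
    have h2 : (q : ℤ) ^ (a + 1) ∣ x ^ (q ^ a) := (pow_dvd_pow _ h1).trans (pow_dvd_pow_of_dvd hx _)
    have h3 : (q : ℤ) ^ (a + 1) ∣ x ^ (q ^ a * (1 + (q - 1) * k)) :=
      h2.trans (pow_dvd_pow _ (Nat.le_mul_of_pos_right _ (by omega)))
    exact dvd_sub h3 h2
  · have h1 := pow_mod_one hq hx (a + 1) k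
    rw [Nat.totient_prime_pow_succ hq] at h1
    have h2 : x ^ (q ^ a * (1 + (q - 1) * k)) - x ^ (q ^ a) =
        x ^ (q ^ a) * (x ^ (q ^ a * (q - 1) * k) - 1) := by
      rw [mul_sub, mul_one, ← pow_add]
      congr 2
      ring
    rw [h2]
    exact h1.mul_left _

lemma teich_pow {q : ℕ} (hq : q.Prime) (x : ℤ) (a k : ℕ) {l : ℕ} (hl : 0 < l)
    (hlq : (q - 1) ∣ l - 1) : (q : ℤ) ^ (a + 1) ∣
      (x ^ (q ^ a * (1 + (q - 1) * k))) ^ l - x ^ (q ^ a * (1 + (q - 1) * k)) := by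
  obtain ⟨m, hm⟩ := hlq
  have e1 : (q ^ a * (1 + (q - 1) * k)) * l = q ^ a * (1 + (q - 1) * (k + (1 + (q - 1) * k) * m)) := by
    have : l = (q - 1) * m + 1 := by omega
    rw [this]
    ring
  rw [← pow_mul, e1]
  have h1 := teich hq x a (k + (1 + (q - 1) * k) * m)
  have h2 := teich hq x a k
  have h3 := dvd_sub h1 h2
  rwa [sub_sub_sub_cancel_right] at h3

lemma teich_one {q : ℕ} (hq : q.Prime) (x : ℤ) (a : ℕ) : (q : ℤ) ∣ x ^ (q ^ a) - x := by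
  have : Fact q.Prime := ⟨hq⟩
  rw [← ZMod.intCast_zmod_eq_zero_iff_dvd]
  push_cast
  rw [ZMod.pow_card_pow, sub_self]

/-- **all residues of the difference, of polynomial size, at all scales** -/
theorem Clo2.res1 (h : Clo2 p V) {q : ℕ} (hq : q.Prime) {l w g : ℕ} (hV : V l w g) (hlw : w < l)
    (a : ℕ) (r : ℤ) : ∃ δ : ℝ, 0 < δ ∧ ∃ x₀ : ℝ, 1 ≤ x₀ ∧ ∀ x : ℝ, x₀ ≤ x →
      ∃ l' w' g', V l' w' g' ∧ (q : ℤ) ^ a ∣ ((l' : ℤ) - w') - r ∧ (g' : ℝ) ≤ x ∧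
      x ^ δ * w' ≤ l' ∧ x ^ δ ≤ (l' : ℝ) - w' := by
  have hq0 : (q : ℤ) ≠ 0 := by exact_mod_cast hq.ne_zero
  have hqp : Prime (q : ℤ) := Nat.prime_iff_prime_int.1 hq
  have hq1 : 0 < q - 1 := Nat.sub_pos_of_lt hq.one_lt
  have hne : NeZero (q ^ (a + 1) * (q - 1)) :=
    ⟨(Nat.mul_pos (pow_pos hq.pos _) hq1).ne'⟩
  obtain ⟨l, w, g, hV, hlw, h1, hl2⟩ := h.two hq hV hlw
  have hg := h.pos l w g hV
  -- the inverse of the difference of the Teichmüller representatives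
  obtain ⟨U, hU⟩ : ∃ U : ℤ, U = (l : ℤ) ^ (q ^ a) - (w : ℤ) ^ (q ^ a) := ⟨_, rfl⟩
  have hUq : ¬ (q : ℤ) ∣ U := by
    intro h2
    apply h1
    have h3 := teich_one hq (l : ℤ) a
    have h4 := teich_one hq (w : ℤ) a
    have h5 : (l : ℤ) - w = U - ((l : ℤ) ^ (q ^ a) - l) + ((w : ℤ) ^ (q ^ a) - w) := by
      rw [hU]
      ring
    rw [h5]
    exact dvd_add (dvd_sub h2 h3) h4
  obtain ⟨r', hr'⟩ : ∃ r' : ℤ, (q : ℤ) ^ (a + 1) ∣ U * r' - r := by
    have h2 : IsCoprime ((q : ℤ) ^ (a + 1)) U := IsCoprime.pow_left ((hqp.coprime_iff_not_dvd).2 hUq)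
    obtain ⟨x, y, hxy⟩ := h2
    refine ⟨y * r, -(x * r), ?_⟩
    linear_combination r * hxy
  obtain ⟨t, ⟨k₀, hk₀⟩, ht⟩ := hensel (co_dvd (p := p) hq) r' a
  -- a prime number in the class of `t`
  obtain ⟨z, hz⟩ : ∃ z : ℤ, z = t + (q : ℤ) ^ (a + 1) * (1 - t) := ⟨_, rfl⟩
  have hcast : ((q - 1 : ℕ) : ℤ) = (q : ℤ) - 1 := by
    rw [Nat.cast_sub hq.one_lt.le]
    simp
  have hzq1 : ((q : ℤ) - 1) ∣ z - 1 := by
    have h2 : z - 1 = ((q : ℤ) ^ (a + 1) - 1) * (1 - t) := by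
      rw [hz]
      ring
    rw [h2]
    have h3 := sub_dvd_pow_sub_pow (q : ℤ) 1 (a + 1)
    rw [one_pow] at h3
    exact h3.mul_right _
  have hzt : (q : ℤ) ^ (a + 1) ∣ z - t := ⟨1 - t, by rw [hz]; ring⟩
  have hru : IsUnit (z : ZMod (q ^ (a + 1) * (q - 1))) := by
    rw [ZMod.coe_int_isUnit_iff_isCoprime]
    push_cast
    rw [hcast]
    refine IsCoprime.mul_left (IsCoprime.pow_left ?_) ?_
    · obtain ⟨e, he⟩ := hzt
      refine ⟨-k₀ - (q : ℤ) ^ a * e, 1, ?_⟩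
      rw [pow_succ] at he
      linear_combination he + hk₀
    · obtain ⟨e, he⟩ := hzq1
      exact ⟨-e, 1, by linear_combination he⟩
  obtain ⟨s, hs1, hs2, hs3⟩ := Nat.forall_exists_prime_gt_and_eq_mod hru (max p q)
  have hsp : s ≠ p := by
    rintro rfl
    exact absurd hs1 (not_lt.2 (le_max_left _ _))
  have hs3' : ((q ^ (a + 1) * (q - 1) : ℕ) : ℤ) ∣ (s : ℤ) - z := by
    have h2 : ((z : ℤ) : ZMod (q ^ (a + 1) * (q - 1))) = ((s : ℤ) : ZMod (q ^ (a + 1) * (q - 1))) := by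
      rw [← hs3]
      simp
    exact (ZMod.intCast_eq_intCast_iff_dvd_sub _ _ _).1 h2
  push_cast at hs3'
  rw [hcast] at hs3'
  have hst : (q : ℤ) ^ (a + 1) ∣ (s : ℤ) - t := by
    have h2 := (Dvd.intro _ rfl : (q : ℤ) ^ (a + 1) ∣ (q : ℤ) ^ (a + 1) * (q - 1)).trans hs3'
    have h3 := dvd_add h2 hzt
    rwa [sub_add_sub_cancel] at h3
  have hsq : (q - 1) ∣ s - 1 := by
    have h2 := (Dvd.intro_left _ rfl : ((q : ℤ) - 1) ∣ (q : ℤ) ^ (a + 1) * (q - 1)).trans hs3'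
    have h3 := dvd_add h2 hzq1
    rw [sub_add_sub_cancel, ← hcast] at h3
    have h4 : ((s - 1 : ℕ) : ℤ) = (s : ℤ) - 1 := by
      rw [Nat.cast_sub hs2.one_lt.le]
      simp
    rw [← h4] at h3
    exact_mod_cast h3
  have hsu : IsCoprime ((q : ℤ) ^ (a + 1)) (s : ℤ) := by
    refine IsCoprime.pow_left ((hqp.coprime_iff_not_dvd).2 fun h2 => ?_)
    have h3 := (Nat.prime_dvd_prime_iff_eq hq hs2).1 (by exact_mod_cast h2)
    exact absurd hs1 (not_lt.2 (h3 ▸ le_max_right _ _))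
  -- the members
  have key : ∀ k : ℕ, s ≤ l ^ (q ^ a * (1 + (q - 1) * k)) → q ≤ l ^ (q ^ a * (1 + (q - 1) * k)) →
      ∃ l' w', V l' w' (((g ^ (q ^ a * (1 + (q - 1) * k))) ^ s * s) ^ q * q) ∧
        (q : ℤ) ^ a ∣ ((l' : ℤ) - w') - r ∧
        l ^ (q ^ a * (1 + (q - 1) * k)) * w' ≤ l' * w ^ (q ^ a * (1 + (q - 1) * k)) ∧
        l ^ (q ^ a * (1 + (q - 1) * k)) + w' ≤ l' + w ^ (q ^ a * (1 + (q - 1) * k)) := by
    intro k hsl hql
    have hn0 : 0 < q ^ a * (1 + (q - 1) * k) := Nat.mul_pos (pow_pos hq.pos _) (by omega)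
    have hL1 := teich hq (l : ℤ) a k
    have hW1 := teich hq (w : ℤ) a k
    have hL2 := teich_pow hq (l : ℤ) a k hs2.pos hsq
    have hW2 := teich_pow hq (w : ℤ) a k hs2.pos hsq
    have hL3 := teich_pow hq (l : ℤ) a k hq.pos dvd_rfl
    have hW3 := teich_pow hq (w : ℤ) a k hq.pos dvd_rfl
    have hVn := h.pw l w g hV _ hn0
    generalize hn : q ^ a * (1 + (q - 1) * k) = n at *
    obtain ⟨l2, w2, h3, h4, h5⟩ := h.wr s hs2 _ _ _ hVn
    obtain ⟨l3, w3, h6, h7, h8⟩ := h.wr q hq _ _ _ h3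
    have hwl : w ^ n ≤ l ^ n := Nat.pow_le_pow_left hlw.le _
    have hwl2 : w2 ≤ l2 := (mono hs2 h4 h5 (Nat.pow_lt_pow_left hlw hn0.ne')).le
    have hl2' : l ^ n ≤ l2 := le_next hs2 h4 hsl
    refine ⟨l3, w3, h6, ?_, ?_, ?_⟩
    · -- congruences
      have h4' : (s : ℤ) * l2 = ((l : ℤ) ^ n) ^ s + co p s * (l : ℤ) ^ n := by exact_mod_cast h4
      have h5' : (s : ℤ) * w2 = ((w : ℤ) ^ n) ^ s + co p s * (w : ℤ) ^ n := by exact_mod_cast h5
      have h7' : (q : ℤ) * l3 = (l2 : ℤ) ^ q + co p q * l2 := by exact_mod_cast h7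
      have h8' : (q : ℤ) * w3 = (w2 : ℤ) ^ q + co p q * w2 := by exact_mod_cast h8
      have hcs : (co p s : ℤ) = (s : ℤ) ^ 2 - 1 := by
        rw [co, if_neg hsp, Nat.cast_sub (Nat.one_le_pow _ _ hs2.pos)]
        push_cast
        ring
      have hmul : ∀ (x x2 : ℤ), (s : ℤ) * x2 = x ^ s + co p s * x → (q : ℤ) ^ (a + 1) ∣ x ^ s - x →
          (q : ℤ) ^ (a + 1) ∣ x2 - t * x := by
        intro x x2 e1 e2
        have e3 : (s : ℤ) * (x2 - t * x) = (x ^ s - x) + ((s : ℤ) - t) * (s * x) := by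
          rw [mul_sub, e1, hcs]
          ring
        exact hsu.dvd_of_dvd_mul_left (e3 ▸ dvd_add e2 (hst.mul_right _))
      have hL4 := hmul _ _ h4' hL2
      have hW4 := hmul _ _ h5' hW2
      -- the last step
      have hfin : ∀ (x x2 : ℤ), (q : ℤ) ^ (a + 1) ∣ x2 - t * x → (q : ℤ) ^ (a + 1) ∣ x ^ q - x →
          (q : ℤ) ^ (a + 1) ∣ (x2 ^ q + co p q * x2) - q * r' * x := by
        intro x x2 e1 e2
        have e3 : (q : ℤ) ^ (a + 1) ∣ x2 ^ q - (t * x) ^ q :=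
          e1.trans (sub_dvd_pow_sub_pow _ _ _)
        have e4 : (x2 ^ q + co p q * x2) - q * r' * x = (x2 ^ q - (t * x) ^ q) +
            co p q * (x2 - t * x) + t ^ q * (x ^ q - x) + (t ^ q + co p q * t - q * r') * x := by
          rw [mul_pow]
          ring
        rw [e4]
        exact dvd_add (dvd_add (dvd_add e3 (e1.mul_left _)) (e2.mul_left _)) (ht.mul_right _)
      have hL5 := hfin _ _ hL4 hL3
      have hW5 := hfin _ _ hW4 hW3
      rw [← mul_dvd_mul_iff_left hq0, ← pow_succ']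
      have e5 : (q : ℤ) * ((l3 : ℤ) - w3 - r) =
          (((l2 : ℤ) ^ q + co p q * l2) - q * r' * (l : ℤ) ^ n) -
          (((w2 : ℤ) ^ q + co p q * w2) - q * r' * (w : ℤ) ^ n) +
          q * r' * (((l : ℤ) ^ n - (l : ℤ) ^ (q ^ a)) - ((w : ℤ) ^ n - (w : ℤ) ^ (q ^ a))) +
          q * (U * r' - r) := by
        rw [hU, mul_sub, mul_sub, h7', h8']
        ring
      rw [e5]
      exact dvd_add (dvd_add (dvd_sub hL5 hW5) ((dvd_sub hL1 hW1).mul_left _)) (hr'.mul_left _)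
    · -- the ratio
      have e1 := ratio hs2 h4 h5 hwl
      have e2 := ratio hq h7 h8 hwl2
      rcases Nat.eq_zero_or_pos w2 with hw2 | hw2
      · have hw3 : w3 = 0 := by
          apply Nat.eq_of_mul_eq_mul_left hq.pos
          rw [h8, hw2, zero_pow hq.ne_zero]
          ring
        rw [hw3, mul_zero]
        exact Nat.zero_le _
      · have hl2p : 0 < l2 := lt_of_lt_of_le hw2 hwl2
        refine le_of_mul_le_mul_left (a := l2 * w2) ?_ (Nat.mul_pos hl2p hw2)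
        calc l2 * w2 * (l ^ n * w3) = (l ^ n * w2) * (l2 * w3) := by ring
          _ ≤ (l2 * w ^ n) * (l3 * w2) := Nat.mul_le_mul e1 e2
          _ = l2 * w2 * (l3 * w ^ n) := by ring
    · have e1 := diff_grow hs2 h4 h5 hwl hsl
      have e2 := diff_grow hq h7 h8 hwl2 (hql.trans hl2')
      omega
  -- the base
  have hl0 : (0 : ℝ) < l := by exact_mod_cast (by omega : 0 < l)
  obtain ⟨κ, hκ⟩ : ∃ κ : ℝ, κ = 1 + 1 / (l : ℝ) := ⟨_, rfl⟩
  have hκ1 : 1 < κ := by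
    rw [hκ]
    have : 0 < 1 / (l : ℝ) := by positivity
    linarith
  have hκ2 : κ ≤ 3 / 2 := by
    rw [hκ]
    have h2 : (2 : ℝ) ≤ l := by exact_mod_cast hl2
    have : 1 / (l : ℝ) ≤ 1 / 2 := one_div_le_one_div_of_le (by norm_num) h2
    linarith
  have hκw : κ * w ≤ l := by
    have h2 : (w : ℝ) + 1 ≤ l := by exact_mod_cast hlw
    rw [hκ, add_mul, one_mul, one_div, inv_mul_eq_div]
    have h3 : (w : ℝ) / l ≤ 1 := by
      rw [div_le_one hl0]
      linarith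
    linarith
  have hlq : (0 : ℝ) < s * q := by
    have := hs2.pos
    have := hq.pos
    positivity
  have h4g : (1 : ℝ) < 4 * g := by
    have : (1 : ℝ) ≤ g := by exact_mod_cast hg.le
    linarith
  have hlog : 0 < Real.log (4 * g) := Real.log_pos h4g
  -- the size of the group
  have hsize : ∀ n : ℕ, 1 ≤ n → ((((g ^ n) ^ s * s) ^ q * q : ℕ) : ℝ) ≤
      (4 * g : ℝ) ^ (s * q * n) := by
    intro n hn
    have e2 : (s : ℝ) ≤ 2 ^ s := by exact_mod_cast (Nat.lt_two_pow_self (n := s)).le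
    have e3 : (q : ℝ) ≤ 2 ^ q := by exact_mod_cast (Nat.lt_two_pow_self (n := q)).le
    have e4 : (2 : ℝ) ^ q ≤ 2 ^ (s * q) :=
      pow_le_pow_right₀ (by norm_num) (Nat.le_mul_of_pos_left _ hs2.pos)
    have e5 : (4 : ℝ) ^ (s * q) ≤ 4 ^ (s * q * n) :=
      pow_le_pow_right₀ (by norm_num) (Nat.le_mul_of_pos_right _ hn)
    push_cast
    rw [mul_pow, ← pow_mul, ← pow_mul, mul_pow]
    calc (g : ℝ) ^ (n * (s * q)) * (s : ℝ) ^ q * q
        ≤ (g : ℝ) ^ (n * (s * q)) * ((2 : ℝ) ^ s) ^ q * 2 ^ (s * q) := by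
          have := e3.trans e4
          gcongr
      _ = (g : ℝ) ^ (n * (s * q)) * 4 ^ (s * q) := by
          rw [← pow_mul, mul_assoc, ← mul_pow]
          norm_num
      _ ≤ (g : ℝ) ^ (n * (s * q)) * 4 ^ (s * q * n) := by gcongr
      _ = 4 ^ (s * q * n) * (g : ℝ) ^ (s * q * n) := by
          rw [mul_comm]
          congr 2
          ring
  -- the members, once more
  have key2 : ∀ k : ℕ, s + q + 3 ≤ k → ∃ l' w',
      V l' w' (((g ^ (q ^ a * (1 + (q - 1) * k))) ^ s * s) ^ q * q) ∧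
        (q : ℤ) ^ a ∣ ((l' : ℤ) - w') - r ∧ κ ^ (q ^ a * (1 + (q - 1) * k)) * w' ≤ l' ∧
        κ ^ (q ^ a * (1 + (q - 1) * k)) ≤ (l' : ℝ) - w' := by
    intro k hk
    have hnk : k ≤ q ^ a * (1 + (q - 1) * k) := by
      have e1 : 1 ≤ q ^ a := Nat.one_le_pow _ _ hq.pos
      calc k ≤ 1 + (q - 1) * k := by nlinarith
        _ ≤ q ^ a * (1 + (q - 1) * k) := Nat.le_mul_of_pos_left _ e1
    have hbig : q ^ a * (1 + (q - 1) * k) < l ^ (q ^ a * (1 + (q - 1) * k)) :=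
      lt_of_lt_of_le Nat.lt_two_pow_self (Nat.pow_le_pow_left hl2 _)
    obtain ⟨l', w', h3, h4, h5, h6⟩ := key k (by omega) (by omega)
    generalize q ^ a * (1 + (q - 1) * k) = n at *
    have hn3 : 3 ≤ n := by omega
    -- `κ ^ n w ^ n ≤ l ^ n`
    have f1 : κ ^ n * (w : ℝ) ^ n ≤ (l : ℝ) ^ n := by
      rw [← mul_pow]
      exact pow_le_pow_left₀ (by positivity) hκw _
    -- `2 κ ^ n ≤ 2 ^ n`
    have f2 : 2 * κ ^ n ≤ (2 : ℝ) ^ n := by
      have e1 : κ ^ n ≤ (3 / 2) ^ n := pow_le_pow_left₀ (by linarith) hκ2 _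
      have e2 : 2 * (3 / 2 : ℝ) ^ n ≤ 2 ^ n := by
        obtain ⟨m, rfl⟩ := Nat.exists_eq_add_of_le hn3
        rw [pow_add, pow_add]
        have e3 : (3 / 2 : ℝ) ^ m ≤ 2 ^ m := pow_le_pow_left₀ (by norm_num) (by norm_num) _
        have e4 : (0 : ℝ) < (3 / 2 : ℝ) ^ m := by positivity
        nlinarith
      linarith
    have f3 : (2 : ℝ) ^ n ≤ (l : ℝ) ^ n :=
      pow_le_pow_left₀ (by norm_num) (by exact_mod_cast hl2) _
    have f4 : (w : ℝ) ^ n + κ ^ n ≤ (l : ℝ) ^ n := by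
      have e1 : 2 ≤ κ ^ n ∨ κ ^ n < 2 := le_or_gt _ _
      rcases e1 with e1 | e1
      · have e2 : 2 * (w : ℝ) ^ n ≤ (l : ℝ) ^ n := by
          have : (0 : ℝ) ≤ (w : ℝ) ^ n := by positivity
          nlinarith
        linarith
      · -- `l ^ n - w ^ n ≥ l ^ (n - 1) ≥ 4`
        obtain ⟨m, rfl⟩ := Nat.exists_eq_add_of_le hn3
        have e2 : (w : ℝ) + 1 ≤ l := by exact_mod_cast hlw
        have e3 : (w : ℝ) ^ (2 + m) ≤ (l : ℝ) ^ (2 + m) :=
          pow_le_pow_left₀ (by positivity) (by linarith) _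
        have e4 : (4 : ℝ) ≤ (l : ℝ) ^ (2 + m) := by
          have e5 : (2 : ℝ) ^ (2 + m) ≤ (l : ℝ) ^ (2 + m) :=
            pow_le_pow_left₀ (by norm_num) (by exact_mod_cast hl2) _
          have e6 : (4 : ℝ) ≤ 2 ^ (2 + m) := by
            rw [pow_add]
            have : (1 : ℝ) ≤ 2 ^ m := one_le_pow₀ (by norm_num)
            linarith
          linarith
        have e7 : (w : ℝ) ^ (3 + m) = (w : ℝ) ^ (2 + m) * w := by
          rw [← pow_succ]
          congr 1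
          omega
        have e8 : (l : ℝ) ^ (3 + m) = (l : ℝ) ^ (2 + m) * l := by
          rw [← pow_succ]
          congr 1
          omega
        have e9 : (0 : ℝ) ≤ w := by positivity
        rw [e7, e8]
        have e10 : (w : ℝ) ^ (2 + m) * w ≤ (l : ℝ) ^ (2 + m) * w :=
          mul_le_mul_of_nonneg_right e3 e9
        nlinarith
    have h5' : (l : ℝ) ^ n * w' ≤ l' * (w : ℝ) ^ n := by exact_mod_cast h5
    have h6' : (l : ℝ) ^ n + w' ≤ l' + (w : ℝ) ^ n := by exact_mod_cast h6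
    have hw'0 : (0 : ℝ) ≤ w' := by positivity
    have hl'0 : (0 : ℝ) ≤ l' := by positivity
    refine ⟨l', w', h3, h4, ?_, by linarith⟩
    rcases eq_or_lt_of_le (show (0 : ℝ) ≤ (w : ℝ) ^ n by positivity) with e1 | e1
    · rw [← e1, mul_zero] at h5'
      have e2 : (0 : ℝ) < (l : ℝ) ^ n := by positivity
      have e3 : (w' : ℝ) = 0 := by
        by_contra hne
        have : (0 : ℝ) < w' := lt_of_le_of_ne hw'0 (Ne.symm hne)
        nlinarith [mul_pos e2 this]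
      rw [e3, mul_zero]
      exact hl'0
    · refine le_of_mul_le_mul_right ?_ e1
      calc κ ^ n * w' * (w : ℝ) ^ n = κ ^ n * (w : ℝ) ^ n * w' := by ring
        _ ≤ (l : ℝ) ^ n * w' := mul_le_mul_of_nonneg_right f1 hw'0
        _ ≤ l' * (w : ℝ) ^ n := h5'
  -- all scales
  obtain ⟨M, hM⟩ : ∃ M : ℝ, M = s * q * Real.log (4 * g) := ⟨_, rfl⟩
  have hM0 : 0 < M := hM ▸ mul_pos hlq hlog
  obtain ⟨A, hA⟩ : ∃ A : ℝ, A = (q : ℝ) ^ a * (q - 1 : ℕ) * M := ⟨_, rfl⟩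
  obtain ⟨A₀, hA₀⟩ : ∃ A₀ : ℝ, A₀ = (q : ℝ) ^ a * M := ⟨_, rfl⟩
  have hqR : (0 : ℝ) < q := by exact_mod_cast hq.pos
  have hA0 : 0 < A := by
    have : (0 : ℝ) < (q - 1 : ℕ) := by exact_mod_cast hq1
    rw [hA]
    positivity
  have hA₀0 : 0 < A₀ := by
    rw [hA₀]
    positivity
  have hlogκ : 0 < Real.log κ := Real.log_pos hκ1
  refine ⟨Real.log κ / (2 * M), by positivity,
    Real.exp (A₀ + (s + q + 4) * A + 2 * A), Real.one_le_exp (by positivity), fun x hx => ?_⟩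
  have hx0 : 0 < x := lt_of_lt_of_le (Real.exp_pos _) hx
  obtain ⟨u, hu⟩ : ∃ u : ℝ, u = Real.log x := ⟨_, rfl⟩
  have hux : x = Real.exp u := by rw [hu, Real.exp_log hx0]
  have hu1 : A₀ + (s + q + 4) * A + 2 * A ≤ u := by
    rw [hu]
    exact (Real.le_log_iff_exp_le hx0).2 hx
  have hsq0 : (0 : ℝ) ≤ (s : ℝ) + q := by positivity
  have hu2 : 0 ≤ (u - A₀) / A := by
    apply div_nonneg _ hA0.le
    nlinarith
  obtain ⟨k, hk⟩ : ∃ k, k = ⌊(u - A₀) / A⌋₊ := ⟨_, rfl⟩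
  have hk1 : (k : ℝ) ≤ (u - A₀) / A := hk ▸ Nat.floor_le hu2
  have hk2 : (u - A₀) / A < k + 1 := hk ▸ Nat.lt_floor_add_one _
  rw [le_div_iff₀ hA0] at hk1
  rw [div_lt_iff₀ hA0] at hk2
  have hk3 : s + q + 3 ≤ k := by
    have e1 : ((s + q + 3 : ℕ) : ℝ) < k + 1 := by
      push_cast
      by_contra hcon
      rw [not_lt] at hcon
      have : ((k : ℝ) + 1) * A ≤ ((s : ℝ) + q + 3) * A := by gcongr
      nlinarith
    have e2 : s + q + 3 < k + 1 := by exact_mod_cast e1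
    omega
  obtain ⟨l', w', c1, c2, c3, c4⟩ := key2 k hk3
  have hnM : ((q ^ a * (1 + (q - 1) * k) : ℕ) : ℝ) * M = A₀ + k * A := by
    rw [hA₀, hA]
    push_cast
    ring
  have hn1 : 1 ≤ q ^ a * (1 + (q - 1) * k) := Nat.mul_pos (pow_pos hq.pos _) (by omega)
  have hs := hsize _ hn1
  generalize q ^ a * (1 + (q - 1) * k) = n at *
  have hκn : x ^ (Real.log κ / (2 * M)) ≤ κ ^ n := by
    rw [hux, ← Real.exp_mul, ← Real.exp_log (pow_pos (by linarith : (0 : ℝ) < κ) n),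
      Real.exp_le_exp, Real.log_pow]
    have e1 : u ≤ 2 * (n * M) := by
      rw [hnM]
      nlinarith
    calc u * (Real.log κ / (2 * M)) ≤ (2 * (n * M)) * (Real.log κ / (2 * M)) := by gcongr
      _ = n * Real.log κ := by field_simp
  refine ⟨l', w', _, c1, c2, hs.trans ?_, ?_, hκn.trans c4⟩
  · rw [hux, ← Real.exp_log (pow_pos (by linarith : (0 : ℝ) < 4 * g) _), Real.exp_le_exp,
      Real.log_pow]
    have e1 : ((s * q * n : ℕ) : ℝ) * Real.log (4 * g) = n * M := by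
      rw [hM]
      push_cast
      ring
    rw [e1, hnM]
    linarith
  · exact (mul_le_mul_of_nonneg_right hκn (by positivity)).trans c3

/-- **all residues of the difference, of polynomial size, at all scales** -/
theorem Clo2.res (h : Clo2 p V) {q : ℕ} (hq : q.Prime) {l w g : ℕ} (hV : V l w g) (hlw : w < l)
    (a : ℕ) : ∃ δ : ℝ, 0 < δ ∧ ∃ x₀ : ℝ, 1 ≤ x₀ ∧ ∀ x : ℝ, x₀ ≤ x → ∀ r : ℤ,
      ∃ l' w' g', V l' w' g' ∧ (q : ℤ) ^ a ∣ ((l' : ℤ) - w') - r ∧ (g' : ℝ) ≤ x ∧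
      x ^ δ * w' ≤ l' ∧ x ^ δ ≤ (l' : ℝ) - w' := by
  choose δ hδ x₀ hx₀ H using fun r : ℤ => h.res1 hq hV hlw a r
  obtain ⟨m, hm⟩ : ∃ m, m = q ^ a := ⟨_, rfl⟩
  have hm0 : 0 < m := hm ▸ pow_pos hq.pos _
  have hne : (Finset.range m).Nonempty := ⟨0, Finset.mem_range.2 hm0⟩
  refine ⟨(Finset.range m).inf' hne fun i => δ (i : ℤ), ?_,
    (Finset.range m).sup' hne fun i => x₀ (i : ℤ), ?_, fun x hx r => ?_⟩
  · rw [Finset.lt_inf'_iff]
    exact fun i _ => hδ _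
  · exact (hx₀ ((0 : ℕ) : ℤ)).trans
      (Finset.le_sup' (fun i : ℕ => x₀ (i : ℤ)) (Finset.mem_range.2 hm0))
  · have hmz : (m : ℤ) ≠ 0 := by exact_mod_cast hm0.ne'
    obtain ⟨i, hi⟩ : ∃ i : ℕ, (i : ℤ) = r % m :=
      ⟨(r % m).toNat, Int.toNat_of_nonneg (Int.emod_nonneg _ hmz)⟩
    have hmi : (i : ℤ) < m := hi ▸ Int.emod_lt_of_pos _ (by exact_mod_cast hm0)
    have him : i ∈ Finset.range m := Finset.mem_range.2 (by exact_mod_cast hmi)
    have hxi : x₀ (i : ℤ) ≤ x :=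
      (Finset.le_sup' (fun i : ℕ => x₀ (i : ℤ)) him).trans hx
    have hx1 : 1 ≤ x := (hx₀ _).trans hxi
    have hle : x ^ ((Finset.range m).inf' hne fun i => δ (i : ℤ)) ≤ x ^ δ (i : ℤ) :=
      Real.rpow_le_rpow_of_exponent_le hx1 (Finset.inf'_le (fun i : ℕ => δ (i : ℤ)) him)
    obtain ⟨l', w', g', k1, k2, k3, k4, k5⟩ := H (i : ℤ) x hxi
    refine ⟨l', w', g', k1, ?_, k3,
      (mul_le_mul_of_nonneg_right hle (by positivity)).trans k4, hle.trans k5⟩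
    have e1 : (q : ℤ) ^ a ∣ (i : ℤ) - r := by
      have e2 : ((q : ℤ) ^ a) = (m : ℤ) := by rw [hm]; push_cast; rfl
      rw [e2, hi]
      exact ⟨-(r / m), by linear_combination Int.emod_add_mul_ediv r m⟩
    have e2 := dvd_add k2 e1
    rwa [sub_add_sub_cancel] at e2

/-- closeness -/
def Cl (t : ℝ) (a b : ℕ) : Prop := ((a : ℝ) ≤ t * b ∧ (b : ℝ) ≤ t * a) ∨ |(a : ℝ) - b| ≤ t

lemma Cl.symm {t : ℝ} {a b : ℕ} (h : Cl t a b) : Cl t b a := by
  rcases h with h | h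
  · exact Or.inl ⟨h.2, h.1⟩
  · exact Or.inr (by rwa [abs_sub_comm])

/-- **approximate equality in one residue class at arbitrarily large scales** -/
theorem Clo2.approx (h : Clo2 p V) {q : ℕ} (hq : q.Prime) (a : ℕ) (r : ℤ)
    (hb : ∀ ε : ℝ, 0 < ε → ∀ x₀ : ℝ, ∃ x : ℝ, x₀ ≤ x ∧ ∀ l w g, V l w g → (g : ℝ) ≤ x →
      (q : ℤ) ^ a ∣ ((l : ℤ) - w) - r → Cl (x ^ ε) l w) {l w g : ℕ} (hV : V l w g) :
    l ≤ w := by
  by_contra hlw
  rw [not_le] at hlw
  obtain ⟨δ, hδ, x₀, hx₀, h1⟩ := h.res hq hV hlw a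
  obtain ⟨x, hx, h2⟩ := hb (δ / 2) (by positivity) (max x₀ 2)
  obtain ⟨l', w', g', h3, h4, h5, h6, h7⟩ := h1 x ((le_max_left _ _).trans hx) r
  have hx2 : 2 ≤ x := (le_max_right _ _).trans hx
  have hlt : x ^ (δ / 2) < x ^ δ := Real.rpow_lt_rpow_of_exponent_lt (by linarith) (by linarith)
  rcases h2 l' w' g' h3 h5 h4 with h8 | h8
  · have hw0 : (0 : ℝ) ≤ w' := by positivity
    rcases eq_or_lt_of_le hw0 with h9 | h9
    · have h10 := h8.1
      rw [← h9, mul_zero] at h10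
      rw [← h9] at h7
      have : 0 < x ^ δ := Real.rpow_pos_of_pos (by linarith) _
      linarith
    · have h10 : x ^ δ * w' ≤ x ^ (δ / 2) * w' := h6.trans h8.1
      have h11 : x ^ (δ / 2) * w' < x ^ δ * w' := by gcongr
      linarith
  · have h9 := (abs_le.1 h8).2
    linarith

end Pool.Agent.H378.RS
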